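import Mathlib

set_option autoImplicit false
open Filter Topology Set
open scoped ComplexConjugate Real

namespace Pool.Agent.Colloc

/-- the quadratic form -/
noncomputable def qf (Γp Γm Δp Δm : ℂ) (T : ℝ) (φ ψ : ℂ) : ℝ :=
  ‖φ‖ ^ 2 * (T * Γp.re + T⁻¹ * Γm.re) + ‖ψ‖ ^ 2 * (T⁻¹ * Δp.re + T * Δm.re) +
    (Complex.I * (Γp - Γm) * φ * conj ψ).re - (Complex.I * (Δp - Δm) * ψ * conj φ).re

lemma re_conj_mul (z : ℂ) : (conj z * z).re = ‖z‖ ^ 2 := by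
  rw [mul_comm, Complex.mul_conj, Complex.ofReal_re, Complex.normSq_eq_norm_sq]

lemma qf_eq (Γp Γm Δp Δm : ℂ) (T : ℝ) (φ ψ : ℂ) : qf Γp Γm Δp Δm T φ ψ =
    (conj φ * (((T : ℂ) * Γp + (T⁻¹ : ℝ) * Γm) * φ + (-(Complex.I * (Δp - Δm))) * ψ) +
      conj ψ * ((Complex.I * (Γp - Γm)) * φ + ((T⁻¹ : ℝ) * Δp + (T : ℂ) * Δm) * ψ)).re := by
  have e : conj φ * (((T : ℂ) * Γp + (T⁻¹ : ℝ) * Γm) * φ + (-(Complex.I * (Δp - Δm))) * ψ) +
      conj ψ * ((Complex.I * (Γp - Γm)) * φ + ((T⁻¹ : ℝ) * Δp + (T : ℂ) * Δm) * ψ) =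
      ((‖φ‖ ^ 2 : ℝ) : ℂ) * ((T : ℂ) * Γp + (T⁻¹ : ℝ) * Γm) + ((‖ψ‖ ^ 2 : ℝ) : ℂ) * ((T⁻¹ : ℝ) * Δp + (T : ℂ) * Δm) +
      Complex.I * (Γp - Γm) * φ * conj ψ - Complex.I * (Δp - Δm) * ψ * conj φ := by
    rw [← Complex.normSq_eq_norm_sq, ← Complex.normSq_eq_norm_sq, ← Complex.mul_conj, ← Complex.mul_conj]
    ring
  rw [e]
  simp only [Complex.sub_re, Complex.add_re, Complex.re_ofReal_mul, qf]

lemma nodet {Γp Γm Δp Δm : ℂ} (h : ∀ T : ℝ, 0 < T → ∀ φ ψ : ℂ, (φ ≠ 0 ∨ ψ ≠ 0) → 0 < qf Γp Γm Δp Δm T φ ψ)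
    {T : ℝ} (hT : 0 < T) : Γp * Δm * (T : ℂ) ^ 2 + Γm * Δp ≠ 0 := by
  intro h0
  set m11 : ℂ := (T : ℂ) * Γp + (T⁻¹ : ℝ) * Γm with hm11
  have h1 := h T hT 1 0 (Or.inl one_ne_zero)
  have hm : m11 ≠ 0 := by
    intro h2
    have : m11.re = T * Γp.re + T⁻¹ * Γm.re := by
      rw [hm11, Complex.add_re, Complex.re_ofReal_mul, Complex.re_ofReal_mul]
    unfold qf at h1
    simp at h1
    rw [h2] at this
    simp at this
    linarith
  have h2 := h T hT (Complex.I * (Δp - Δm)) m11 (Or.inr hm)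
  rw [qf_eq] at h2
  have e1 : ((T : ℂ) * Γp + (T⁻¹ : ℝ) * Γm) * (Complex.I * (Δp - Δm)) + (-(Complex.I * (Δp - Δm))) * m11 = 0 := by
    rw [hm11]; ring
  have e2 : (Complex.I * (Γp - Γm)) * (Complex.I * (Δp - Δm)) + ((T⁻¹ : ℝ) * Δp + (T : ℂ) * Δm) * m11 = 0 := by
    have hT0 : (T : ℂ) ≠ 0 := by exact_mod_cast hT.ne'
    have hI := Complex.I_mul_I
    rw [hm11]
    push_cast
    have : (Complex.I * (Γp - Γm)) * (Complex.I * (Δp - Δm)) = -((Γp - Γm) * (Δp - Δm)) := by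
      linear_combination (Γp - Γm) * (Δp - Δm) * hI
    rw [this]
    field_simp
    linear_combination ((T : ℂ) ^ 2 + 1) * h0
  rw [e1, e2] at h2
  simp at h2

lemma pos_of {γ x z : ℝ} (h : ∀ T : ℝ, 0 < T → γ * (T + T⁻¹) ≤ T * x + T⁻¹ * z) (hγ : 0 < γ) : γ ≤ x := by
  by_contra hlt
  rw [not_le] at hlt
  set T := max 1 ((|z| + γ + 1) / (γ - x)) with hT
  have hT1 : 1 ≤ T := le_max_left _ _
  have hTpos : 0 < T := by linarith
  have h1 := h T hTpos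
  have h2 : γ * (T ^ 2 + 1) ≤ T ^ 2 * x + z := by
    have := mul_le_mul_of_nonneg_left h1 hTpos.le
    have e1 : T * (γ * (T + T⁻¹)) = γ * (T ^ 2 + 1) := by field_simp
    have e2 : T * (T * x + T⁻¹ * z) = T ^ 2 * x + z := by field_simp
    rwa [e1, e2] at this
  have h3 : |z| + γ + 1 ≤ (γ - x) * T := by
    have := le_max_right 1 ((|z| + γ + 1) / (γ - x))
    rw [← hT, div_le_iff₀ (by linarith)] at this
    linarith
  have h4 : (γ - x) * T ≤ (γ - x) * T ^ 2 := by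
    apply mul_le_mul_of_nonneg_left _ (by linarith)
    nlinarith
  have := le_abs_self z
  nlinarith

lemma qf_lin (τ : ℝ) (Γp Γm Δp Δm : ℂ) (T : ℝ) (φ ψ : ℂ) :
    qf ((1 - τ : ℝ) + τ * Γp) ((1 - τ : ℝ) + τ * Γm) ((1 - τ : ℝ) + τ * Δp) ((1 - τ : ℝ) + τ * Δm) T φ ψ =
      (1 - τ) * ((‖φ‖ ^ 2 + ‖ψ‖ ^ 2) * (T + T⁻¹)) + τ * qf Γp Γm Δp Δm T φ ψ := by
  unfold qf
  have e1 : Complex.I * (((1 - τ : ℝ) + τ * Γp : ℂ) - ((1 - τ : ℝ) + τ * Γm)) * φ * conj ψ = (τ : ℂ) * (Complex.I * (Γp - Γm) * φ * conj ψ) := by ring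
  have e2 : Complex.I * (((1 - τ : ℝ) + τ * Δp : ℂ) - ((1 - τ : ℝ) + τ * Δm)) * ψ * conj φ = (τ : ℂ) * (Complex.I * (Δp - Δm) * ψ * conj φ) := by ring
  rw [e1, e2, Complex.re_ofReal_mul, Complex.re_ofReal_mul]
  simp only [Complex.add_re, Complex.ofReal_re, Complex.re_ofReal_mul]
  ring

lemma beta_exists {φ1 φ2 : ℝ} (h1 : |φ1| < π) (h2 : |φ2| < π) (h3 : |φ1 - φ2| < π) :
    ∃ β : ℝ, |φ1 - β| < π / 2 ∧ |φ2 - β| < π / 2 ∧ |β| < π / 2 := by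
  rw [abs_lt] at h1 h2 h3
  refine ⟨(max φ1 (max φ2 0) + min φ1 (min φ2 0)) / 2, ?_, ?_, ?_⟩ <;> rw [abs_lt] <;>
  rcases max_cases φ2 0 with ⟨a1, a2⟩ | ⟨a1, a2⟩ <;> rw [a1] <;>
  rcases min_cases φ2 0 with ⟨b1, b2⟩ | ⟨b1, b2⟩ <;> rw [b1] <;>
  rcases max_cases φ1 φ2 with ⟨c1, c2⟩ | ⟨c1, c2⟩ <;> rcases max_cases φ1 0 with ⟨d1, d2⟩ | ⟨d1, d2⟩ <;>
  rcases min_cases φ1 φ2 with ⟨e1, e2⟩ | ⟨e1, e2⟩ <;> rcases min_cases φ1 0 with ⟨f1, f2⟩ | ⟨f1, f2⟩ <;>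
  simp only [c1, d1, e1, f1] <;> constructor <;> linarith

lemma polar (z : ℂ) : z = (‖z‖ : ℂ) * Complex.exp ((z.arg : ℂ) * Complex.I) := (Complex.norm_mul_exp_arg_mul_I z).symm

theorem alg {Γp Γm Δp Δm : ℂ} {γ : ℝ} (hγ : 0 < γ)
    (h : ∀ T : ℝ, 0 < T → ∀ φ ψ : ℂ, γ * ((‖φ‖ ^ 2 + ‖ψ‖ ^ 2) * (T + T⁻¹)) ≤ qf Γp Γm Δp Δm T φ ψ)
    {μ ν : ℝ} (hμ0 : 0 ≤ μ) (hμ1 : μ ≤ 1) (hν0 : 0 ≤ ν) (hν1 : ν ≤ 1) :
    (Γp * Δm * (μ : ℂ) + Γm * Δp * (1 - (μ : ℂ))) * (ν : ℂ) + Δp * Δm * (1 - (ν : ℂ)) ≠ 0 := by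
  have hΓp : 0 < Γp.re := by
    have := pos_of (γ := γ) (x := Γp.re) (z := Γm.re) (fun T hT => by
      have := h T hT 1 0
      simpa [qf] using this) hγ
    linarith
  have hΓm : 0 < Γm.re := by
    have := pos_of (γ := γ) (x := Γm.re) (z := Γp.re) (fun T hT => by
      have := h T⁻¹ (inv_pos.mpr hT) 1 0
      simp only [qf, inv_inv] at this
      simp at this
      linarith) hγ
    linarith
  have hΔm : 0 < Δm.re := by
    have := pos_of (γ := γ) (x := Δm.re) (z := Δp.re) (fun T hT => by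
      have := h T hT 0 1
      simp [qf] at this
      linarith) hγ
    linarith
  have hΔp : 0 < Δp.re := by
    have := pos_of (γ := γ) (x := Δp.re) (z := Δm.re) (fun T hT => by
      have := h T⁻¹ (inv_pos.mpr hT) 0 1
      simp only [qf, inv_inv] at this
      simp at this
      linarith) hγ
    linarith
  have hrep : ∀ (z : ℂ), 0 < z.re → ∀ τ ∈ Icc (0:ℝ) 1, 0 < ((1 - τ : ℝ) + τ * z : ℂ).re := by
    intro z hz τ hτ
    rw [Complex.add_re, Complex.ofReal_re, Complex.re_ofReal_mul]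
    rcases hτ.1.eq_or_lt with h0 | h0
    · rw [← h0]; norm_num
    · have := mul_pos h0 hz
      linarith [hτ.2]
  -- positivity along the path
  have hpos : ∀ τ ∈ Icc (0:ℝ) 1, ∀ T : ℝ, 0 < T → ∀ φ ψ : ℂ, (φ ≠ 0 ∨ ψ ≠ 0) →
      0 < qf ((1 - τ : ℝ) + τ * Γp) ((1 - τ : ℝ) + τ * Γm) ((1 - τ : ℝ) + τ * Δp) ((1 - τ : ℝ) + τ * Δm) T φ ψ := by
    intro τ hτ T hT φ ψ hne
    rw [qf_lin]
    have h1 := h T hT φ ψ
    have hN : 0 < (‖φ‖ ^ 2 + ‖ψ‖ ^ 2) * (T + T⁻¹) := by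
      have : 0 < ‖φ‖ ^ 2 + ‖ψ‖ ^ 2 := by
        rcases hne with hne | hne
        · have := norm_pos_iff.mpr hne; positivity
        · have := norm_pos_iff.mpr hne; positivity
      positivity
    rcases hτ.1.eq_or_lt with h0 | h0
    · rw [← h0]; simpa using hN
    · have h2 : 0 < qf Γp Γm Δp Δm T φ ψ := lt_of_lt_of_le (by positivity) h1
      have h3 : 0 ≤ (1 - τ) * ((‖φ‖ ^ 2 + ‖ψ‖ ^ 2) * (T + T⁻¹)) := mul_nonneg (by linarith [hτ.2]) hN.le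
      have := mul_pos h0 h2
      linarith
  -- the angle function
  let Θ : ℝ → ℝ := fun τ => Complex.arg ((1 - τ : ℝ) + τ * Γp) - Complex.arg ((1 - τ : ℝ) + τ * Δp) -
    Complex.arg ((1 - τ : ℝ) + τ * Γm) + Complex.arg ((1 - τ : ℝ) + τ * Δm)
  have hcont1 : ∀ z : ℂ, 0 < z.re → ContinuousOn (fun τ : ℝ => Complex.arg ((1 - τ : ℝ) + τ * z)) (Icc 0 1) := by
    intro z hz τ hτ
    have h1 : ContinuousAt (fun τ : ℝ => ((1 - τ : ℝ) + τ * z : ℂ)) τ := by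
      apply Continuous.continuousAt; fun_prop
    have h2 : ContinuousAt Complex.arg ((1 - τ : ℝ) + τ * z : ℂ) := Complex.continuousAt_arg (Or.inl (hrep z hz τ hτ))
    exact (ContinuousAt.comp (f := fun τ : ℝ => ((1 - τ : ℝ) + τ * z : ℂ)) h2 h1).continuousWithinAt
  have hcont : ContinuousOn Θ (Icc 0 1) :=
    (((hcont1 _ hΓp).sub (hcont1 _ hΔp)).sub (hcont1 _ hΓm)).add (hcont1 _ hΔm)
  have hne : ∀ τ ∈ Icc (0:ℝ) 1, Θ τ ≠ π ∧ Θ τ ≠ -π := by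
    intro τ hτ
    have hnd := fun (T : ℝ) (hT : 0 < T) => nodet (hpos τ hτ) hT
    set A := ((1 - τ : ℝ) + τ * Γp : ℂ) with hA
    set B := ((1 - τ : ℝ) + τ * Γm : ℂ) with hB
    set C := ((1 - τ : ℝ) + τ * Δp : ℂ) with hC
    set D := ((1 - τ : ℝ) + τ * Δm : ℂ) with hD
    have hA0 : 0 < ‖A‖ := norm_pos_iff.mpr (fun h => by have := hrep _ hΓp τ hτ; rw [← hA, h] at this; simp at this)
    have hB0 : 0 < ‖B‖ := norm_pos_iff.mpr (fun h => by have := hrep _ hΓm τ hτ; rw [← hB, h] at this; simp at this)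
    have hC0 : 0 < ‖C‖ := norm_pos_iff.mpr (fun h => by have := hrep _ hΔp τ hτ; rw [← hC, h] at this; simp at this)
    have hD0 : 0 < ‖D‖ := norm_pos_iff.mpr (fun h => by have := hrep _ hΔm τ hτ; rw [← hD, h] at this; simp at this)
    have key : Complex.exp (((A.arg + D.arg : ℝ) : ℂ) * Complex.I) = - Complex.exp (((B.arg + C.arg : ℝ) : ℂ) * Complex.I) → False := by
      intro he
      set T : ℝ := Real.sqrt (‖B‖ * ‖C‖ / (‖A‖ * ‖D‖)) with hT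
      have hTpos : 0 < T := Real.sqrt_pos.mpr (by positivity)
      apply hnd T hTpos
      have hT2 : (T : ℂ) ^ 2 = ((‖B‖ * ‖C‖ / (‖A‖ * ‖D‖) : ℝ) : ℂ) := by
        rw [← Complex.ofReal_pow, hT, Real.sq_sqrt (by positivity)]
      have hAD : A * D = ((‖A‖ * ‖D‖ : ℝ) : ℂ) * Complex.exp (((A.arg + D.arg : ℝ) : ℂ) * Complex.I) := by
        conv_lhs => rw [polar A, polar D]
        push_cast
        rw [add_mul, Complex.exp_add]; ring
      have hBC : B * C = ((‖B‖ * ‖C‖ : ℝ) : ℂ) * Complex.exp (((B.arg + C.arg : ℝ) : ℂ) * Complex.I) := by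
        conv_lhs => rw [polar B, polar C]
        push_cast
        rw [add_mul, Complex.exp_add]; ring
      rw [hAD, hBC, hT2, he]
      have hnz : ((‖A‖ * ‖D‖ : ℝ) : ℂ) ≠ 0 := by exact_mod_cast (by positivity : ‖A‖ * ‖D‖ ≠ 0)
      rw [Complex.ofReal_div]
      field_simp
      ring
    constructor
    · intro hΘ
      apply key
      have e : A.arg + D.arg = (B.arg + C.arg) + π := by
        have : A.arg - C.arg - B.arg + D.arg = π := hΘ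
        linarith
      rw [e]
      push_cast
      rw [add_mul _ (π : ℂ), Complex.exp_add, Complex.exp_pi_mul_I]; ring
    · intro hΘ
      apply key
      have e : A.arg + D.arg = (B.arg + C.arg) + (-π) := by
        have : A.arg - C.arg - B.arg + D.arg = -π := hΘ
        linarith
      rw [e]
      push_cast
      rw [add_mul _ (-(π : ℂ)), Complex.exp_add, neg_mul, Complex.exp_neg, Complex.exp_pi_mul_I]
      norm_num
  have hΘ0 : Θ 0 = 0 := by simp [Θ]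
  have hΘ1 : |Θ 1| < π := by
    rw [abs_lt]
    constructor
    · by_contra hle
      rw [not_lt] at hle
      have hmem : (-π : ℝ) ∈ Icc (Θ 1) (Θ 0) := ⟨hle, by rw [hΘ0]; linarith [Real.pi_pos]⟩
      obtain ⟨τ, hτ, h⟩ := intermediate_value_Icc' (zero_le_one' ℝ) hcont hmem
      exact (hne τ hτ).2 h
    · by_contra hle
      rw [not_lt] at hle
      have hmem : (π : ℝ) ∈ Icc (Θ 0) (Θ 1) := ⟨by rw [hΘ0]; exact Real.pi_pos.le, hle⟩
      obtain ⟨τ, hτ, h⟩ := intermediate_value_Icc (zero_le_one' ℝ) hcont hmem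
      exact (hne τ hτ).1 h
  have hΘ1' : Θ 1 = (Γp.arg - Δp.arg) - (Γm.arg - Δm.arg) := by
    simp only [Θ]
    simp
    ring
  rw [hΘ1'] at hΘ1
  have a1 := Complex.abs_arg_lt_pi_div_two_iff.mpr (Or.inl hΓp)
  have a2 := Complex.abs_arg_lt_pi_div_two_iff.mpr (Or.inl hΓm)
  have a3 := Complex.abs_arg_lt_pi_div_two_iff.mpr (Or.inl hΔp)
  have a4 := Complex.abs_arg_lt_pi_div_two_iff.mpr (Or.inl hΔm)
  obtain ⟨β, b1, b2, b3⟩ := beta_exists (φ1 := Γp.arg - Δp.arg) (φ2 := Γm.arg - Δm.arg)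
    (by rw [abs_lt] at *; constructor <;> linarith [a1.1, a1.2, a3.1, a3.2])
    (by rw [abs_lt] at *; constructor <;> linarith [a2.1, a2.2, a4.1, a4.2]) hΘ1
  intro h0
  have hmul : ∀ (z w : ℂ), (z * w * Complex.exp (((-(β + Δp.arg + Δm.arg) : ℝ) : ℂ) * Complex.I)).re =
      ‖z‖ * ‖w‖ * Real.cos (z.arg + w.arg - (β + Δp.arg + Δm.arg)) := by
    intro z w
    have : z * w * Complex.exp (((-(β + Δp.arg + Δm.arg) : ℝ) : ℂ) * Complex.I) =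
        ((‖z‖ * ‖w‖ : ℝ) : ℂ) * Complex.exp (((z.arg + w.arg - (β + Δp.arg + Δm.arg) : ℝ) : ℂ) * Complex.I) := by
      conv_lhs => rw [polar z, polar w]
      push_cast
      rw [show ((z.arg : ℂ) + (w.arg : ℂ) - ((β : ℂ) + (Δp.arg : ℂ) + (Δm.arg : ℂ))) * Complex.I =
        (z.arg : ℂ) * Complex.I + ((w.arg : ℂ) * Complex.I + -((β : ℂ) + (Δp.arg : ℂ) + (Δm.arg : ℂ)) * Complex.I) by ring,
        Complex.exp_add, Complex.exp_add]
      ring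
    rw [this, Complex.re_ofReal_mul, Complex.exp_ofReal_mul_I_re]
  have hn : ∀ z : ℂ, 0 < z.re → 0 < ‖z‖ := fun z hz => norm_pos_iff.mpr (fun h => by rw [h] at hz; simp at hz)
  have c1 : 0 < (Γp * Δm * Complex.exp (((-(β + Δp.arg + Δm.arg) : ℝ) : ℂ) * Complex.I)).re := by
    rw [hmul]
    have := Real.cos_pos_of_mem_Ioo (x := Γp.arg + Δm.arg - (β + Δp.arg + Δm.arg)) (by
      rw [abs_lt] at b1; constructor <;> linarith [b1.1, b1.2])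
    exact mul_pos (mul_pos (hn _ hΓp) (hn _ hΔm)) this
  have c2 : 0 < (Γm * Δp * Complex.exp (((-(β + Δp.arg + Δm.arg) : ℝ) : ℂ) * Complex.I)).re := by
    rw [hmul]
    have := Real.cos_pos_of_mem_Ioo (x := Γm.arg + Δp.arg - (β + Δp.arg + Δm.arg)) (by
      rw [abs_lt] at b2; constructor <;> linarith [b2.1, b2.2])
    exact mul_pos (mul_pos (hn _ hΓm) (hn _ hΔp)) this
  have c3 : 0 < (Δp * Δm * Complex.exp (((-(β + Δp.arg + Δm.arg) : ℝ) : ℂ) * Complex.I)).re := by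
    rw [hmul]
    have := Real.cos_pos_of_mem_Ioo (x := Δp.arg + Δm.arg - (β + Δp.arg + Δm.arg)) (by
      rw [abs_lt] at b3; constructor <;> linarith [b3.1, b3.2])
    exact mul_pos (mul_pos (hn _ hΔp) (hn _ hΔm)) this
  set E := Complex.exp (((-(β + Δp.arg + Δm.arg) : ℝ) : ℂ) * Complex.I) with hE
  have hz := congrArg (fun z => (z * E).re) h0
  simp only [zero_mul, Complex.zero_re] at hz
  have e : ((Γp * Δm * (μ : ℂ) + Γm * Δp * (1 - (μ : ℂ))) * (ν : ℂ) + Δp * Δm * (1 - (ν : ℂ))) * E =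
      ((μ * ν : ℝ) : ℂ) * (Γp * Δm * E) + (((1 - μ) * ν : ℝ) : ℂ) * (Γm * Δp * E) + ((1 - ν : ℝ) : ℂ) * (Δp * Δm * E) := by
    push_cast; ring
  rw [e, Complex.add_re, Complex.add_re, Complex.re_ofReal_mul, Complex.re_ofReal_mul, Complex.re_ofReal_mul] at hz
  have d1 : 0 ≤ μ * ν := by positivity
  have d2 : 0 ≤ (1 - μ) * ν := mul_nonneg (by linarith) hν0
  have d3 : 0 ≤ 1 - ν := by linarith
  have t1 := mul_nonneg d1 c1.le
  have t2 := mul_nonneg d2 c2.le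
  have t3 := mul_nonneg d3 c3.le
  have z1 : μ * ν = 0 := by
    by_contra hh
    have := mul_pos (lt_of_le_of_ne d1 (Ne.symm hh)) c1
    linarith
  have z2 : (1 - μ) * ν = 0 := by
    by_contra hh
    have := mul_pos (lt_of_le_of_ne d2 (Ne.symm hh)) c2
    linarith
  have z3 : 1 - ν = 0 := by
    by_contra hh
    have := mul_pos (lt_of_le_of_ne d3 (Ne.symm hh)) c3
    linarith
  nlinarith

end Pool.Agent.Colloc
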