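import Pool.Agent.H0.Colloc.Nec
import Pool.Agent.H0.Colloc.Alg

set_option autoImplicit false
open MeasureTheory Filter Topology Set
open scoped ENNReal ComplexConjugate Real InnerProductSpace

namespace Pool.Agent.Colloc

lemma hform_sum {a : ℂ} (ha : a ≠ 0) (hI : a * conj (a⁻¹) = Complex.I) (Γp Γm Δp Δm φ ψ : ℂ) :
    hform Γp Δp φ ψ a + hform Γm Δm φ ψ a⁻¹ = qf Γp Γm Δp Δm (Complex.normSq a) φ ψ := by
  have hac : conj a ≠ 0 := by simpa using ha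
  have hI' : a⁻¹ * conj a = -Complex.I := by
    have := congrArg conj hI
    rw [map_mul, Complex.conj_conj, Complex.conj_I] at this
    rw [mul_comm]; exact this
  have hT : a * conj a = ((Complex.normSq a : ℝ) : ℂ) := Complex.mul_conj a
  have hT' : a⁻¹ * conj a⁻¹ = (((Complex.normSq a)⁻¹ : ℝ) : ℂ) := by
    rw [Complex.mul_conj, Complex.normSq_inv]
  have hφ : ((Complex.normSq φ : ℝ) : ℂ) = φ * conj φ := (Complex.mul_conj φ).symm
  have hψ : ((Complex.normSq ψ : ℝ) : ℂ) = ψ * conj ψ := (Complex.mul_conj ψ).symm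
  unfold hform qf
  rw [inv_inv]
  have e1 : (Γp * (φ * a) + Δp * (ψ * a⁻¹)) * conj (φ * a + ψ * a⁻¹) =
      ((Complex.normSq φ : ℝ) : ℂ) * (((Complex.normSq a : ℝ) : ℂ) * Γp) + Complex.I * Γp * φ * conj ψ
      - Complex.I * Δp * ψ * conj φ + ((Complex.normSq ψ : ℝ) : ℂ) * ((((Complex.normSq a)⁻¹ : ℝ) : ℂ) * Δp) := by
    rw [hφ, hψ, ← hT, ← hT', map_add, map_mul, map_mul]
    linear_combination (Γp * φ * conj ψ) * hI + (Δp * ψ * conj φ) * hI'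
  have e2 : (Γm * (φ * a⁻¹) + Δm * (ψ * a)) * conj (φ * a⁻¹ + ψ * a) =
      ((Complex.normSq φ : ℝ) : ℂ) * ((((Complex.normSq a)⁻¹ : ℝ) : ℂ) * Γm) - Complex.I * Γm * φ * conj ψ
      + Complex.I * Δm * ψ * conj φ + ((Complex.normSq ψ : ℝ) : ℂ) * (((Complex.normSq a : ℝ) : ℂ) * Δm) := by
    rw [hφ, hψ, ← hT, ← hT', map_add, map_mul, map_mul]
    linear_combination (Γm * φ * conj ψ) * hI' + (Δm * ψ * conj φ) * hI
  rw [e1, e2]
  have e3 : Complex.I * (Γp - Γm) * φ * conj ψ = Complex.I * Γp * φ * conj ψ - Complex.I * Γm * φ * conj ψ := by ring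
  have e4 : Complex.I * (Δp - Δm) * ψ * conj φ = Complex.I * Δp * ψ * conj φ - Complex.I * Δm * ψ * conj φ := by ring
  rw [e3, e4]
  simp only [Complex.sub_re, Complex.add_re, Complex.re_ofReal_mul, Complex.normSq_eq_norm_sq]
  ring

lemma af_exp (ξ : ℝ) : af ξ = Complex.exp (((π * ξ / 2 : ℝ) : ℂ) + ((π / 4 : ℝ) : ℂ) * Complex.I) := by
  unfold af sinf
  congr 1
  push_cast
  linear_combination (-(π : ℂ) * ξ / 2) * Complex.I_mul_I

lemma af_I (ξ : ℝ) : af ξ * conj ((af ξ)⁻¹) = Complex.I := by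
  rw [af_exp, ← Complex.exp_neg, ← Complex.exp_conj, ← Complex.exp_add]
  have : ((π * ξ / 2 : ℝ) : ℂ) + ((π / 4 : ℝ) : ℂ) * Complex.I + conj (-(((π * ξ / 2 : ℝ) : ℂ) + ((π / 4 : ℝ) : ℂ) * Complex.I)) =
      (π : ℂ) / 2 * Complex.I := by
    simp only [map_neg, map_add, map_mul, Complex.conj_ofReal, Complex.conj_I]
    push_cast; ring
  rw [this, Complex.exp_pi_div_two_mul_I]

lemma af_normSq (ξ : ℝ) : Complex.normSq (af ξ) = Real.exp (π * ξ) := by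
  rw [Complex.normSq_eq_norm_sq, af_exp, Complex.norm_exp, ← Real.exp_nat_mul]
  congr 1
  simp
  ring

lemma exists_xi {T : ℝ} (hT : 0 < T) : ∃ ξ : ℝ, Complex.normSq (af ξ) = T := by
  refine ⟨Real.log T / π, ?_⟩
  rw [af_normSq]
  have : π * (Real.log T / π) = Real.log T := by field_simp
  rw [this, Real.exp_log hT]

lemma qf_one (T : ℝ) (φ ψ : ℂ) : qf 1 1 1 1 T φ ψ = (‖φ‖ ^ 2 + ‖ψ‖ ^ 2) * (T + T⁻¹) := by
  unfold qf
  simp
  ring

lemma re_adj (Y : H →L[ℂ] H) (u : H) : (⟪((1/2 : ℂ) • (Y + ContinuousLinearMap.adjoint Y)) u, u⟫_ℂ).re = (⟪Y u, u⟫_ℂ).re := by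
  rw [_root_.smul_apply, _root_.add_apply, inner_smul_left, inner_add_left, ContinuousLinearMap.adjoint_inner_left]
  have h1 : (⟪u, Y u⟫_ℂ).re = (⟪Y u, u⟫_ℂ).re := by rw [← inner_conj_symm, Complex.conj_re]
  have h2 : (starRingEnd ℂ) (1/2) = ((1/2 : ℝ) : ℂ) := by simp [Complex.conj_ofNat]
  rw [h2, Complex.re_ofReal_mul, Complex.add_re, h1]
  ring

lemma SE_ineq {X : H →L[ℂ] H} (h : SE X) : ∃ γ > 0, ∃ K : H →L[ℂ] H, IsCompactOperator K ∧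
    ∀ u, γ * ‖u‖ ^ 2 ≤ (⟪X u, u⟫_ℂ).re - (⟪K u, u⟫_ℂ).re := by
  obtain ⟨D, K, _, hK, ⟨c, hc, hD⟩, hDK⟩ := h
  refine ⟨c, hc, K, hK, fun u => ?_⟩
  have h1 := re_adj X u
  rw [hDK, _root_.add_apply, inner_add_left, Complex.add_re] at h1
  have := hD u
  linarith

section
variable {S : H →L[ℂ] H} (hS : ∀ n : ℤ, S (fourierLp (T := (1:ℝ)) 2 n) =
        (if 0 ≤ n then (1:ℂ) else -1) • fourierLp (T := (1:ℝ)) 2 n)
include hS

lemma cond_of {Γ Δ : C1 → ℂ} (hΓ : PC Γ) (hΔ : PC Δ) {Y K : H →L[ℂ] H} (hK : IsCompactOperator K) {γ : ℝ} (hγ : 0 < γ)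
    (hY : ∀ u : H, (Y u : C1 → ℂ) =ᵐ[mu] fun t => Γ t * (PP S u) t + Δ t * (QQ S u) t)
    (hineq : ∀ u : H, γ * ‖u‖ ^ 2 ≤ (⟪Y u, u⟫_ℂ).re - (⟪K u, u⟫_ℂ).re)
    (x0 : ℝ) {Γp Γm Δp Δm : ℂ}
    (h1 : Tendsto (fun s : ℝ => Γ (s : C1)) (𝓝[>] x0) (𝓝 Γp))
    (h2 : Tendsto (fun s : ℝ => Γ (s : C1)) (𝓝[<] x0) (𝓝 Γm))
    (h3 : Tendsto (fun s : ℝ => Δ (s : C1)) (𝓝[>] x0) (𝓝 Δp))
    (h4 : Tendsto (fun s : ℝ => Δ (s : C1)) (𝓝[<] x0) (𝓝 Δm))
    {μ ν : ℝ} (hμ0 : 0 ≤ μ) (hμ1 : μ ≤ 1) (hν0 : 0 ≤ ν) (hν1 : ν ≤ 1) :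
    (Γp * Δm * (μ : ℂ) + Γm * Δp * (1 - (μ : ℂ))) * (ν : ℂ) + Δp * Δm * (1 - (ν : ℂ)) ≠ 0 := by
  apply alg hγ ?_ hμ0 hμ1 hν0 hν1
  intro T hT φ ψ
  obtain ⟨ξ, hξ⟩ := exists_xi hT
  have h := star hS hΓ hΔ hK hY hineq x0 ξ φ ψ h1 h2 h3 h4
  rw [hform_sum (af_ne ξ) (af_I ξ), hform_sum (af_ne ξ) (af_I ξ), hξ, qf_one] at h
  exact h

theorem backward1 {a b : C1 → ℂ} (ha : PC a) (hb : PC b) {Ma Mb : H →L[ℂ] H} (hMa : IsMul a Ma) (hMb : IsMul b Mb)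
    {Θ : C1 → ℂ} (hΘ : PC Θ) (hSE : ∀ MΘ : H →L[ℂ] H, IsMul Θ MΘ → SE (MΘ.comp (Ma + Mb.comp S))) :
    Cond3 (fun t => a t + b t) (fun t => a t - b t) := by
  obtain ⟨MΘ, hMΘ⟩ := hΘ.exists_mul
  obtain ⟨γ, hγ, K, hK, hineq⟩ := SE_ineq (hSE MΘ hMΘ)
  have hc : PC (fun t => a t + b t) := ha.add hb
  have hd : PC (fun t => a t - b t) := ha.sub hb
  have hPQ : ∀ u : H, u = PP S u + QQ S u := by
    intro u
    have := congrArg (fun B : H →L[ℂ] H => B u) (PP_add_QQ S)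
    simpa using this.symm
  have hPQS : ∀ u : H, S u = PP S u - QQ S u := by
    intro u
    have := congrArg (fun B : H →L[ℂ] H => B u) (PP_sub_QQ S)
    simpa using this.symm
  have hY : ∀ u : H, ((MΘ.comp (Ma + Mb.comp S)) u : C1 → ℂ) =ᵐ[mu] fun t => (Θ t * (a t + b t)) * (PP S u) t + (Θ t * (a t - b t)) * (QQ S u) t := by
    intro u
    have e1 := hMΘ ((Ma + Mb.comp S) u)
    have e2 := Lp.coeFn_add (Ma u) (Mb (S u))
    have e3 := hMa u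
    have e4 := hMb (S u)
    have e5 := Lp.coeFn_add (PP S u) (QQ S u)
    rw [← hPQ u] at e5
    have e6 := Lp.coeFn_sub (PP S u) (QQ S u)
    rw [← hPQS u] at e6
    filter_upwards [e1, e2, e3, e4, e5, e6] with t e1 e2 e3 e4 e5 e6
    change (MΘ ((Ma + Mb.comp S) u) : C1 → ℂ) t = _
    rw [e1]
    change Θ t * ((Ma u + Mb (S u) : H) : C1 → ℂ) t = _
    rw [e2, Pi.add_apply, e3, e4, e5, e6, Pi.add_apply, Pi.sub_apply]
    ring
  intro x cp cm dp dm h1 h2 h3 h4 μ ν hμ0 hμ1 hν0 hν1 h0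
  obtain ⟨⟨Θm, hΘm⟩, Θp, hΘp⟩ := hΘ x
  have := cond_of hS (hΘ.mul hc) (hΘ.mul hd) hK hγ hY hineq x (hΘp.mul h1) (hΘm.mul h2) (hΘp.mul h3) (hΘm.mul h4) hμ0 hμ1 hν0 hν1
  apply this
  linear_combination (Θp * Θm) * h0

theorem backward2 {a b : C1 → ℂ} (ha : PC a) (hb : PC b) {Ma Mb : H →L[ℂ] H} (hMa : IsMul a Ma) (hMb : IsMul b Mb)
    {Θ : C1 → ℂ} (hΘ : PC Θ) (hSE : ∀ MΘ : H →L[ℂ] H, IsMul Θ MΘ → SE (MΘ.comp (Ma + S.comp Mb))) :
    Cond3 (fun t => a t + b t) (fun t => a t - b t) := by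
  obtain ⟨MΘ, hMΘ⟩ := hΘ.exists_mul
  obtain ⟨γ, hγ, K, hK, hineq⟩ := SE_ineq (hSE MΘ hMΘ)
  have hc : PC (fun t => a t + b t) := ha.add hb
  have hd : PC (fun t => a t - b t) := ha.sub hb
  have hΘadj := hΘ.adjoint_mul hMΘ
  -- the limits of `Θ` are nonzero
  set Bo : H →L[ℂ] H := Ma + S.comp Mb with hBo
  have hΘ2 : PC (fun t => Θ t * conj (Θ t)) := hΘ.mul hΘ.conj
  have hZ : ∀ u : H, ((MΘ.comp (ContinuousLinearMap.adjoint MΘ)) u : C1 → ℂ) =ᵐ[mu] fun t =>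
      (Θ t * conj (Θ t)) * (PP S u) t + (Θ t * conj (Θ t)) * (QQ S u) t := by
    intro u
    have e1 := (hMΘ.comp hΘadj) u
    have e5 := one_form (S := S) u
    filter_upwards [e1, e5] with t e1 e5
    rw [one_apply_eq_self] at e5
    rw [e1, e5]
    simp only [Complex.conjCLE_apply]
    ring
  have hnz : ∀ x0 : ℝ, ∀ Θp Θm : ℂ, Tendsto (fun s : ℝ => Θ (s : C1)) (𝓝[>] x0) (𝓝 Θp) →
      Tendsto (fun s : ℝ => Θ (s : C1)) (𝓝[<] x0) (𝓝 Θm) → ∀ T : ℝ, 0 < T →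
      γ / 2 * (T + T⁻¹) ≤ T * (‖Bo‖ ^ 2 / (2 * γ) * ‖Θp‖ ^ 2) + T⁻¹ * (‖Bo‖ ^ 2 / (2 * γ) * ‖Θm‖ ^ 2) := by
    intro x0 Θp Θm hp hm T hT
    obtain ⟨ξ, hξ⟩ := exists_xi hT
    have hp2 : Tendsto (fun s : ℝ => Θ (s : C1) * conj (Θ (s : C1))) (𝓝[>] x0) (𝓝 (Θp * conj Θp)) :=
      hp.mul ((Complex.continuous_conj.tendsto _).comp hp)
    have hm2 : Tendsto (fun s : ℝ => Θ (s : C1) * conj (Θ (s : C1))) (𝓝[<] x0) (𝓝 (Θm * conj Θm)) :=
      hm.mul ((Complex.continuous_conj.tendsto _).comp hm)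
    have l1 := (lim_norm hS x0 ξ 1 0).const_mul (γ / 2)
    have l2 := ((lim_form hS hΘ2 hΘ2 hZ x0 ξ 1 0 hp2 hm2 hp2 hm2).const_mul (‖Bo‖ ^ 2 / (2 * γ))).sub (lim_compact hS hK x0 ξ 1 0)
    have := le_of_tendsto_of_tendsto' l1 l2 (fun n => by
      have h := hineq (vv x0 ξ 1 0 n)
      have hW := Wt_pos n
      set v := vv x0 ξ 1 0 n
      have e1 : (⟪(MΘ.comp Bo) v, v⟫_ℂ).re ≤ γ / 2 * ‖v‖ ^ 2 + ‖Bo‖ ^ 2 / (2 * γ) * (⟪(MΘ.comp (ContinuousLinearMap.adjoint MΘ)) v, v⟫_ℂ).re := by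
        have a1 : ⟪(MΘ.comp Bo) v, v⟫_ℂ = ⟪Bo v, ContinuousLinearMap.adjoint MΘ v⟫_ℂ := by
          rw [ContinuousLinearMap.comp_apply, ContinuousLinearMap.adjoint_inner_right]
        have a2 : (⟪(MΘ.comp (ContinuousLinearMap.adjoint MΘ)) v, v⟫_ℂ).re = ‖ContinuousLinearMap.adjoint MΘ v‖ ^ 2 := by
          rw [ContinuousLinearMap.comp_apply, ← ContinuousLinearMap.adjoint_inner_right, inner_self_eq_norm_sq_to_K]
          norm_cast
        rw [a1, a2]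
        have a3 : (⟪Bo v, ContinuousLinearMap.adjoint MΘ v⟫_ℂ).re ≤ ‖Bo‖ * ‖v‖ * ‖ContinuousLinearMap.adjoint MΘ v‖ :=
          (Complex.re_le_norm _).trans ((norm_inner_le_norm _ _).trans (by gcongr; exact Bo.le_opNorm v))
        refine a3.trans ?_
        set p := ‖v‖
        set q := ‖ContinuousLinearMap.adjoint MΘ v‖
        have a4 : ‖Bo‖ ^ 2 / (2 * γ) * q ^ 2 = (‖Bo‖ * q) ^ 2 / (2 * γ) := by ring
        rw [a4]
        have a5 : 0 ≤ (γ * p - ‖Bo‖ * q) ^ 2 / (2 * γ) := by positivity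
        have a6 : (γ * p - ‖Bo‖ * q) ^ 2 / (2 * γ) = γ / 2 * p ^ 2 + (‖Bo‖ * q) ^ 2 / (2 * γ) - ‖Bo‖ * p * q := by
          field_simp; ring
        linarith
      rw [mul_div_assoc', mul_div_assoc', ← sub_div, div_le_div_iff_of_pos_right hW]
      linarith)
    rw [hform_sum (af_ne ξ) (af_I ξ), hform_sum (af_ne ξ) (af_I ξ), hξ, qf_one] at this
    have e3 : qf (Θp * conj Θp) (Θm * conj Θm) (Θp * conj Θp) (Θm * conj Θm) T 1 0 = T * ‖Θp‖ ^ 2 + T⁻¹ * ‖Θm‖ ^ 2 := by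
      unfold qf
      rw [re_mul_conj_self, re_mul_conj_self]
      simp
    rw [e3] at this
    simp only [norm_one, norm_zero] at this
    linarith
  have hlow : ∃ m > 0, ∃ F : Set C1, F.Finite ∧ ∀ t ∉ F, m ≤ ‖Θ t‖ := by
    apply uniform_off_finite (Φ := fun ε t => ε ≤ ‖Θ t‖) (fun ε ε' t h1 h2 => h1.trans h2)
    intro x
    obtain ⟨x, rfl⟩ := QuotientAddGroup.mk_surjective x
    obtain ⟨⟨Θm, hΘm⟩, Θp, hΘp⟩ := hΘ x
    have hp := pos_of (hnz x Θp Θm hΘp hΘm) (by positivity)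
    have hm := pos_of (γ := γ / 2) (x := ‖Bo‖ ^ 2 / (2 * γ) * ‖Θm‖ ^ 2) (z := ‖Bo‖ ^ 2 / (2 * γ) * ‖Θp‖ ^ 2) (fun T hT => by
      have := hnz x Θp Θm hΘp hΘm T⁻¹ (inv_pos.mpr hT)
      rw [inv_inv] at this
      linarith) (by positivity)
    have hp0 : 0 < ‖Θp‖ := by
      apply norm_pos_iff.mpr
      rintro h
      rw [h] at hp
      simp at hp
      linarith
    have hm0 : 0 < ‖Θm‖ := by
      apply norm_pos_iff.mpr
      rintro h
      rw [h] at hm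
      simp at hm
      linarith
    refine ⟨min (‖Θp‖ / 2) (‖Θm‖ / 2), by positivity, ?_⟩
    apply ev_punct_of_sides
    · filter_upwards [hΘm.norm.eventually_const_lt (show ‖Θm‖ / 2 < ‖Θm‖ by linarith)] with s hs
      exact (min_le_right _ _).trans hs.le
    · filter_upwards [hΘp.norm.eventually_const_lt (show ‖Θp‖ / 2 < ‖Θp‖ by linarith)] with s hs
      exact (min_le_left _ _).trans hs.le
  obtain ⟨m, hm, F, hF, hmF⟩ := hlow
  have haeF := ae_of_off_finite hF (p := fun t => t ∉ F) (fun t ht => ht)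
  have hne : ∀ t ∉ F, Θ t ≠ 0 := by
    intro t ht h
    have := hmF t ht
    rw [h, norm_zero] at this
    linarith
  have hinv : PC (fun t => (Θ t)⁻¹) := hΘ.inv_of hF hm hmF
  obtain ⟨N, hN⟩ := hinv.exists_mul
  have hNadj := hinv.adjoint_mul hN
  have hMc : IsMul (fun t => a t + b t) (Ma + Mb) := hMa.add hMb
  have hMd : IsMul (fun t => a t - b t) (Ma - Mb) := hMa.sub hMb
  have hMca := hc.adjoint_mul hMc
  have hMda := hd.adjoint_mul hMd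
  have hNM : N.comp MΘ = 1 := by
    apply ((hN.comp hMΘ).congr ?_).unique isMul_one
    filter_upwards [haeF] with t ht
    exact inv_mul_cancel₀ (hne t ht)
  have hBo' : Bo = (PP S).comp (Ma + Mb) + (QQ S).comp (Ma - Mb) := by
    have h1 : (PP S).comp (Ma + Mb) + (QQ S).comp (Ma - Mb) = (PP S + QQ S).comp Ma + (PP S - QQ S).comp Mb := by
      ext1 x
      simp only [_root_.add_apply, ContinuousLinearMap.comp_apply, map_add, map_sub, _root_.sub_apply]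
      abel
    rw [h1, PP_add_QQ, PP_sub_QQ]
    rfl
  let Y : H →L[ℂ] H := N.comp ((ContinuousLinearMap.adjoint (Ma + Mb)).comp (PP S) +
    (ContinuousLinearMap.adjoint (Ma - Mb)).comp (QQ S))
  have hYadj : ContinuousLinearMap.adjoint Y = Bo.comp (ContinuousLinearMap.adjoint N) := by
    change ContinuousLinearMap.adjoint (N.comp ((ContinuousLinearMap.adjoint (Ma + Mb)).comp (PP S) +
    (ContinuousLinearMap.adjoint (Ma - Mb)).comp (QQ S))) = _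
    rw [hBo', ContinuousLinearMap.adjoint_comp, map_add, ContinuousLinearMap.adjoint_comp, ContinuousLinearMap.adjoint_comp,
      ContinuousLinearMap.adjoint_adjoint, ContinuousLinearMap.adjoint_adjoint, PP_adj hS, QQ_adj hS]
  have hY : ∀ u : H, (Y u : C1 → ℂ) =ᵐ[mu] fun t => ((Θ t)⁻¹ * conj (a t + b t)) * (PP S u) t + ((Θ t)⁻¹ * conj (a t - b t)) * (QQ S u) t := by
    intro u
    have e1 := hN (((ContinuousLinearMap.adjoint (Ma + Mb)).comp (PP S) +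
      (ContinuousLinearMap.adjoint (Ma - Mb)).comp (QQ S)) u)
    have e2 := Lp.coeFn_add ((ContinuousLinearMap.adjoint (Ma + Mb)) (PP S u)) ((ContinuousLinearMap.adjoint (Ma - Mb)) (QQ S u))
    have e3 := hMca (PP S u)
    have e4 := hMda (QQ S u)
    filter_upwards [e1, e2, e3, e4] with t e1 e2 e3 e4
    change (N (((ContinuousLinearMap.adjoint (Ma + Mb)).comp (PP S) +
      (ContinuousLinearMap.adjoint (Ma - Mb)).comp (QQ S)) u) : C1 → ℂ) t = _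
    rw [e1]
    change (Θ t)⁻¹ * (((ContinuousLinearMap.adjoint (Ma + Mb)) (PP S u) + (ContinuousLinearMap.adjoint (Ma - Mb)) (QQ S u) : H) : C1 → ℂ) t = _
    rw [e2, Pi.add_apply, e3, e4]
    simp only [Complex.conjCLE_apply]
    ring
  obtain ⟨CΘ, hCΘ0, hCΘ⟩ := hΘ.bdd
  have hNlow : ∀ x, (CΘ + 1)⁻¹ * ‖x‖ ≤ ‖ContinuousLinearMap.adjoint N x‖ := by
    intro x
    apply hNadj.lower (by positivity)
    filter_upwards [haeF] with t ht
    simp only [Complex.conjCLE_apply, RCLike.norm_conj, norm_inv]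
    apply inv_anti₀ (norm_pos_iff.mpr (hne t ht))
    linarith [hCΘ t]
  have hineq' : ∀ u : H, (γ * ((CΘ + 1)⁻¹) ^ 2) * ‖u‖ ^ 2 ≤ (⟪Y u, u⟫_ℂ).re -
      (⟪(N.comp (K.comp (ContinuousLinearMap.adjoint N))) u, u⟫_ℂ).re := by
    intro u
    have h1 := hineq (ContinuousLinearMap.adjoint N u)
    have e1 : (⟪(MΘ.comp Bo) (ContinuousLinearMap.adjoint N u), ContinuousLinearMap.adjoint N u⟫_ℂ).re = (⟪Y u, u⟫_ℂ).re := by
      rw [ContinuousLinearMap.adjoint_inner_right]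
      have e2 : N ((MΘ.comp Bo) (ContinuousLinearMap.adjoint N u)) = ContinuousLinearMap.adjoint Y u := by
        have := congrArg (fun B : H →L[ℂ] H => B (Bo (ContinuousLinearMap.adjoint N u))) hNM
        simp only [ContinuousLinearMap.comp_apply, one_apply_eq_self] at this
        rw [hYadj, ContinuousLinearMap.comp_apply, ContinuousLinearMap.comp_apply, this]
      rw [e2, ContinuousLinearMap.adjoint_inner_left, ← inner_conj_symm, Complex.conj_re]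
    have e3 : (⟪K (ContinuousLinearMap.adjoint N u), ContinuousLinearMap.adjoint N u⟫_ℂ).re =
        (⟪(N.comp (K.comp (ContinuousLinearMap.adjoint N))) u, u⟫_ℂ).re := by
      rw [ContinuousLinearMap.adjoint_inner_right]
      rfl
    rw [e1, e3] at h1
    refine le_trans ?_ h1
    have := hNlow u
    calc γ * ((CΘ + 1)⁻¹) ^ 2 * ‖u‖ ^ 2 = γ * ((CΘ + 1)⁻¹ * ‖u‖) ^ 2 := by ring
      _ ≤ _ := by gcongr
  have hK' : IsCompactOperator (N.comp (K.comp (ContinuousLinearMap.adjoint N)) : H →L[ℂ] H) :=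
    (hK.comp_clm (ContinuousLinearMap.adjoint N)).clm_comp N
  intro x cp cm dp dm h1 h2 h3 h4 μ ν hμ0 hμ1 hν0 hν1 h0
  obtain ⟨⟨Im, hIm⟩, Ip, hIp⟩ := hinv x
  have hcj : ∀ {f : ℝ → ℂ} {l : Filter ℝ} {z : ℂ}, Tendsto f l (𝓝 z) → Tendsto (fun s => conj (f s)) l (𝓝 (conj z)) :=
    fun h => (Complex.continuous_conj.tendsto _).comp h
  have := cond_of hS (hinv.mul hc.conj) (hinv.mul hd.conj) hK' (by positivity) hY hineq' x (hIp.mul (hcj h1)) (hIm.mul (hcj h2))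
    (hIp.mul (hcj h3)) (hIm.mul (hcj h4)) hμ0 hμ1 hν0 hν1
  apply this
  have h0' := congrArg conj h0
  simp only [map_add, map_mul, map_sub, map_one, Complex.conj_ofReal, map_zero] at h0'
  linear_combination (Ip * Im) * h0'

end

end Pool.Agent.Colloc
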