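import Mathlib

set_option autoImplicit false
open MeasureTheory Filter Topology Set
open scoped ENNReal ComplexConjugate Real

namespace Pool.Agent.Colloc

/-- `|1 - e^{2πiy}|` -/
noncomputable def sg2 (y : ℝ) : ℝ := 2 * Real.sin (π * y)

lemma sg2_pos {y : ℝ} (hy : y ∈ Ioo (0:ℝ) 1) : 0 < sg2 y := by
  unfold sg2
  have : 0 < Real.sin (π * y) := Real.sin_pos_of_pos_of_lt_pi (mul_pos Real.pi_pos hy.1)
    (by have := mul_lt_mul_of_pos_left hy.2 Real.pi_pos; linarith)
  linarith

lemma sg2_symm (y : ℝ) : sg2 (1 - y) = sg2 y := by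
  unfold sg2
  rw [show π * (1 - y) = π - π * y by ring, Real.sin_pi_sub]

lemma sg2_ge {y : ℝ} (h0 : 0 ≤ y) (h1 : y ≤ 1 / 2) : 4 * y ≤ sg2 y := by
  unfold sg2
  have := Real.mul_le_sin (x := π * y) (by positivity) (by nlinarith [Real.pi_pos])
  have e : 2 / π * (π * y) = 2 * y := by field_simp
  linarith

lemma sg2_le {y : ℝ} (h0 : 0 ≤ y) : sg2 y ≤ 2 * π * y := by
  unfold sg2
  have := Real.sin_le (x := π * y) (by positivity)
  linarith

lemma sg2_cont : Continuous sg2 := by
  unfold sg2; fun_prop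

lemma sg2_rpow_le {r : ℝ} (hr : r ≤ 0) {y : ℝ} (hy : y ∈ Ioo (0:ℝ) 1) :
    sg2 y ^ r ≤ (4 * y) ^ r + (4 * (1 - y)) ^ r := by
  have hy1 : 0 < 1 - y := by linarith [hy.2]
  have a1 : 0 ≤ (4 * y) ^ r := Real.rpow_nonneg (by linarith [hy.1]) _
  have a2 : 0 ≤ (4 * (1 - y)) ^ r := Real.rpow_nonneg (by linarith) _
  rcases le_total y (1/2) with h | h
  · have := Real.rpow_le_rpow_of_nonpos (by linarith [hy.1] : 0 < 4 * y) (sg2_ge hy.1.le h) hr
    linarith
  · have h2 := sg2_ge (y := 1 - y) hy1.le (by linarith)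
    rw [sg2_symm] at h2
    have := Real.rpow_le_rpow_of_nonpos (by linarith : 0 < 4 * (1 - y)) h2 hr
    linarith

lemma int_y_rpow {r : ℝ} (hr : -1 < r) : IntegrableOn (fun y : ℝ => (4 * y) ^ r) (Ioo 0 1) := by
  have h1 : IntervalIntegrable (fun y : ℝ => y ^ r) volume 0 1 := intervalIntegral.intervalIntegrable_rpow' hr
  rw [intervalIntegrable_iff_integrableOn_Ioo_of_le zero_le_one] at h1
  refine (h1.const_mul ((4:ℝ) ^ r)).congr ?_
  filter_upwards [self_mem_ae_restrict measurableSet_Ioo] with y hy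
  rw [Real.mul_rpow (by norm_num) hy.1.le]

lemma int_y_rpow' {r : ℝ} (hr : -1 < r) : IntegrableOn (fun y : ℝ => (4 * (1 - y)) ^ r) (Ioo 0 1) := by
  have h1 := int_y_rpow hr
  rw [← intervalIntegrable_iff_integrableOn_Ioo_of_le zero_le_one] at h1 ⊢
  have h2 := h1.comp_sub_left 1
  simp only [sub_zero, sub_self] at h2
  exact h2.symm

lemma sg2_rpow_int {r : ℝ} (hr : -1 < r) (hr0 : r ≤ 0) : IntegrableOn (fun y => sg2 y ^ r) (Ioo 0 1) := by
  refine ((int_y_rpow hr).add (int_y_rpow' hr)).mono' ?_ ?_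
  · exact (sg2_cont.measurable.pow_const r).aestronglyMeasurable
  · filter_upwards [self_mem_ae_restrict measurableSet_Ioo] with y hy
    rw [Real.norm_eq_abs, abs_of_nonneg (Real.rpow_nonneg (sg2_pos hy).le _)]
    exact sg2_rpow_le hr0 hy

noncomputable def ep (n : ℕ) : ℝ := 1 / (2 * ((n : ℝ) + 1))

lemma ep_pos (n : ℕ) : 0 < ep n := by unfold ep; positivity
lemma ep_le (n : ℕ) : ep n ≤ 1 / 2 := by
  unfold ep
  rw [div_le_div_iff₀ (by positivity) (by norm_num)]
  have : (0:ℝ) ≤ n := Nat.cast_nonneg n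
  linarith
lemma ep_tendsto : Tendsto ep atTop (𝓝 0) := by
  have h := (tendsto_one_div_add_atTop_nhds_zero_nat (𝕜 := ℝ)).const_mul (1/2)
  rw [mul_zero] at h
  refine h.congr fun n => ?_
  unfold ep
  field_simp

noncomputable def wt (n : ℕ) (y : ℝ) : ℝ := sg2 y ^ (-1 + 2 * ep n)
noncomputable def Wt (n : ℕ) : ℝ := ∫ y in Ioo (0:ℝ) 1, wt n y

lemma ex_gt (n : ℕ) : -1 < -1 + 2 * ep n := by linarith [ep_pos n]
lemma ex_le (n : ℕ) : -1 + 2 * ep n ≤ 0 := by linarith [ep_le n]

lemma wt_nonneg (n : ℕ) {y : ℝ} (hy : y ∈ Ioo (0:ℝ) 1) : 0 ≤ wt n y := Real.rpow_nonneg (sg2_pos hy).le _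
lemma wt_int (n : ℕ) : IntegrableOn (wt n) (Ioo 0 1) := sg2_rpow_int (ex_gt n) (ex_le n)
lemma wt_meas (n : ℕ) : Measurable (wt n) := sg2_cont.measurable.pow_const _

lemma wt_mid (n : ℕ) {η : ℝ} (hη : 0 < η) (hη4 : η ≤ 1 / 4) {y : ℝ} (h1 : η ≤ y) (h2 : y ≤ 1 - η) :
    wt n y ≤ 1 / (4 * η) := by
  have hy : y ∈ Ioo (0:ℝ) 1 := ⟨by linarith, by linarith⟩
  have hσ : 4 * η ≤ sg2 y := by
    rcases le_total y (1/2) with h | h
    · have := sg2_ge hy.1.le h; linarith
    · have h2 := sg2_ge (y := 1 - y) (by linarith) (by linarith)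
      rw [sg2_symm] at h2; linarith
  have hb : (1:ℝ) ≤ 1 / (4 * η) := by
    rw [le_div_iff₀ (by positivity)]; linarith
  unfold wt
  rcases le_total 1 (sg2 y) with h | h
  · exact (Real.rpow_le_one_of_one_le_of_nonpos h (ex_le n)).trans hb
  · calc sg2 y ^ (-1 + 2 * ep n) ≤ sg2 y ^ (-1 : ℝ) :=
          Real.rpow_le_rpow_of_exponent_ge (sg2_pos hy) h (by linarith [ep_pos n])
      _ = 1 / sg2 y := by rw [Real.rpow_neg_one, one_div]
      _ ≤ 1 / (4 * η) := by
        apply one_div_le_one_div_of_le (by positivity) hσ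

lemma Wt_ge (n : ℕ) : ((n : ℝ) + 1) / (4 * π) ≤ Wt n := by
  have h1 : ∫ y in Ioo (0:ℝ) (1/2), (2 * π * y) ^ (-1 + 2 * ep n) ≤ Wt n := by
    have h2 : ∫ y in Ioo (0:ℝ) (1/2), (2 * π * y) ^ (-1 + 2 * ep n) ≤ ∫ y in Ioo (0:ℝ) (1/2), wt n y := by
      apply setIntegral_mono_on
      · have h1 : IntervalIntegrable (fun y : ℝ => y ^ (-1 + 2 * ep n)) volume 0 (1/2) :=
          intervalIntegral.intervalIntegrable_rpow' (ex_gt n)
        rw [intervalIntegrable_iff_integrableOn_Ioo_of_le (by norm_num)] at h1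
        refine (h1.const_mul ((2 * π) ^ (-1 + 2 * ep n))).congr ?_
        filter_upwards [self_mem_ae_restrict measurableSet_Ioo] with y hy
        rw [Real.mul_rpow (by positivity) hy.1.le]
      · exact (wt_int n).mono_set (Ioo_subset_Ioo_right (by norm_num))
      · exact measurableSet_Ioo
      · intro y hy
        have hy' : y ∈ Ioo (0:ℝ) 1 := ⟨hy.1, by linarith [hy.2]⟩
        exact Real.rpow_le_rpow_of_nonpos (sg2_pos hy') (sg2_le hy.1.le) (ex_le n)
    refine h2.trans ?_
    apply setIntegral_mono_set (wt_int n)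
    · filter_upwards [self_mem_ae_restrict measurableSet_Ioo] with y hy using wt_nonneg n hy
    · exact (Ioo_subset_Ioo_right (by norm_num : (1/2:ℝ) ≤ 1)).eventuallyLE
  refine le_trans ?_ h1
  have h3 : ∫ y in Ioo (0:ℝ) (1/2), (2 * π * y) ^ (-1 + 2 * ep n) =
      (2 * π) ^ (-1 + 2 * ep n) * ((1/2) ^ (2 * ep n) / (2 * ep n)) := by
    have e1 : ∫ y in Ioo (0:ℝ) (1/2), (2 * π * y) ^ (-1 + 2 * ep n) =
        ∫ y in Ioo (0:ℝ) (1/2), (2 * π) ^ (-1 + 2 * ep n) * y ^ (-1 + 2 * ep n) := by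
      apply setIntegral_congr_fun measurableSet_Ioo
      intro y hy
      simp only
      rw [Real.mul_rpow (by positivity) hy.1.le]
    rw [e1, integral_const_mul, ← integral_Ioc_eq_integral_Ioo, ← intervalIntegral.integral_of_le (by norm_num),
      integral_rpow (Or.inl (ex_gt n))]
    have e2 : -1 + 2 * ep n + 1 = 2 * ep n := by ring
    rw [e2, Real.zero_rpow (by have := ep_pos n; positivity), sub_zero]
  rw [h3]
  have hp : 0 < ep n := ep_pos n
  have a1 : (2 * π)⁻¹ ≤ (2 * π) ^ (-1 + 2 * ep n) := by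
    rw [← Real.rpow_neg_one]
    apply Real.rpow_le_rpow_of_exponent_le _ (by linarith)
    linarith [Real.pi_gt_three]
  have a2 : (1/2 : ℝ) ≤ (1/2) ^ (2 * ep n) := by
    conv_lhs => rw [← Real.rpow_one (1/2 : ℝ)]
    apply Real.rpow_le_rpow_of_exponent_ge (by norm_num) (by norm_num)
    linarith [ep_le n]
  have a3 : (1/2) * ((n : ℝ) + 1) ≤ (1/2) ^ (2 * ep n) / (2 * ep n) := by
    have : 2 * ep n = 1 / ((n : ℝ) + 1) := by unfold ep; field_simp
    rw [le_div_iff₀ (by positivity)]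
    calc 1 / 2 * ((n : ℝ) + 1) * (2 * ep n) = 1 / 2 := by rw [this]; field_simp
      _ ≤ _ := a2
  calc ((n : ℝ) + 1) / (4 * π) = (2 * π)⁻¹ * ((1/2) * ((n : ℝ) + 1)) := by field_simp; ring
    _ ≤ _ := by gcongr

lemma Wt_pos (n : ℕ) : 0 < Wt n := lt_of_lt_of_le (by positivity) (Wt_ge n)

lemma Wt_tendsto : Tendsto Wt atTop atTop := by
  apply tendsto_atTop_mono Wt_ge
  apply Tendsto.atTop_div_const (by positivity)
  exact tendsto_atTop_add_const_right _ _ tendsto_natCast_atTop_atTop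

lemma Wt_half (n : ℕ) (L R : ℝ) :
    ∫ y in Ioo (0:ℝ) 1, (if y < 1/2 then L else R) * wt n y = (L + R) / 2 * Wt n := by
  have hi : IntervalIntegrable (wt n) volume 0 1 := by
    rw [intervalIntegrable_iff_integrableOn_Ioo_of_le zero_le_one]; exact wt_int n
  have hi1 : IntervalIntegrable (wt n) volume 0 (1/2) :=
    hi.mono_set (by rw [uIcc_of_le (by norm_num), uIcc_of_le (by norm_num)]; exact Icc_subset_Icc_right (by norm_num))
  have hi2 : IntervalIntegrable (wt n) volume (1/2) 1 :=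
    hi.mono_set (by rw [uIcc_of_le (by norm_num), uIcc_of_le (by norm_num)]; exact Icc_subset_Icc_left (by norm_num))
  have hsymm : ∫ y in (1/2:ℝ)..1, wt n y = ∫ y in (0:ℝ)..(1/2), wt n y := by
    have h := intervalIntegral.integral_comp_sub_left (fun y => wt n y) (a := (0:ℝ)) (b := 1/2) 1
    simp only [sub_zero] at h
    rw [show (1:ℝ) - 1/2 = 1/2 by norm_num] at h
    rw [← h]
    apply intervalIntegral.integral_congr
    intro y _
    simp only [wt, sg2_symm]
  have hW : Wt n = 2 * ∫ y in (0:ℝ)..(1/2), wt n y := by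
    unfold Wt
    rw [← integral_Ioc_eq_integral_Ioo, ← intervalIntegral.integral_of_le zero_le_one,
      ← intervalIntegral.integral_add_adjacent_intervals hi1 hi2, hsymm]
    ring
  rw [← integral_Ioc_eq_integral_Ioo, ← intervalIntegral.integral_of_le zero_le_one]
  have e1 : ∫ y in (0:ℝ)..(1/2), (if y < 1/2 then L else R) * wt n y = L * ∫ y in (0:ℝ)..(1/2), wt n y := by
    rw [← intervalIntegral.integral_const_mul, intervalIntegral.integral_of_le (by norm_num),
      intervalIntegral.integral_of_le (by norm_num), integral_Ioc_eq_integral_Ioo, integral_Ioc_eq_integral_Ioo]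
    apply setIntegral_congr_fun measurableSet_Ioo
    intro y hy
    simp only [if_pos hy.2]
  have e2 : ∫ y in (1/2:ℝ)..1, (if y < 1/2 then L else R) * wt n y = R * ∫ y in (1/2:ℝ)..1, wt n y := by
    rw [← intervalIntegral.integral_const_mul, intervalIntegral.integral_of_le (by norm_num),
      intervalIntegral.integral_of_le (by norm_num)]
    apply setIntegral_congr_fun measurableSet_Ioc
    intro y hy
    simp only [if_neg (not_lt.mpr hy.1.le)]
  have m1 : IntervalIntegrable (fun y => (if y < 1/2 then L else R) * wt n y) volume 0 (1/2) := by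
    refine (hi1.const_mul L).congr_ae ?_
    rw [uIoc_of_le (by norm_num)]
    have : ∀ᵐ y ∂(volume.restrict (Ioc (0:ℝ) (1/2))), y ≠ 1/2 :=
      ae_restrict_of_ae (measure_eq_zero_iff_ae_notMem.mp (by simp : volume ({1/2} : Set ℝ) = 0))
    filter_upwards [self_mem_ae_restrict measurableSet_Ioc, this] with y hy hne
    have : y < 1/2 := lt_of_le_of_ne hy.2 hne
    simp only [if_pos this]
  have m2 : IntervalIntegrable (fun y => (if y < 1/2 then L else R) * wt n y) volume (1/2) 1 := by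
    refine (hi2.const_mul R).congr_ae ?_
    rw [uIoc_of_le (by norm_num)]
    filter_upwards [self_mem_ae_restrict measurableSet_Ioc] with y hy
    simp only [if_neg (not_lt.mpr hy.1.le)]
  rw [← intervalIntegral.integral_add_adjacent_intervals m1 m2, e1, e2, hsymm, hW]
  ring

lemma conc {Hn : ℕ → ℝ → ℝ} {B : ℝ} (hmeas : ∀ n, AEStronglyMeasurable (Hn n) (volume.restrict (Ioo 0 1)))
    (hB : ∀ n, ∀ y ∈ Ioo (0:ℝ) 1, |Hn n y| ≤ B) {L R : ℝ}
    (h0 : ∀ δ > 0, ∃ η > 0, ∀ᶠ n in atTop, ∀ y ∈ Ioo (0:ℝ) η, |Hn n y - L| ≤ δ)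
    (h1 : ∀ δ > 0, ∃ η > 0, ∀ᶠ n in atTop, ∀ y ∈ Ioo (1 - η : ℝ) 1, |Hn n y - R| ≤ δ) :
    Tendsto (fun n => (∫ y in Ioo (0:ℝ) 1, Hn n y * wt n y) / Wt n) atTop (𝓝 ((L + R) / 2)) := by
  rw [Metric.tendsto_nhds]
  intro ε hε
  obtain ⟨η0, hη0, e0⟩ := h0 (ε / 4) (by positivity)
  obtain ⟨η1, hη1, e1⟩ := h1 (ε / 4) (by positivity)
  set η := min (min η0 η1) (1/4) with hη
  have hηpos : 0 < η := by positivity
  have hη4 : η ≤ 1/4 := min_le_right _ _
  have hB0 : 0 ≤ B := (abs_nonneg _).trans (hB 0 (1/2) ⟨by norm_num, by norm_num⟩)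
  set B' := B + |L| + |R| with hB'
  have hev : ∀ᶠ n in atTop, B' / (4 * η) / Wt n < ε / 4 := by
    have : Tendsto (fun n => B' / (4 * η) / Wt n) atTop (𝓝 0) := Tendsto.div_atTop tendsto_const_nhds Wt_tendsto
    exact this.eventually_lt_const (by positivity)
  filter_upwards [e0, e1, hev] with n e0 e1 e2
  have hW := Wt_pos n
  have hHint : IntegrableOn (fun y => Hn n y * wt n y) (Ioo 0 1) := by
    refine ((wt_int n).const_mul B).mono' ((hmeas n).mul (wt_meas n).aestronglyMeasurable) ?_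
    filter_upwards [self_mem_ae_restrict measurableSet_Ioo] with y hy
    rw [norm_mul, Real.norm_eq_abs, Real.norm_eq_abs, abs_of_nonneg (wt_nonneg n hy)]
    exact mul_le_mul_of_nonneg_right (hB n y hy) (wt_nonneg n hy)
  have hcint : IntegrableOn (fun y => (if y < 1/2 then L else R) * wt n y) (Ioo 0 1) := by
    refine ((wt_int n).const_mul (|L| + |R|)).mono' ?_ ?_
    · exact (Measurable.ite measurableSet_Iio measurable_const measurable_const).aestronglyMeasurable.mul (wt_meas n).aestronglyMeasurable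
    · filter_upwards [self_mem_ae_restrict measurableSet_Ioo] with y hy
      rw [norm_mul, Real.norm_eq_abs, Real.norm_eq_abs, abs_of_nonneg (wt_nonneg n hy)]
      apply mul_le_mul_of_nonneg_right _ (wt_nonneg n hy)
      split_ifs
      · linarith [abs_nonneg R]
      · linarith [abs_nonneg L]
  have hdiff : |(∫ y in Ioo (0:ℝ) 1, Hn n y * wt n y) - (L + R) / 2 * Wt n| ≤ ε / 4 * Wt n + B' / (4 * η) := by
    rw [← Wt_half n L R, ← integral_sub hHint hcint]
    have hbd : ∀ y ∈ Ioo (0:ℝ) 1, |Hn n y * wt n y - (if y < 1/2 then L else R) * wt n y| ≤ ε / 4 * wt n y + B' / (4 * η) := by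
      intro y hy
      rw [← sub_mul, abs_mul, abs_of_nonneg (wt_nonneg n hy)]
      have hw := wt_nonneg n hy
      have hB'' : 0 ≤ B' / (4 * η) := by positivity
      by_cases hy0 : y < η
      · have : y < 1/2 := by linarith
        rw [if_pos this]
        have := e0 y ⟨hy.1, hy0.trans_le ((min_le_left _ _).trans (min_le_left _ _))⟩
        have := mul_le_mul_of_nonneg_right this hw
        linarith
      · by_cases hy1 : 1 - η < y
        · have h2 : ¬ y < 1/2 := by push Not; linarith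
          rw [if_neg h2]
          have h3 : η ≤ η1 := (min_le_left _ _).trans (min_le_right _ _)
          have := e1 y ⟨by linarith, hy.2⟩
          have := mul_le_mul_of_nonneg_right this hw
          linarith
        · have hmid := wt_mid n hηpos hη4 (not_lt.mp hy0) (not_lt.mp hy1)
          have hH : |Hn n y - (if y < 1/2 then L else R)| ≤ B' := by
            have a1 := hB n y hy
            have a2 : |(if y < 1/2 then L else R)| ≤ |L| + |R| := by
              split_ifs
              · linarith [abs_nonneg R]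
              · linarith [abs_nonneg L]
            have := abs_sub (Hn n y) (if y < 1/2 then L else R)
            linarith
          have : |Hn n y - (if y < 1/2 then L else R)| * wt n y ≤ B' * (1 / (4 * η)) :=
            mul_le_mul hH hmid hw (by positivity)
          have e : B' * (1 / (4 * η)) = B' / (4 * η) := by ring
          have : 0 ≤ ε / 4 * wt n y := by positivity
          linarith
    have hI : IntegrableOn (fun y => ε / 4 * wt n y + B' / (4 * η)) (Ioo 0 1) :=
      ((wt_int n).const_mul _).add (integrableOn_const (by simp))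
    calc |∫ y in Ioo (0:ℝ) 1, (Hn n y * wt n y - (if y < 1/2 then L else R) * wt n y)|
        ≤ ∫ y in Ioo (0:ℝ) 1, |Hn n y * wt n y - (if y < 1/2 then L else R) * wt n y| := abs_integral_le_integral_abs
      _ ≤ ∫ y in Ioo (0:ℝ) 1, (ε / 4 * wt n y + B' / (4 * η)) :=
          setIntegral_mono_on (hHint.sub hcint).abs hI measurableSet_Ioo hbd
      _ = ε / 4 * Wt n + B' / (4 * η) := by
          rw [integral_add ((wt_int n).const_mul _) (integrableOn_const (by simp)), integral_const_mul]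
          simp [Wt]
  rw [Real.dist_eq]
  have : (∫ y in Ioo (0:ℝ) 1, Hn n y * wt n y) / Wt n - (L + R) / 2 =
      ((∫ y in Ioo (0:ℝ) 1, Hn n y * wt n y) - (L + R) / 2 * Wt n) / Wt n := by
    field_simp
  rw [this, abs_div, abs_of_pos hW]
  calc |(∫ y in Ioo (0:ℝ) 1, Hn n y * wt n y) - (L + R) / 2 * Wt n| / Wt n ≤ (ε / 4 * Wt n + B' / (4 * η)) / Wt n := by gcongr
    _ = ε / 4 + B' / (4 * η) / Wt n := by field_simp
    _ < ε := by linarith

end Pool.Agent.Colloc
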