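import Pool.Agent.H0.Colloc.Suff

set_option autoImplicit false
open MeasureTheory Filter Topology Set
open scoped ENNReal ComplexConjugate InnerProductSpace

namespace Pool.Agent.Colloc

lemma PC.add {f g : C1 → ℂ} (hf : PC f) (hg : PC g) : PC (fun t => f t + g t) := by
  intro x
  obtain ⟨⟨l, hl⟩, r, hr⟩ := hf x
  obtain ⟨⟨l', hl'⟩, r', hr'⟩ := hg x
  exact ⟨⟨_, hl.add hl'⟩, _, hr.add hr'⟩

lemma PC.sub {f g : C1 → ℂ} (hf : PC f) (hg : PC g) : PC (fun t => f t - g t) := by
  intro x
  obtain ⟨⟨l, hl⟩, r, hr⟩ := hf x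
  obtain ⟨⟨l', hl'⟩, r', hr'⟩ := hg x
  exact ⟨⟨_, hl.sub hl'⟩, _, hr.sub hr'⟩

lemma PC.mul {f g : C1 → ℂ} (hf : PC f) (hg : PC g) : PC (fun t => f t * g t) := by
  intro x
  obtain ⟨⟨l, hl⟩, r, hr⟩ := hf x
  obtain ⟨⟨l', hl'⟩, r', hr'⟩ := hg x
  exact ⟨⟨_, hl.mul hl'⟩, _, hr.mul hr'⟩

lemma PC.conj {f : C1 → ℂ} (hf : PC f) : PC (fun t => conj (f t)) := by
  intro x
  obtain ⟨⟨l, hl⟩, r, hr⟩ := hf x
  exact ⟨⟨_, (Complex.continuous_conj.tendsto _).comp hl⟩, _, (Complex.continuous_conj.tendsto _).comp hr⟩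

lemma PC.of_continuous {f : C1 → ℂ} (hf : Continuous f) : PC f := by
  intro x
  have h : Tendsto (fun s : ℝ => f ((s : ℝ) : C1)) (𝓝 x) (𝓝 (f x)) :=
    ((hf.comp (AddCircle.continuous_mk' 1)).tendsto x)
  exact ⟨⟨_, h.mono_left nhdsWithin_le_nhds⟩, _, h.mono_left nhdsWithin_le_nhds⟩

lemma ev_not_mem {F : Set C1} (hF : F.Finite) (x : C1) : ∀ᶠ t in 𝓝[≠] x, t ∉ F := by
  have h1 : IsClosed (F \ {x}) := (hF.subset diff_subset).isClosed
  have h2 : (F \ {x})ᶜ ∈ 𝓝 x := h1.isOpen_compl.mem_nhds (by simp)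
  filter_upwards [nhdsWithin_le_nhds h2, self_mem_nhdsWithin] with t ht hne htF
  exact ht ⟨htF, hne⟩

lemma PC.congr_off {f g : C1 → ℂ} (hg : PC g) {F : Set C1} (hF : F.Finite) (h : ∀ t ∉ F, f t = g t) : PC f := by
  intro x
  obtain ⟨⟨l, hl⟩, r, hr⟩ := hg x
  refine ⟨⟨l, hl.congr' ?_⟩, r, hr.congr' ?_⟩
  · filter_upwards [(coe_tendsto_left x).eventually (ev_not_mem hF x)] with s hs using (h _ hs).symm
  · filter_upwards [(coe_tendsto_right x).eventually (ev_not_mem hF x)] with s hs using (h _ hs).symm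

lemma PC.inv_of {w : C1 → ℂ} (hw : PC w) {F : Set C1} (hF : F.Finite) {m : ℝ} (hm : 0 < m)
    (h : ∀ t ∉ F, m ≤ ‖w t‖) : PC (fun t => (w t)⁻¹) := by
  intro x
  obtain ⟨⟨l, hl⟩, r, hr⟩ := hw x
  refine ⟨⟨l⁻¹, hl.inv₀ ?_⟩, r⁻¹, hr.inv₀ ?_⟩
  · have : m ≤ ‖l‖ := by
      apply ge_of_tendsto hl.norm
      filter_upwards [(coe_tendsto_left x).eventually (ev_not_mem hF x)] with s hs using h _ hs
    intro h0
    rw [h0, norm_zero] at this
    linarith
  · have : m ≤ ‖r‖ := by
      apply ge_of_tendsto hr.norm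
      filter_upwards [(coe_tendsto_right x).eventually (ev_not_mem hF x)] with s hs using h _ hs
    intro h0
    rw [h0, norm_zero] at this
    linarith

lemma PC.exists_mul {g : C1 → ℂ} (hg : PC g) : ∃ M : H →L[ℂ] H, IsMul g M := by
  obtain ⟨C, _, hC⟩ := hg.bdd
  exact Pool.Agent.Colloc.exists_mul g hg.measurable.aestronglyMeasurable C (Eventually.of_forall hC)

lemma PC.adjoint_mul {g : C1 → ℂ} (hg : PC g) {M : H →L[ℂ] H} (hM : IsMul g M) :
    IsMul (fun x => Complex.conjCLE (g x)) (ContinuousLinearMap.adjoint M) := by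
  obtain ⟨C, _, hC⟩ := hg.bdd
  exact hM.adjoint hg.measurable.aestronglyMeasurable (Eventually.of_forall hC)

lemma SE_congr {X Y N : H →L[ℂ] H} (hY : SE Y)
    (hX : X = N.comp ((ContinuousLinearMap.adjoint Y).comp (ContinuousLinearMap.adjoint N)))
    {m : ℝ} (hm : 0 < m) (hN : ∀ x, m * ‖x‖ ≤ ‖ContinuousLinearMap.adjoint N x‖) : SE X := by
  obtain ⟨D, K, hD, hK, ⟨c, hc, hDc⟩, hDK⟩ := hY
  refine ⟨N.comp (D.comp (ContinuousLinearMap.adjoint N)), N.comp (K.comp (ContinuousLinearMap.adjoint N)), ?_, ?_, ?_, ?_⟩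
  · rw [ContinuousLinearMap.isSelfAdjoint_iff'] at hD ⊢
    rw [ContinuousLinearMap.adjoint_comp, ContinuousLinearMap.adjoint_comp, hD, ContinuousLinearMap.adjoint_adjoint]
    rfl
  · exact (hK.comp_clm (ContinuousLinearMap.adjoint N)).clm_comp N
  · refine ⟨c * m ^ 2, by positivity, fun x => ?_⟩
    have h1 : (inner ℂ ((N.comp (D.comp (ContinuousLinearMap.adjoint N))) x) x).re =
        (inner ℂ (D (ContinuousLinearMap.adjoint N x)) (ContinuousLinearMap.adjoint N x)).re := by
      change (inner ℂ (N (D (ContinuousLinearMap.adjoint N x))) x).re = _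
      rw [← ContinuousLinearMap.adjoint_inner_right]
    rw [h1]
    refine le_trans ?_ (hDc _)
    have := hN x
    calc c * m ^ 2 * ‖x‖ ^ 2 = c * (m * ‖x‖) ^ 2 := by ring
      _ ≤ c * ‖ContinuousLinearMap.adjoint N x‖ ^ 2 := by gcongr
  · have h1 : ContinuousLinearMap.adjoint X = N.comp (Y.comp (ContinuousLinearMap.adjoint N)) := by
      rw [hX, ContinuousLinearMap.adjoint_comp, ContinuousLinearMap.adjoint_comp,
        ContinuousLinearMap.adjoint_adjoint, ContinuousLinearMap.adjoint_adjoint]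
      rfl
    rw [h1, hX, ← ContinuousLinearMap.comp_add, ← ContinuousLinearMap.add_comp, ← ContinuousLinearMap.comp_smul,
      ← ContinuousLinearMap.smul_comp, add_comm (ContinuousLinearMap.adjoint Y) Y, hDK, ContinuousLinearMap.add_comp,
      ContinuousLinearMap.comp_add]

section
variable {S : H →L[ℂ] H} (hS : ∀ n : ℤ, S (fourierLp (T := (1:ℝ)) 2 n) =
        (if 0 ≤ n then (1:ℂ) else -1) • fourierLp (T := (1:ℝ)) 2 n)
include hS

theorem forward {a b : C1 → ℂ} (ha : PC a) (hb : PC b) {Ma Mb : H →L[ℂ] H} (hMa : IsMul a Ma) (hMb : IsMul b Mb)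
    (h3 : Cond3 (fun t => a t + b t) (fun t => a t - b t)) :
    (∃ Θ : C1 → ℂ, PC Θ ∧ (∀ t, Θ t ≠ 0) ∧ ∀ MΘ : H →L[ℂ] H, IsMul Θ MΘ → SE (MΘ.comp (Ma + Mb.comp S))) ∧
    (∃ Θ : C1 → ℂ, PC Θ ∧ (∀ t, Θ t ≠ 0) ∧ ∀ MΘ : H →L[ℂ] H, IsMul Θ MΘ → SE (MΘ.comp (Ma + S.comp Mb))) := by
  have hc : PC (fun t => a t + b t) := ha.add hb
  have hd : PC (fun t => a t - b t) := ha.sub hb
  set c : C1 → ℂ := fun t => a t + b t with hcdef
  set d : C1 → ℂ := fun t => a t - b t with hddef
  obtain ⟨k, hkpos, ε, hε, F, hF, hk⟩ := exists_k hc hd h3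
  obtain ⟨Cc, hCc0, hCc⟩ := hc.bdd
  obtain ⟨Cd, hCd0, hCd⟩ := hd.bdd
  set C : ℝ := ‖k‖ + Cc + Cd + 1 with hCdef
  have hCpos : 0 < C := by positivity
  have hkC : ∀ t, ‖k t‖ ≤ C := fun t => (k.norm_coe_le_norm t).trans (by rw [hCdef]; linarith)
  have hcC : ∀ t, ‖c t‖ ≤ C := fun t => (hCc t).trans (by rw [hCdef]; linarith [norm_nonneg k])
  have hdC : ∀ t, ‖d t‖ ≤ C := fun t => (hCd t).trans (by rw [hCdef]; linarith [norm_nonneg k])
  set w : C1 → ℂ := fun t => conj (k t) * d t + k t * c t with hwdef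
  have hwPC : PC w := by
    have h1 : PC (fun t => k t) := PC.of_continuous k.continuous
    exact (h1.conj.mul hd).add (h1.mul hc)
  have hwlow : ∀ t ∉ F, ε / C ≤ ‖w t‖ := by
    intro t ht
    obtain ⟨h1, h2⟩ := hk t ht
    have hwd : (w t * conj (d t)).re = (k t).re * ‖d t‖ ^ 2 + (k t * c t * conj (d t)).re := by
      rw [hwdef]
      have : (conj (k t) * d t + k t * c t) * conj (d t) = conj (k t) * (d t * conj (d t)) + k t * c t * conj (d t) := by ring
      simp only
      rw [this, Complex.add_re, Complex.mul_conj, Complex.re_mul_ofReal, Complex.conj_re, Complex.normSq_eq_norm_sq]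
    have h3 := Complex.re_le_norm (w t * conj (d t))
    rw [norm_mul, RCLike.norm_conj] at h3
    have h4 : 0 ≤ (k t).re * ‖d t‖ ^ 2 := mul_nonneg (hkpos t).le (by positivity)
    have h5 : ‖w t‖ * ‖d t‖ ≤ ‖w t‖ * C := by gcongr; exact hdC t
    rw [div_le_iff₀ hCpos]
    linarith
  have hwne : ∀ t ∉ F, w t ≠ 0 := by
    intro t ht h
    have := hwlow t ht
    rw [h, norm_zero] at this
    have : 0 < ε / C := by positivity
    linarith
  have haeF := ae_of_off_finite hF (p := fun t => t ∉ F) (fun t ht => ht)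
  have hPQ : ∀ u : H, u = PP S u + QQ S u := by
    intro u
    have := congrArg (fun B : H →L[ℂ] H => B u) (PP_add_QQ S)
    simpa using this.symm
  have hPQS : ∀ u : H, S u = PP S u - QQ S u := by
    intro u
    have := congrArg (fun B : H →L[ℂ] H => B u) (PP_sub_QQ S)
    simpa using this.symm
  constructor
  · refine ⟨fun t => if w t = 0 then 1 else (w t)⁻¹, ?_, ?_, ?_⟩
    · apply (hwPC.inv_of hF (m := ε / C) (by positivity) hwlow).congr_off hF
      intro t ht
      simp only [hwne t ht, if_false]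
    · intro t
      by_cases h : w t = 0
      · simp [h]
      · simp [h]
    · intro MΘ hMΘ
      apply suff hS k hkpos hε hCpos ?_ hkC hcC hdC
      · intro u
        have e1 := hMΘ ((Ma + Mb.comp S) u)
        have e2 := Lp.coeFn_add (Ma u) (Mb (S u))
        have e3 := hMa u
        have e4 := hMb (S u)
        have e5 := Lp.coeFn_add (PP S u) (QQ S u)
        rw [← hPQ u] at e5
        have e6 := Lp.coeFn_sub (PP S u) (QQ S u)
        rw [← hPQS u] at e6
        filter_upwards [e1, e2, e3, e4, e5, e6, haeF] with t e1 e2 e3 e4 e5 e6 htF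
        change (MΘ ((Ma + Mb.comp S) u) : C1 → ℂ) t = _
        rw [e1]
        change (if w t = 0 then 1 else (w t)⁻¹) * ((Ma u + Mb (S u) : H) : C1 → ℂ) t = _
        rw [e2, Pi.add_apply, e3, e4, e5, e6, if_neg (hwne t htF), Pi.add_apply, Pi.sub_apply]
        simp only [hwdef, hcdef, hddef]
        ring
      · filter_upwards [haeF] with t ht using hk t ht
  · refine ⟨fun t => if w t = 0 then 1 else conj (w t), ?_, ?_, ?_⟩
    · apply hwPC.conj.congr_off hF
      intro t ht
      simp only [hwne t ht, if_false]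
    · intro t
      by_cases h : w t = 0
      · simp [h]
      · simp [h]
    · intro MΘ hMΘ
      have hΘPC : PC (fun t => if w t = 0 then 1 else conj (w t)) := by
        apply hwPC.conj.congr_off hF
        intro t ht
        simp only [hwne t ht, if_false]
      -- the multiplication by `1/conj w`
      obtain ⟨N, hN⟩ := (hwPC.inv_of hF (m := ε / C) (by positivity) hwlow).conj.exists_mul
      have hNadj := (hwPC.inv_of hF (m := ε / C) (by positivity) hwlow).conj.adjoint_mul hN
      have hΘadj := hΘPC.adjoint_mul hMΘ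
      have hMc : IsMul c (Ma + Mb) := hMa.add hMb
      have hMd : IsMul d (Ma - Mb) := hMa.sub hMb
      have hMca := hc.adjoint_mul hMc
      have hMda := hd.adjoint_mul hMd
      let Y : H →L[ℂ] H := N.comp ((ContinuousLinearMap.adjoint (Ma + Mb)).comp (PP S) +
        (ContinuousLinearMap.adjoint (Ma - Mb)).comp (QQ S))
      have hYadj : ContinuousLinearMap.adjoint Y = ((PP S).comp (Ma + Mb) + (QQ S).comp (Ma - Mb)).comp (ContinuousLinearMap.adjoint N) := by
        change ContinuousLinearMap.adjoint (N.comp ((ContinuousLinearMap.adjoint (Ma + Mb)).comp (PP S) +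
        (ContinuousLinearMap.adjoint (Ma - Mb)).comp (QQ S))) = _
        rw [ContinuousLinearMap.adjoint_comp, map_add, ContinuousLinearMap.adjoint_comp, ContinuousLinearMap.adjoint_comp,
          ContinuousLinearMap.adjoint_adjoint, ContinuousLinearMap.adjoint_adjoint, PP_adj hS, QQ_adj hS]
      have hid : (ContinuousLinearMap.adjoint N).comp (ContinuousLinearMap.adjoint MΘ) = 1 := by
        have h1 := hNadj.comp hΘadj
        apply (h1.congr ?_).unique isMul_one
        filter_upwards [haeF] with t ht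
        have := hwne t ht
        simp only [if_neg this, Complex.conjCLE_apply, Complex.conj_conj]
        exact inv_mul_cancel₀ this
      have hX : MΘ.comp (Ma + S.comp Mb) = MΘ.comp ((ContinuousLinearMap.adjoint Y).comp (ContinuousLinearMap.adjoint MΘ)) := by
        rw [hYadj, ContinuousLinearMap.comp_assoc, hid]
        congr 1
        have h1 : (PP S).comp (Ma + Mb) + (QQ S).comp (Ma - Mb) = (PP S + QQ S).comp Ma + (PP S - QQ S).comp Mb := by
          ext1 x
          simp only [_root_.add_apply, ContinuousLinearMap.comp_apply, map_add, map_sub, _root_.sub_apply]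
          abel
        rw [h1, PP_add_QQ, PP_sub_QQ]
        rfl
      apply SE_congr (Y := Y) (N := MΘ) ?_ hX (m := ε / C) (by positivity) ?_
      · let kc : C(C1, ℂ) := ⟨fun t => conj (k t), Complex.continuous_conj.comp k.continuous⟩
        apply suff hS (c := fun t => conj (c t)) (d := fun t => conj (d t)) kc (fun t => by simpa [kc] using hkpos t) hε hCpos ?_
          (fun t => by simpa [kc] using hkC t) (fun t => by simpa using hcC t) (fun t => by simpa using hdC t)
        · intro u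
          have e1 := hN (((ContinuousLinearMap.adjoint (Ma + Mb)).comp (PP S) +
            (ContinuousLinearMap.adjoint (Ma - Mb)).comp (QQ S)) u)
          have e2 := Lp.coeFn_add ((ContinuousLinearMap.adjoint (Ma + Mb)) (PP S u)) ((ContinuousLinearMap.adjoint (Ma - Mb)) (QQ S u))
          have e3 := hMca (PP S u)
          have e4 := hMda (QQ S u)
          filter_upwards [e1, e2, e3, e4, haeF] with t e1 e2 e3 e4 htF
          change (N (((ContinuousLinearMap.adjoint (Ma + Mb)).comp (PP S) +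
            (ContinuousLinearMap.adjoint (Ma - Mb)).comp (QQ S)) u) : C1 → ℂ) t = _
          rw [e1]
          change conj (w t)⁻¹ * (((ContinuousLinearMap.adjoint (Ma + Mb)) (PP S u) + (ContinuousLinearMap.adjoint (Ma - Mb)) (QQ S u) : H) : C1 → ℂ) t = _
          rw [e2, Pi.add_apply, e3, e4]
          simp only [hwdef, kc, ContinuousMap.coe_mk, Complex.conjCLE_apply, Complex.conj_conj, map_inv₀, map_add, map_mul]
          ring
        · filter_upwards [haeF] with t ht
          obtain ⟨h1, h2⟩ := hk t ht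
          refine ⟨by simpa [kc] using h1, ?_⟩
          have : kc t * conj (c t) * conj (conj (d t)) = conj (k t * c t * conj (d t)) := by
            simp [kc]
          rw [this, Complex.conj_re]
          exact h2
      · intro x
        apply hΘadj.lower (by positivity)
        filter_upwards [haeF] with t ht
        have := hwne t ht
        simp only [if_neg this, Complex.conjCLE_apply, Complex.conj_conj]
        exact hwlow t ht

end

end Pool.Agent.Colloc
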