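import Mathlib

set_option autoImplicit false
open MeasureTheory Filter Topology Set
open scoped ENNReal ComplexConjugate InnerProductSpace

namespace Pool.Agent.Colloc

abbrev C1 := AddCircle (1:ℝ)
noncomputable abbrev mu : Measure C1 := AddCircle.haarAddCircle (T := (1:ℝ))
noncomputable abbrev H := Lp ℂ 2 mu

/-- `M` is multiplication by `g` -/
def IsMul (g : C1 → ℂ) (M : H →L[ℂ] H) : Prop :=
  ∀ f : H, (M f : C1 → ℂ) =ᵐ[mu] fun x => g x * f x

noncomputable def mulInf (g : Lp ℂ ∞ mu) : H →L[ℂ] H :=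
  (ContinuousLinearMap.mul ℂ ℂ).holderL mu ∞ 2 2 g

lemma mulInf_isMul (g : Lp ℂ ∞ mu) : IsMul g (mulInf g) := by
  intro f
  exact (ContinuousLinearMap.mul ℂ ℂ).coeFn_holder g f

lemma exists_mul (g : C1 → ℂ) (hg : AEStronglyMeasurable g mu) (C : ℝ)
    (hC : ∀ᵐ x ∂mu, ‖g x‖ ≤ C) : ∃ M : H →L[ℂ] H, IsMul g M := by
  have hm : MemLp g ∞ mu := memLp_top_of_bound hg C hC
  refine ⟨mulInf (hm.toLp g), fun f => ?_⟩
  filter_upwards [mulInf_isMul (hm.toLp g) f, hm.coeFn_toLp] with x h1 h2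
  rw [h1, h2]

lemma IsMul.congr {g g' : C1 → ℂ} {M : H →L[ℂ] H} (h : IsMul g M) (hg : g =ᵐ[mu] g') :
    IsMul g' M := by
  intro f
  filter_upwards [h f, hg] with x h1 h2
  rw [h1, h2]

lemma IsMul.unique {g : C1 → ℂ} {M M' : H →L[ℂ] H} (h : IsMul g M) (h' : IsMul g M') :
    M = M' := by
  ext1 f
  apply Lp.ext
  filter_upwards [h f, h' f] with x h1 h2
  rw [h1, h2]

lemma IsMul.comp {g g' : C1 → ℂ} {M M' : H →L[ℂ] H} (h : IsMul g M) (h' : IsMul g' M') :
    IsMul (fun x => g x * g' x) (M.comp M') := by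
  intro f
  filter_upwards [h (M' f), h' f] with x h1 h2
  rw [ContinuousLinearMap.comp_apply, h1, h2, mul_assoc]

lemma IsMul.add {g g' : C1 → ℂ} {M M' : H →L[ℂ] H} (h : IsMul g M) (h' : IsMul g' M') :
    IsMul (fun x => g x + g' x) (M + M') := by
  intro f
  filter_upwards [h f, h' f, Lp.coeFn_add (M f) (M' f)] with x h1 h2 h3
  rw [_root_.add_apply, h3, Pi.add_apply, h1, h2, add_mul]

lemma IsMul.sub {g g' : C1 → ℂ} {M M' : H →L[ℂ] H} (h : IsMul g M) (h' : IsMul g' M') :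
    IsMul (fun x => g x - g' x) (M - M') := by
  intro f
  filter_upwards [h f, h' f, Lp.coeFn_sub (M f) (M' f)] with x h1 h2 h3
  rw [_root_.sub_apply, h3, Pi.sub_apply, h1, h2, sub_mul]

lemma isMul_one : IsMul (fun _ => 1) (1 : H →L[ℂ] H) := by
  intro f
  filter_upwards with x
  simp

lemma inner_eq (f g : H) : ⟪f, g⟫_ℂ = ∫ x, conj (f x) * g x ∂mu := by
  rw [L2.inner_def]
  apply integral_congr_ae
  filter_upwards with x
  simp [RCLike.inner_apply, mul_comm]

lemma IsMul.adjoint {g : C1 → ℂ} {M : H →L[ℂ] H} (h : IsMul g M) {C : ℝ}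
    (hg : AEStronglyMeasurable g mu) (hC : ∀ᵐ x ∂mu, ‖g x‖ ≤ C) :
    IsMul (fun x => conj (g x)) (ContinuousLinearMap.adjoint M) := by
  obtain ⟨M', hM'⟩ := exists_mul (fun x => conj (g x)) (Complex.continuous_conj.comp_aestronglyMeasurable hg) C
    (by filter_upwards [hC] with x hx; simpa using hx)
  have : M' = ContinuousLinearMap.adjoint M := by
    rw [ContinuousLinearMap.eq_adjoint_iff]
    intro x y
    rw [inner_eq, inner_eq]
    apply integral_congr_ae
    filter_upwards [h y, hM' x] with t h1 h2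
    rw [h1, h2]
    simp only [map_mul, Complex.conj_conj]
    ring
  rw [← this]
  exact hM'

/-- lower bound -/
lemma IsMul.lower {g : C1 → ℂ} {M : H →L[ℂ] H} (h : IsMul g M) {c : ℝ} (hc : 0 ≤ c)
    (hC : ∀ᵐ x ∂mu, c ≤ ‖g x‖) (f : H) : c * ‖f‖ ≤ ‖M f‖ := by
  have h1 : ‖(c : ℂ) • f‖ ≤ ‖M f‖ := by
    apply Lp.norm_le_norm_of_ae_le
    filter_upwards [h f, hC, Lp.coeFn_smul (c : ℂ) f] with x h1 h2 h3
    rw [h1, h3, Pi.smul_apply, norm_smul, norm_mul]
    simp only [Complex.norm_real, Real.norm_eq_abs, abs_of_nonneg hc]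
    gcongr
  rwa [norm_smul, Complex.norm_real, Real.norm_eq_abs, abs_of_nonneg hc] at h1

/-- multiplication by a continuous function -/
noncomputable def Mc : C(C1, ℂ) →L[ℂ] (H →L[ℂ] H) :=
  ((ContinuousLinearMap.mul ℂ ℂ).holderL mu ∞ 2 2).comp (ContinuousMap.toLp ∞ mu ℂ)

lemma Mc_isMul (h : C(C1, ℂ)) : IsMul h (Mc h) := by
  intro f
  have h1 := (ContinuousLinearMap.mul ℂ ℂ).coeFn_holder (r := 2) (ContinuousMap.toLp ∞ mu ℂ h) f
  filter_upwards [h1, ContinuousMap.coeFn_toLp (p := ∞) (𝕜 := ℂ) mu h] with x h1 h2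
  change ((ContinuousLinearMap.mul ℂ ℂ).holder 2 (ContinuousMap.toLp ∞ mu ℂ h) f : C1 → ℂ) x = _
  rw [h1, h2]
  rfl

/-- the sign symbol -/
noncomputable def sg (n : ℤ) : ℂ := if 0 ≤ n then 1 else -1

section S
variable {S : H →L[ℂ] H}

lemma ext_basis {A B : H →L[ℂ] H} (h : ∀ n : ℤ, A (fourierLp (T := (1:ℝ)) 2 n) = B (fourierLp (T := (1:ℝ)) 2 n)) :
    A = B := by
  apply ContinuousLinearMap.ext_on (s := Set.range (fourierLp (T := (1:ℝ)) 2))
  · have := span_fourierLp_closure_eq_top (T := (1:ℝ)) (p := 2) (by simp)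
    rw [Submodule.dense_iff_topologicalClosure_eq_top]
    exact this
  · rintro _ ⟨n, rfl⟩
    exact h n

lemma inner_fourier (m n : ℤ) : ⟪(fourierLp (T := (1:ℝ)) 2 m : H), fourierLp (T := (1:ℝ)) 2 n⟫_ℂ =
    if m = n then 1 else 0 := by
  have := orthonormal_fourier (T := (1:ℝ))
  exact (orthonormal_iff_ite.mp this) m n

lemma ext_inner_basis {x y : H} (h : ∀ n : ℤ, ⟪(fourierLp (T := (1:ℝ)) 2 n : H), x⟫_ℂ = ⟪(fourierLp (T := (1:ℝ)) 2 n : H), y⟫_ℂ) :
    x = y := by
  apply (fourierBasis (T := (1:ℝ))).repr.injective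
  ext n
  rw [HilbertBasis.repr_apply_apply, HilbertBasis.repr_apply_apply, coe_fourierBasis]
  exact h n

variable (hS : ∀ n : ℤ, S (fourierLp (T := (1:ℝ)) 2 n) =
        (if 0 ≤ n then (1:ℂ) else -1) • fourierLp (T := (1:ℝ)) 2 n)
include hS

lemma S_sq : S.comp S = 1 := by
  apply ext_basis
  intro n
  rw [ContinuousLinearMap.comp_apply, hS, map_smul, hS, smul_smul]
  split_ifs <;> simp

lemma S_adj : ContinuousLinearMap.adjoint S = S := by
  apply ext_basis
  intro n
  apply ext_inner_basis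
  intro m
  rw [ContinuousLinearMap.adjoint_inner_right, hS, hS, inner_smul_left, inner_smul_right, inner_fourier]
  by_cases h : m = n
  · subst h
    split_ifs <;> simp
  · simp [h]

end S

noncomputable def PP (S : H →L[ℂ] H) : H →L[ℂ] H := (1/2 : ℂ) • (1 + S)
noncomputable def QQ (S : H →L[ℂ] H) : H →L[ℂ] H := (1/2 : ℂ) • (1 - S)

lemma PP_add_QQ (S : H →L[ℂ] H) : PP S + QQ S = 1 := by
  unfold PP QQ
  rw [← smul_add]
  have : (1 + S : H →L[ℂ] H) + (1 - S) = (2:ℂ) • 1 := by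
    rw [two_smul]; abel
  rw [this, smul_smul]
  norm_num

lemma PP_sub_QQ (S : H →L[ℂ] H) : PP S - QQ S = S := by
  unfold PP QQ
  rw [← smul_sub]
  have : (1 + S : H →L[ℂ] H) - (1 - S) = (2:ℂ) • S := by
    rw [two_smul]; abel
  rw [this, smul_smul]
  norm_num

section S
variable {S : H →L[ℂ] H} (hS : ∀ n : ℤ, S (fourierLp (T := (1:ℝ)) 2 n) =
        (if 0 ≤ n then (1:ℂ) else -1) • fourierLp (T := (1:ℝ)) 2 n)
include hS

lemma PP_adj : ContinuousLinearMap.adjoint (PP S) = PP S := by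
  unfold PP
  rw [map_smulₛₗ, map_add, S_adj hS]
  congr 1
  · simp [Complex.conj_ofNat]
  · congr 1
    exact ContinuousLinearMap.adjoint_id ..

lemma QQ_adj : ContinuousLinearMap.adjoint (QQ S) = QQ S := by
  unfold QQ
  rw [map_smulₛₗ, map_sub, S_adj hS]
  congr 1
  · simp [Complex.conj_ofNat]
  · congr 1
    exact ContinuousLinearMap.adjoint_id ..

lemma PP_four (n : ℤ) : PP S (fourierLp (T := (1:ℝ)) 2 n) = (if 0 ≤ n then (1:ℂ) else 0) • fourierLp (T := (1:ℝ)) 2 n := by
  unfold PP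
  rw [_root_.smul_apply, _root_.add_apply, hS, one_apply_eq_self]
  split_ifs
  · rw [one_smul, ← two_smul ℂ, smul_smul]; norm_num
  · simp

lemma QQ_four (n : ℤ) : QQ S (fourierLp (T := (1:ℝ)) 2 n) = (if 0 ≤ n then (0:ℂ) else 1) • fourierLp (T := (1:ℝ)) 2 n := by
  unfold QQ
  rw [_root_.smul_apply, _root_.sub_apply, hS, one_apply_eq_self]
  split_ifs
  · simp
  · simp only [neg_smul, one_smul, sub_neg_eq_add]
    rw [← two_smul ℂ, smul_smul]; norm_num


omit hS in
lemma Mc_four (k n : ℤ) : Mc (fourier k) (fourierLp (T := (1:ℝ)) 2 n) = fourierLp (T := (1:ℝ)) 2 (k + n) := by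
  apply Lp.ext
  filter_upwards [Mc_isMul (fourier k) (fourierLp (T := (1:ℝ)) 2 n), coeFn_fourierLp (T := (1:ℝ)) 2 n,
    coeFn_fourierLp (T := (1:ℝ)) 2 (k + n)] with x h1 h2 h3
  rw [h1, h2, h3, fourier_add]

omit hS in
lemma rank_one_compact (v w : H) : IsCompactOperator ((innerSL ℂ v).smulRight w : H →L[ℂ] H) := by
  have h1 : IsCompactOperator (innerSL ℂ v : H →L[ℂ] ℂ) := isCompactOperator_of_locallyCompactSpace_dom _
  have h2 := h1.clm_comp (ContinuousLinearMap.toSpanSingleton ℂ w)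
  exact h2

omit hS in
lemma sum_compact {ι : Type*} (s : Finset ι) (A : ι → H →L[ℂ] H) (h : ∀ i, IsCompactOperator (A i)) :
    IsCompactOperator (∑ i ∈ s, A i : H →L[ℂ] H) := by
  classical
  induction s using Finset.induction_on with
  | empty =>
    rw [Finset.sum_empty]
    exact isCompactOperator_zero
  | insert a s ha ih =>
    rw [Finset.sum_insert ha]
    exact (h a).add ih

lemma hankel_four (k : ℤ) : IsCompactOperator ((QQ S).comp ((Mc (fourier k)).comp (PP S)) : H →L[ℂ] H) := by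
  have : ((QQ S).comp ((Mc (fourier k)).comp (PP S)) : H →L[ℂ] H) =
      ∑ i ∈ Finset.Ico (0:ℤ) (-k), ((innerSL ℂ (fourierLp (T := (1:ℝ)) 2 i : H)).smulRight
        (fourierLp (T := (1:ℝ)) 2 (k + i) : H) : H →L[ℂ] H) := by
    apply ext_basis
    intro n
    rw [ContinuousLinearMap.comp_apply, ContinuousLinearMap.comp_apply, PP_four hS, map_smul, Mc_four,
      map_smul, QQ_four hS, _root_.sum_apply]
    simp only [ContinuousLinearMap.smulRight_apply, innerSL_apply_apply, inner_fourier, ite_smul, one_smul, zero_smul]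
    by_cases h1 : 0 ≤ n
    · by_cases h2 : 0 ≤ k + n
      · simp only [h1, h2, if_true]
        symm
        apply Finset.sum_eq_zero
        intro i hi
        rw [Finset.mem_Ico] at hi
        rw [if_neg (by omega)]
      · simp only [h1, h2, if_true, if_false]
        rw [Finset.sum_ite_eq' _ n, if_pos]
        rw [Finset.mem_Ico]; omega
    · simp only [h1, if_false]
      symm
      apply Finset.sum_eq_zero
      intro i hi
      rw [Finset.mem_Ico] at hi
      rw [if_neg (by omega)]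
  rw [this]
  exact sum_compact _ _ (fun i => rank_one_compact _ _)

lemma hankel_four' (k : ℤ) : IsCompactOperator ((PP S).comp ((Mc (fourier k)).comp (QQ S)) : H →L[ℂ] H) := by
  have : ((PP S).comp ((Mc (fourier k)).comp (QQ S)) : H →L[ℂ] H) =
      ∑ i ∈ Finset.Ico (-k) (0:ℤ), ((innerSL ℂ (fourierLp (T := (1:ℝ)) 2 i : H)).smulRight
        (fourierLp (T := (1:ℝ)) 2 (k + i) : H) : H →L[ℂ] H) := by
    apply ext_basis
    intro n
    rw [ContinuousLinearMap.comp_apply, ContinuousLinearMap.comp_apply, QQ_four hS, map_smul, Mc_four,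
      map_smul, PP_four hS, _root_.sum_apply]
    simp only [ContinuousLinearMap.smulRight_apply, innerSL_apply_apply, inner_fourier, ite_smul, one_smul, zero_smul]
    by_cases h1 : 0 ≤ n
    · simp only [h1, if_true]
      symm
      apply Finset.sum_eq_zero
      intro i hi
      rw [Finset.mem_Ico] at hi
      rw [if_neg (by omega)]
    · by_cases h2 : 0 ≤ k + n
      · simp only [h1, h2, if_true, if_false]
        rw [Finset.sum_ite_eq' _ n, if_pos]
        rw [Finset.mem_Ico]; omega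
      · simp only [h1, h2, if_false]
        symm
        apply Finset.sum_eq_zero
        intro i hi
        rw [Finset.mem_Ico] at hi
        rw [if_neg (by omega)]
  rw [this]
  exact sum_compact _ _ (fun i => rank_one_compact _ _)

omit hS in
lemma closed_compact (A B : H →L[ℂ] H)
    (hf : ∀ k : ℤ, IsCompactOperator (A.comp ((Mc (fourier k)).comp B) : H →L[ℂ] H)) (h : C(C1, ℂ)) :
    IsCompactOperator (A.comp ((Mc h).comp B) : H →L[ℂ] H) := by
  let Φ : C(C1, ℂ) →L[ℂ] (H →L[ℂ] H) :=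
    ((ContinuousLinearMap.compL ℂ H H H A).comp ((ContinuousLinearMap.compL ℂ H H H).flip B)).comp Mc
  have hΦ : ∀ h, Φ h = A.comp ((Mc h).comp B) := fun h => rfl
  let V : Submodule ℂ C(C1, ℂ) := (compactOperator (RingHom.id ℂ) H H).comap Φ.toLinearMap
  have hVc : IsClosed (V : Set C(C1, ℂ)) := by
    have : IsClosed (compactOperator (RingHom.id ℂ) H H : Set (H →L[ℂ] H)) :=
      isClosed_setOfPred_isCompactOperator (σ₁₂ := RingHom.id ℂ) (M₁ := H) (M₂ := H)
    exact this.preimage Φ.continuous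
  have hspan : Submodule.span ℂ (Set.range (fourier (T := (1:ℝ)))) ≤ V := by
    rw [Submodule.span_le]
    rintro _ ⟨k, rfl⟩
    exact hf k
  have htop : (⊤ : Submodule ℂ C(C1, ℂ)) ≤ V := by
    rw [← span_fourier_closure_eq_top (T := (1:ℝ))]
    exact Submodule.topologicalClosure_minimal _ hspan hVc
  exact htop (Submodule.mem_top : h ∈ _)

lemma hankel (h : C(C1, ℂ)) : IsCompactOperator ((QQ S).comp ((Mc h).comp (PP S)) : H →L[ℂ] H) :=
  closed_compact _ _ (hankel_four hS) h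

lemma hankel' (h : C(C1, ℂ)) : IsCompactOperator ((PP S).comp ((Mc h).comp (QQ S)) : H →L[ℂ] H) :=
  closed_compact _ _ (hankel_four' hS) h

end S

end Pool.Agent.Colloc
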