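import Pool.Agent.H0.Colloc.TestFn
import Pool.Agent.H0.Colloc.Fwd

set_option autoImplicit false
open MeasureTheory Filter Topology Set
open scoped ENNReal ComplexConjugate Real InnerProductSpace

namespace Pool.Agent.Colloc

lemma prod_left {Hn : ℕ → ℝ → ℝ} {L : ℝ}
    (h : Tendsto (fun p : ℕ × ℝ => Hn p.1 p.2) (atTop ×ˢ 𝓝[>] (0:ℝ)) (𝓝 L)) :
    ∀ δ > 0, ∃ η > 0, ∀ᶠ n in atTop, ∀ y ∈ Ioo (0:ℝ) η, |Hn n y - L| ≤ δ := by
  intro δ hδ
  have h1 := h (Metric.closedBall_mem_nhds L hδ)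
  have h2 : ∀ᶠ p : ℕ × ℝ in atTop ×ˢ 𝓝[>] (0:ℝ), |Hn p.1 p.2 - L| ≤ δ := by
    filter_upwards [h1] with p hp
    simpa [Real.dist_eq] using hp
  rw [eventually_prod_iff] at h2
  obtain ⟨pa, ha, pb, hb, hab⟩ := h2
  obtain ⟨η, hη, hsub⟩ := (mem_nhdsGT_iff_exists_Ioo_subset).mp hb
  exact ⟨η, hη, ha.mono fun n hn y hy => hab hn (hsub hy)⟩

lemma prod_right {Hn : ℕ → ℝ → ℝ} {L : ℝ}
    (h : Tendsto (fun p : ℕ × ℝ => Hn p.1 p.2) (atTop ×ˢ 𝓝[<] (1:ℝ)) (𝓝 L)) :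
    ∀ δ > 0, ∃ η > 0, ∀ᶠ n in atTop, ∀ y ∈ Ioo (1 - η:ℝ) 1, |Hn n y - L| ≤ δ := by
  intro δ hδ
  have h1 := h (Metric.closedBall_mem_nhds L hδ)
  have h2 : ∀ᶠ p : ℕ × ℝ in atTop ×ˢ 𝓝[<] (1:ℝ), |Hn p.1 p.2 - L| ≤ δ := by
    filter_upwards [h1] with p hp
    simpa [Real.dist_eq] using hp
  rw [eventually_prod_iff] at h2
  obtain ⟨pa, ha, pb, hb, hab⟩ := h2
  obtain ⟨η, hη, hsub⟩ := (mem_nhdsLT_iff_exists_Ioo_subset).mp hb
  have hη' : η < 1 := hη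
  refine ⟨1 - η, by linarith, ha.mono fun n hn y hy => hab hn (hsub ⟨?_, hy.2⟩)⟩
  have := hy.1
  linarith

noncomputable def sinf (ξ : ℝ) : ℂ := ((-1/2 : ℝ) : ℂ) + (ξ : ℂ) * Complex.I
noncomputable def af (ξ : ℝ) : ℂ := Complex.exp (sinf ξ * ((-(π / 2) : ℝ) : ℂ) * Complex.I)

lemma af_ne (ξ : ℝ) : af ξ ≠ 0 := Complex.exp_ne_zero _

lemma sn_tendsto (ξ : ℝ) : Tendsto (sn ξ) atTop (𝓝 (sinf ξ)) := by
  unfold sn sinf
  apply Tendsto.add_const
  have h : Tendsto (fun n => (-1/2 + ep n : ℝ)) atTop (𝓝 (-1/2)) := by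
    simpa using ep_tendsto.const_add (-1/2)
  exact (Complex.continuous_ofReal.tendsto _).comp h

lemma lin_tendsto_left : Tendsto (fun y : ℝ => ((π * y - π / 2 : ℝ) : ℂ)) (𝓝[>] (0:ℝ)) (𝓝 ((-(π / 2) : ℝ) : ℂ)) := by
  have hc : Continuous (fun y : ℝ => ((π * y - π / 2 : ℝ) : ℂ)) := by fun_prop
  have := hc.tendsto 0
  have e : ((π * 0 - π / 2 : ℝ) : ℂ) = ((-(π / 2) : ℝ) : ℂ) := by congr 1; ring
  rw [e] at this
  exact this.mono_left nhdsWithin_le_nhds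

lemma lin_tendsto_right : Tendsto (fun y : ℝ => ((π * y - π / 2 : ℝ) : ℂ)) (𝓝[<] (1:ℝ)) (𝓝 ((π / 2 : ℝ) : ℂ)) := by
  have hc : Continuous (fun y : ℝ => ((π * y - π / 2 : ℝ) : ℂ)) := by fun_prop
  have := hc.tendsto 1
  have e : ((π * 1 - π / 2 : ℝ) : ℂ) = ((π / 2 : ℝ) : ℂ) := by congr 1; ring
  rw [e] at this
  exact this.mono_left nhdsWithin_le_nhds

lemma Af_left (ξ : ℝ) : Tendsto (fun p : ℕ × ℝ => Af ξ p.1 p.2) (atTop ×ˢ 𝓝[>] (0:ℝ)) (𝓝 (af ξ)) := by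
  unfold Af af
  apply (Complex.continuous_exp.tendsto _).comp
  exact (((sn_tendsto ξ).comp tendsto_fst).mul (lin_tendsto_left.comp tendsto_snd)).mul_const _

lemma Af_right (ξ : ℝ) : Tendsto (fun p : ℕ × ℝ => Af ξ p.1 p.2) (atTop ×ˢ 𝓝[<] (1:ℝ)) (𝓝 (af ξ)⁻¹) := by
  unfold Af af
  rw [← Complex.exp_neg]
  apply (Complex.continuous_exp.tendsto _).comp
  have e : -(sinf ξ * ((-(π / 2) : ℝ) : ℂ) * Complex.I) = sinf ξ * ((π / 2 : ℝ) : ℂ) * Complex.I := by push_cast; ring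
  rw [e]
  exact (((sn_tendsto ξ).comp (tendsto_fst (g := 𝓝[<] (1:ℝ)))).mul (lin_tendsto_right.comp tendsto_snd)).mul_const Complex.I

lemma ez_zero : ez 0 = 1 := by simp [ez]
lemma ez_one : ez 1 = 1 := by
  unfold ez
  rw [Complex.ofReal_one, mul_one, Complex.exp_two_pi_mul_I]

lemma Bf_left (ξ : ℝ) : Tendsto (fun p : ℕ × ℝ => Bf ξ p.1 p.2) (atTop ×ˢ 𝓝[>] (0:ℝ)) (𝓝 (af ξ)⁻¹) := by
  unfold Bf af
  rw [← Complex.exp_neg, ← one_mul (Complex.exp (-_))]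
  apply Tendsto.mul
  · have h : Tendsto (fun y => conj (ez y)) (𝓝[>] (0:ℝ)) (𝓝 1) := by
      have := (Complex.continuous_conj.comp ez_cont).tendsto 0
      simp only [Function.comp_apply, ez_zero, map_one] at this
      exact this.mono_left nhdsWithin_le_nhds
    exact h.comp tendsto_snd
  · apply (Complex.continuous_exp.tendsto _).comp
    exact ((((sn_tendsto ξ).comp tendsto_fst).mul (lin_tendsto_left.comp tendsto_snd)).mul_const _).neg

lemma Bf_right (ξ : ℝ) : Tendsto (fun p : ℕ × ℝ => Bf ξ p.1 p.2) (atTop ×ˢ 𝓝[<] (1:ℝ)) (𝓝 (af ξ)) := by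
  unfold Bf af
  rw [← one_mul (Complex.exp _)]
  apply Tendsto.mul
  · have h : Tendsto (fun y => conj (ez y)) (𝓝[<] (1:ℝ)) (𝓝 1) := by
      have := (Complex.continuous_conj.comp ez_cont).tendsto 1
      simp only [Function.comp_apply, ez_one, map_one] at this
      exact this.mono_left nhdsWithin_le_nhds
    exact h.comp tendsto_snd
  · apply (Complex.continuous_exp.tendsto _).comp
    have e : sinf ξ * ((-(π / 2) : ℝ) : ℂ) * Complex.I = -(sinf ξ * ((π / 2 : ℝ) : ℂ) * Complex.I) := by push_cast; ring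
    rw [e]
    exact ((((sn_tendsto ξ).comp (tendsto_fst (g := 𝓝[<] (1:ℝ)))).mul (lin_tendsto_right.comp tendsto_snd)).mul_const Complex.I).neg

/-- the local form -/
noncomputable def hform (Γ Δ φ ψ a : ℂ) : ℝ := ((Γ * (φ * a) + Δ * (ψ * a⁻¹)) * conj (φ * a + ψ * a⁻¹)).re

lemma par_left (x0 : ℝ) : Tendsto (fun y : ℝ => x0 + y) (𝓝[>] (0:ℝ)) (𝓝[>] x0) := by
  rw [tendsto_nhdsWithin_iff]
  constructor
  · have : Tendsto (fun y : ℝ => x0 + y) (𝓝 0) (𝓝 (x0 + 0)) := (continuous_const.add continuous_id).tendsto 0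
    rw [add_zero] at this
    exact this.mono_left nhdsWithin_le_nhds
  · filter_upwards [self_mem_nhdsWithin] with y hy
    have : (0:ℝ) < y := hy
    change x0 < x0 + y
    linarith

lemma par_right (x0 : ℝ) : Tendsto (fun y : ℝ => x0 + y - 1) (𝓝[<] (1:ℝ)) (𝓝[<] x0) := by
  rw [tendsto_nhdsWithin_iff]
  constructor
  · have : Tendsto (fun y : ℝ => x0 + y - 1) (𝓝 1) (𝓝 (x0 + 1 - 1)) :=
      ((continuous_const.add continuous_id).sub continuous_const).tendsto 1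
    rw [add_sub_cancel_right] at this
    exact this.mono_left nhdsWithin_le_nhds
  · filter_upwards [self_mem_nhdsWithin] with y hy
    have : y < (1:ℝ) := hy
    change x0 + y - 1 < x0
    linarith

lemma par_eq (x0 y : ℝ) : par x0 y = ((x0 + y - 1 : ℝ) : C1) := by
  unfold par
  have : (x0 + y : ℝ) = (x0 + y - 1) + 1 := by ring
  conv_lhs => rw [this]
  exact AddCircle.coe_add_period 1 (x0 + y - 1)

section
variable {S : H →L[ℂ] H} (hS : ∀ n : ℤ, S (fourierLp (T := (1:ℝ)) 2 n) =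
        (if 0 ≤ n then (1:ℂ) else -1) • fourierLp (T := (1:ℝ)) 2 n)
include hS

lemma lim_form {Γ Δ : C1 → ℂ} (hΓ : PC Γ) (hΔ : PC Δ) {Y : H →L[ℂ] H}
    (hY : ∀ u : H, (Y u : C1 → ℂ) =ᵐ[mu] fun t => Γ t * (PP S u) t + Δ t * (QQ S u) t)
    (x0 ξ : ℝ) (φ ψ : ℂ) {Γp Γm Δp Δm : ℂ}
    (h1 : Tendsto (fun s : ℝ => Γ (s : C1)) (𝓝[>] x0) (𝓝 Γp))
    (h2 : Tendsto (fun s : ℝ => Γ (s : C1)) (𝓝[<] x0) (𝓝 Γm))
    (h3 : Tendsto (fun s : ℝ => Δ (s : C1)) (𝓝[>] x0) (𝓝 Δp))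
    (h4 : Tendsto (fun s : ℝ => Δ (s : C1)) (𝓝[<] x0) (𝓝 Δm)) :
    Tendsto (fun n => (⟪Y (vv x0 ξ φ ψ n), vv x0 ξ φ ψ n⟫_ℂ).re / Wt n) atTop
      (𝓝 ((hform Γp Δp φ ψ (af ξ) + hform Γm Δm φ ψ (af ξ)⁻¹) / 2)) := by
  obtain ⟨CΓ, hCΓ0, hCΓ⟩ := hΓ.bdd
  obtain ⟨CΔ, hCΔ0, hCΔ⟩ := hΔ.bdd
  let Hn : ℕ → ℝ → ℝ := fun n y => ((Γ (par x0 y) * (φ * Af ξ n y) + Δ (par x0 y) * (ψ * Bf ξ n y)) *
    conj (φ * Af ξ n y + ψ * Bf ξ n y)).re
  have hAmeas : ∀ n, Measurable (Af ξ n) := fun n => (by unfold Af; fun_prop : Continuous (Af ξ n)).measurable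
  have hBmeas : ∀ n, Measurable (Bf ξ n) := fun n => by
    have : Continuous (Bf ξ n) := by
      unfold Bf
      exact (Complex.continuous_conj.comp ez_cont).mul (by fun_prop)
    exact this.measurable
  have hpar : Measurable (par x0) := (mp x0).measurable
  have hHmeas : ∀ n, Measurable (Hn n) := by
    intro n
    have hA := hAmeas n
    have hB := hBmeas n
    have hG := hΓ.measurable.comp hpar
    have hD := hΔ.measurable.comp hpar
    have hv : Measurable fun y => φ * Af ξ n y + ψ * Bf ξ n y := (hA.const_mul φ).add (hB.const_mul ψ)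
    exact Complex.measurable_re.comp (((hG.mul (hA.const_mul φ)).add (hD.mul (hB.const_mul ψ))).mul
      (Complex.continuous_conj.measurable.comp hv))
  have hkey : ∀ n, (⟪Y (vv x0 ξ φ ψ n), vv x0 ξ φ ψ n⟫_ℂ).re = ∫ y in Ioo (0:ℝ) 1, Hn n y * wt n y := by
    intro n
    rw [inner_re_eq]
    have hPv : PP S (vv x0 ξ φ ψ n) = φ • FF x0 ξ n := by
      rw [vv, map_add, map_smul, map_smul, PP_FF hS, PP_GG hS, smul_zero, add_zero]
    have hQv : QQ S (vv x0 ξ φ ψ n) = ψ • GG x0 ξ n := by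
      rw [vv, map_add, map_smul, map_smul, QQ_FF hS, QQ_GG hS, smul_zero, zero_add]
    have e1 : ∫ t, ((Y (vv x0 ξ φ ψ n)) t * conj ((vv x0 ξ φ ψ n) t)).re ∂mu =
        ∫ t, ((Γ t * (φ * Ff x0 ξ n t) + Δ t * (ψ * Gf x0 ξ n t)) * conj (φ * Ff x0 ξ n t + ψ * Gf x0 ξ n t)).re ∂mu := by
      apply integral_congr_ae
      have hY' := hY (vv x0 ξ φ ψ n)
      rw [hPv, hQv] at hY'
      filter_upwards [hY', vv_ae x0 ξ φ ψ n, Lp.coeFn_smul φ (FF x0 ξ n), Lp.coeFn_smul ψ (GG x0 ξ n),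
        (Ff_memLp x0 ξ n).coeFn_toLp, (Gf_memLp x0 ξ n).coeFn_toLp] with t a1 a2 a3 a4 a5 a6
      rw [a1, a2, a3, a4, Pi.smul_apply, Pi.smul_apply, smul_eq_mul, smul_eq_mul]
      have b5 : (FF x0 ξ n) t = Ff x0 ξ n t := a5
      have b6 : (GG x0 ξ n) t = Gf x0 ξ n t := a6
      rw [b5, b6]
    rw [e1, integral_par x0]
    · apply setIntegral_congr_fun measurableSet_Ioo
      intro y hy
      simp only [Hn]
      rw [Ff_par x0 ξ n hy, Gf_par x0 ξ n hy, ← norm_sg_sq ξ n hy, ← Complex.normSq_eq_norm_sq]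
      set σ := (sg2 y : ℂ) ^ (sn ξ n)
      have : (Γ (par x0 y) * (φ * (σ * Af ξ n y)) + Δ (par x0 y) * (ψ * (σ * Bf ξ n y))) *
          conj (φ * (σ * Af ξ n y) + ψ * (σ * Bf ξ n y)) =
          ((Γ (par x0 y) * (φ * Af ξ n y) + Δ (par x0 y) * (ψ * Bf ξ n y)) *
            conj (φ * Af ξ n y + ψ * Bf ξ n y)) * ((Complex.normSq σ : ℝ) : ℂ) := by
        rw [← Complex.mul_conj]
        simp only [map_add, map_mul]
        ring
      rw [this, Complex.re_mul_ofReal]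
    · have hF := Ff_meas x0 ξ n
      have hG := Gf_meas x0 ξ n
      have hv : Measurable fun t => φ * Ff x0 ξ n t + ψ * Gf x0 ξ n t := (hF.const_mul φ).add (hG.const_mul ψ)
      exact (Complex.measurable_re.comp (((hΓ.measurable.mul (hF.const_mul φ)).add (hΔ.measurable.mul (hG.const_mul ψ))).mul
        (Complex.continuous_conj.measurable.comp hv))).aestronglyMeasurable
  simp_rw [hkey]
  have hcont : ∀ {fl : Filter (ℕ × ℝ)} {G0 D0 A0 B0 : ℂ}, Tendsto (fun p : ℕ × ℝ => Γ (par x0 p.2)) fl (𝓝 G0) →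
      Tendsto (fun p : ℕ × ℝ => Δ (par x0 p.2)) fl (𝓝 D0) → Tendsto (fun p : ℕ × ℝ => Af ξ p.1 p.2) fl (𝓝 A0) →
      Tendsto (fun p : ℕ × ℝ => Bf ξ p.1 p.2) fl (𝓝 B0) →
      Tendsto (fun p : ℕ × ℝ => Hn p.1 p.2) fl (𝓝 ((G0 * (φ * A0) + D0 * (ψ * B0)) * conj (φ * A0 + ψ * B0)).re) := by
    intro fl G0 D0 A0 B0 a1 a2 a3 a4
    exact (Complex.continuous_re.tendsto _).comp (((a1.mul (a3.const_mul φ)).add (a2.mul (a4.const_mul ψ))).mul
      ((Complex.continuous_conj.tendsto _).comp ((a3.const_mul φ).add (a4.const_mul ψ))))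
  apply conc (B := ((CΓ * (‖φ‖ * Real.exp (π * |ξ|)) + CΔ * (‖ψ‖ * Real.exp (π * |ξ|))) *
      ((‖φ‖ + ‖ψ‖) * Real.exp (π * |ξ|))))
  · intro n; exact (hHmeas n).aestronglyMeasurable
  · intro n y hy
    refine (Complex.abs_re_le_norm _).trans ?_
    rw [norm_mul, RCLike.norm_conj]
    apply mul_le_mul _ (norm_vl ξ φ ψ n hy) (norm_nonneg _) (by positivity)
    calc ‖Γ (par x0 y) * (φ * Af ξ n y) + Δ (par x0 y) * (ψ * Bf ξ n y)‖ ≤
          ‖Γ (par x0 y)‖ * (‖φ‖ * ‖Af ξ n y‖) + ‖Δ (par x0 y)‖ * (‖ψ‖ * ‖Bf ξ n y‖) := by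
          rw [← norm_mul, ← norm_mul, ← norm_mul, ← norm_mul]; exact norm_add_le _ _
      _ ≤ _ := by
        gcongr
        · exact hCΓ _
        · exact norm_Af ξ n hy
        · exact hCΔ _
        · exact norm_Bf ξ n hy
  · apply prod_left
    have := hcont (fl := atTop ×ˢ 𝓝[>] (0:ℝ)) ((h1.comp (par_left x0)).comp tendsto_snd) ((h3.comp (par_left x0)).comp tendsto_snd)
      (Af_left ξ) (Bf_left ξ)
    exact this
  · apply prod_right
    have e1 : Tendsto (fun y => Γ (par x0 y)) (𝓝[<] (1:ℝ)) (𝓝 Γm) := by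
      have := h2.comp (par_right x0)
      refine this.congr fun y => ?_
      rw [par_eq]; rfl
    have e2 : Tendsto (fun y => Δ (par x0 y)) (𝓝[<] (1:ℝ)) (𝓝 Δm) := by
      have := h4.comp (par_right x0)
      refine this.congr fun y => ?_
      rw [par_eq]; rfl
    have := hcont (fl := atTop ×ˢ 𝓝[<] (1:ℝ)) (e1.comp tendsto_snd) (e2.comp tendsto_snd) (Af_right ξ) (Bf_right ξ)
    unfold hform
    rw [inv_inv]
    exact this


omit hS in
lemma one_form (u : H) : ((1 : H →L[ℂ] H) u : C1 → ℂ) =ᵐ[mu] fun t => (1:ℂ) * (PP S u) t + (1:ℂ) * (QQ S u) t := by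
  have hu : u = PP S u + QQ S u := by
    have := congrArg (fun B : H →L[ℂ] H => B u) (PP_add_QQ S)
    simpa using this.symm
  have h1 := Lp.coeFn_add (PP S u) (QQ S u)
  rw [← hu] at h1
  filter_upwards [h1] with t ht
  rw [one_apply_eq_self, ht, Pi.add_apply, one_mul, one_mul]

lemma lim_norm (x0 ξ : ℝ) (φ ψ : ℂ) :
    Tendsto (fun n => ‖vv x0 ξ φ ψ n‖ ^ 2 / Wt n) atTop
      (𝓝 ((hform 1 1 φ ψ (af ξ) + hform 1 1 φ ψ (af ξ)⁻¹) / 2)) := by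
  have h := lim_form hS (PC.of_continuous (continuous_const (y := (1:ℂ)))) (PC.of_continuous (continuous_const (y := (1:ℂ))))
    (Y := 1) (one_form (S := S)) x0 ξ φ ψ tendsto_const_nhds tendsto_const_nhds tendsto_const_nhds tendsto_const_nhds
  refine h.congr fun n => ?_
  rw [one_apply_eq_self, inner_self_eq_norm_sq_to_K]
  norm_cast

end

/-- pairing with the basis is bounded -/
lemma inner_bd (x0 ξ : ℝ) (φ ψ : ℂ) : ∃ C : ℝ, ∀ (n : ℕ) (m : ℤ), ‖⟪(fourierLp (T := (1:ℝ)) 2 m : H), vv x0 ξ φ ψ n⟫_ℂ‖ ≤ C := by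
  refine ⟨∫ y in Ioo (0:ℝ) 1, (1 + sg2 y ^ (-1/2 : ℝ)) * ((‖φ‖ + ‖ψ‖) * Real.exp (π * |ξ|)), fun n m => ?_⟩
  rw [inner_eq]
  refine (norm_integral_le_integral_norm _).trans ?_
  have e1 : ∫ t, ‖conj ((fourierLp (T := (1:ℝ)) 2 m : H) t) * (vv x0 ξ φ ψ n) t‖ ∂mu =
      ∫ t, ‖φ * Ff x0 ξ n t + ψ * Gf x0 ξ n t‖ ∂mu := by
    apply integral_congr_ae
    filter_upwards [coeFn_fourierLp (T := (1:ℝ)) 2 m, vv_ae x0 ξ φ ψ n] with t h1 h2
    rw [h1, h2, norm_mul, RCLike.norm_conj, fourier_apply, Circle.norm_coe, one_mul]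
  have hmeas : Measurable fun t => ‖φ * Ff x0 ξ n t + ψ * Gf x0 ξ n t‖ :=
    (((Ff_meas x0 ξ n).const_mul φ).add ((Gf_meas x0 ξ n).const_mul ψ)).norm
  rw [e1, integral_par x0 hmeas.aestronglyMeasurable]
  have hI : IntegrableOn (fun y => (1 + sg2 y ^ (-1/2 : ℝ)) * ((‖φ‖ + ‖ψ‖) * Real.exp (π * |ξ|))) (Ioo 0 1) :=
    ((integrableOn_const (by simp)).add (sg2_rpow_int (by norm_num) (by norm_num))).mul_const _
  have hb : ∀ y ∈ Ioo (0:ℝ) 1, ‖φ * Ff x0 ξ n (par x0 y) + ψ * Gf x0 ξ n (par x0 y)‖ ≤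
      (1 + sg2 y ^ (-1/2 : ℝ)) * ((‖φ‖ + ‖ψ‖) * Real.exp (π * |ξ|)) := by
    intro y hy
    rw [Ff_par x0 ξ n hy, Gf_par x0 ξ n hy]
    have e2 : φ * ((sg2 y : ℂ) ^ (sn ξ n) * Af ξ n y) + ψ * ((sg2 y : ℂ) ^ (sn ξ n) * Bf ξ n y) =
        (sg2 y : ℂ) ^ (sn ξ n) * vl ξ φ ψ n y := by
      unfold vl; ring
    rw [e2, norm_mul, Complex.norm_cpow_eq_rpow_re_of_pos (sg2_pos hy), sn_re]
    apply mul_le_mul _ (norm_vl ξ φ ψ n hy) (norm_nonneg _)
    · have := Real.rpow_nonneg (sg2_pos hy).le (-1/2 : ℝ)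
      linarith
    · have h0 := Real.rpow_nonneg (sg2_pos hy).le (-1/2 : ℝ)
      rcases le_total 1 (sg2 y) with h | h
      · have := Real.rpow_le_one_of_one_le_of_nonpos h (by linarith [ep_le n] : -1/2 + ep n ≤ 0)
        linarith
      · have := Real.rpow_le_rpow_of_exponent_ge (sg2_pos hy) h (by linarith [ep_pos n] : (-1/2:ℝ) ≤ -1/2 + ep n)
        linarith
  apply setIntegral_mono_on _ hI measurableSet_Ioo hb
  refine hI.mono' (hmeas.comp (mp x0).measurable).aestronglyMeasurable ?_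
  filter_upwards [self_mem_ae_restrict measurableSet_Ioo] with y hy
  rw [Real.norm_eq_abs, abs_of_nonneg (norm_nonneg _)]
  exact hb y hy

/-- compact operators kill bounded sequences that are null on the basis -/
lemma compact_null {K : H →L[ℂ] H} (hK : IsCompactOperator K) {u : ℕ → H} {C : ℝ} (hb : ∀ n, ‖u n‖ ≤ C)
    (hn : ∀ m : ℤ, Tendsto (fun n => ⟪(fourierLp (T := (1:ℝ)) 2 m : H), u n⟫_ℂ) atTop (𝓝 0)) :
    Tendsto (fun n => K (u n)) atTop (𝓝 0) := by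
  -- weak convergence against all vectors
  have hweak : ∀ y : H, Tendsto (fun n => ⟪y, u n⟫_ℂ) atTop (𝓝 0) := by
    intro y
    have hy : y ∈ (Submodule.span ℂ (Set.range (fourierLp (T := (1:ℝ)) 2))).topologicalClosure := by
      rw [span_fourierLp_closure_eq_top (T := (1:ℝ)) (p := 2) (by simp)]
      exact Submodule.mem_top
    have hspan : ∀ z ∈ Submodule.span ℂ (Set.range (fourierLp (T := (1:ℝ)) 2)), Tendsto (fun n => ⟪z, u n⟫_ℂ) atTop (𝓝 0) := by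
      intro z hz
      induction hz using Submodule.span_induction with
      | mem x hx =>
        obtain ⟨m, rfl⟩ := hx
        exact hn m
      | zero => simp
      | add x y _ _ hx hy =>
        have := hx.add hy
        rw [add_zero] at this
        refine this.congr fun n => ?_
        rw [inner_add_left]
      | smul c x _ hx =>
        have := hx.const_mul (conj c)
        rw [mul_zero] at this
        refine this.congr fun n => ?_
        rw [inner_smul_left]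
    rw [Metric.tendsto_nhds]
    intro ε hε
    have hC0 : 0 ≤ C := (norm_nonneg _).trans (hb 0)
    have hy' : y ∈ closure ((Submodule.span ℂ (Set.range (fourierLp (T := (1:ℝ)) 2)) : Submodule ℂ H) : Set H) := hy
    obtain ⟨z, hz, hyz⟩ := Metric.mem_closure_iff.mp hy' (ε / (2 * (C + 1))) (by positivity)
    have h1 := (Metric.tendsto_nhds.mp (hspan z hz)) (ε / 2) (by positivity)
    filter_upwards [h1] with n h1
    rw [dist_zero_right] at h1 ⊢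
    have e : ⟪y, u n⟫_ℂ = ⟪y - z, u n⟫_ℂ + ⟪z, u n⟫_ℂ := by rw [inner_sub_left]; ring
    rw [e]
    calc ‖⟪y - z, u n⟫_ℂ + ⟪z, u n⟫_ℂ‖ ≤ ‖y - z‖ * ‖u n‖ + ‖⟪z, u n⟫_ℂ‖ :=
          (norm_add_le _ _).trans (by gcongr; exact norm_inner_le_norm _ _)
      _ ≤ ε / (2 * (C + 1)) * (C + 1) + ‖⟪z, u n⟫_ℂ‖ := by
          gcongr
          · rw [← dist_eq_norm]; exact hyz.le
          · linarith [hb n]
      _ < ε := by
          have : ε / (2 * (C + 1)) * (C + 1) = ε / 2 := by field_simp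
          rw [this]; linarith
  apply tendsto_of_subseq_tendsto
  intro ns hns
  have hcpt : IsCompact (closure (K '' Metric.closedBall 0 C)) := hK.isCompact_closure_image_closedBall C
  have hmem : ∀ n, K (u (ns n)) ∈ closure (K '' Metric.closedBall 0 C) := fun n =>
    subset_closure ⟨u (ns n), by simpa using hb (ns n), rfl⟩
  obtain ⟨y, _, ms, hms, hlim⟩ := hcpt.tendsto_subseq hmem
  refine ⟨ms, ?_⟩
  have h1 : Tendsto (fun k => ⟪y, K (u (ns (ms k)))⟫_ℂ) atTop (𝓝 ⟪y, y⟫_ℂ) :=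
    (continuous_const.inner continuous_id).tendsto y |>.comp hlim
  have h2 : Tendsto (fun k => ⟪y, K (u (ns (ms k)))⟫_ℂ) atTop (𝓝 0) := by
    have := ((hweak (ContinuousLinearMap.adjoint K y)).comp hns).comp hms.tendsto_atTop
    refine this.congr fun k => ?_
    simp only [Function.comp_apply]
    rw [ContinuousLinearMap.adjoint_inner_left]
  have h3 : ⟪y, y⟫_ℂ = 0 := tendsto_nhds_unique h1 h2
  have h4 : y = 0 := inner_self_eq_zero.mp h3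
  rw [← h4]
  exact hlim

section
variable {S : H →L[ℂ] H} (hS : ∀ n : ℤ, S (fourierLp (T := (1:ℝ)) 2 n) =
        (if 0 ≤ n then (1:ℂ) else -1) • fourierLp (T := (1:ℝ)) 2 n)
include hS

lemma lim_compact {K : H →L[ℂ] H} (hK : IsCompactOperator K) (x0 ξ : ℝ) (φ ψ : ℂ) :
    Tendsto (fun n => (⟪K (vv x0 ξ φ ψ n), vv x0 ξ φ ψ n⟫_ℂ).re / Wt n) atTop (𝓝 0) := by
  set v := vv x0 ξ φ ψ with hv
  let u : ℕ → H := fun n => (((Real.sqrt (Wt n))⁻¹ : ℝ) : ℂ) • v n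
  have hWpos := Wt_pos
  have hsq : ∀ n, 0 < Real.sqrt (Wt n) := fun n => Real.sqrt_pos.mpr (hWpos n)
  have hnu : ∀ n, ‖u n‖ ^ 2 = ‖v n‖ ^ 2 / Wt n := by
    intro n
    simp only [u]
    rw [norm_smul, Complex.norm_real, Real.norm_eq_abs, abs_of_pos (inv_pos.mpr (hsq n)), mul_pow, inv_pow,
      Real.sq_sqrt (hWpos n).le]
    field_simp
  have hlim := lim_norm hS x0 ξ φ ψ
  obtain ⟨C, hC⟩ := hlim.bddAbove_range
  have hb : ∀ n, ‖u n‖ ≤ Real.sqrt C := by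
    intro n
    apply Real.le_sqrt_of_sq_le
    rw [hnu]
    exact hC ⟨n, rfl⟩
  obtain ⟨C', hC'⟩ := inner_bd x0 ξ φ ψ
  have hn : ∀ m : ℤ, Tendsto (fun n => ⟪(fourierLp (T := (1:ℝ)) 2 m : H), u n⟫_ℂ) atTop (𝓝 0) := by
    intro m
    rw [tendsto_zero_iff_norm_tendsto_zero]
    have hsqt : Tendsto (fun n => C' / Real.sqrt (Wt n)) atTop (𝓝 0) :=
      Tendsto.div_atTop tendsto_const_nhds (Real.tendsto_sqrt_atTop.comp Wt_tendsto)
    apply squeeze_zero (fun n => norm_nonneg _) (fun n => ?_) hsqt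
    simp only [u]
    rw [inner_smul_right, norm_mul, Complex.norm_real, Real.norm_eq_abs, abs_of_pos (inv_pos.mpr (hsq n)), div_eq_inv_mul]
    exact mul_le_mul_of_nonneg_left (hC' n m) (inv_pos.mpr (hsq n)).le
  have hKu := compact_null hK hb hn
  rw [tendsto_zero_iff_norm_tendsto_zero] at hKu ⊢
  have hm := hKu.mul_const (Real.sqrt C)
  rw [zero_mul] at hm
  apply squeeze_zero (fun n => norm_nonneg _) (fun n => ?_) hm
  have e : (⟪K (v n), v n⟫_ℂ).re / Wt n = (⟪K (u n), u n⟫_ℂ).re := by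
    simp only [u]
    rw [map_smul, inner_smul_left, inner_smul_right, Complex.conj_ofReal, ← mul_assoc, ← Complex.ofReal_mul, Complex.re_ofReal_mul,
      ← mul_inv, Real.mul_self_sqrt (hWpos n).le]
    field_simp
  rw [e, Real.norm_eq_abs]
  calc |(⟪K (u n), u n⟫_ℂ).re| ≤ ‖⟪K (u n), u n⟫_ℂ‖ := Complex.abs_re_le_norm _
    _ ≤ ‖K (u n)‖ * ‖u n‖ := norm_inner_le_norm _ _
    _ ≤ ‖K (u n)‖ * Real.sqrt C := by gcongr; exact hb n

/-- the local inequality -/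
lemma star {Γ Δ : C1 → ℂ} (hΓ : PC Γ) (hΔ : PC Δ) {Y K : H →L[ℂ] H} (hK : IsCompactOperator K) {γ : ℝ}
    (hY : ∀ u : H, (Y u : C1 → ℂ) =ᵐ[mu] fun t => Γ t * (PP S u) t + Δ t * (QQ S u) t)
    (hineq : ∀ u : H, γ * ‖u‖ ^ 2 ≤ (⟪Y u, u⟫_ℂ).re - (⟪K u, u⟫_ℂ).re)
    (x0 ξ : ℝ) (φ ψ : ℂ) {Γp Γm Δp Δm : ℂ}
    (h1 : Tendsto (fun s : ℝ => Γ (s : C1)) (𝓝[>] x0) (𝓝 Γp))
    (h2 : Tendsto (fun s : ℝ => Γ (s : C1)) (𝓝[<] x0) (𝓝 Γm))
    (h3 : Tendsto (fun s : ℝ => Δ (s : C1)) (𝓝[>] x0) (𝓝 Δp))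
    (h4 : Tendsto (fun s : ℝ => Δ (s : C1)) (𝓝[<] x0) (𝓝 Δm)) :
    γ * (hform 1 1 φ ψ (af ξ) + hform 1 1 φ ψ (af ξ)⁻¹) ≤
      hform Γp Δp φ ψ (af ξ) + hform Γm Δm φ ψ (af ξ)⁻¹ := by
  have l1 := (lim_norm hS x0 ξ φ ψ).const_mul γ
  have l2 := (lim_form hS hΓ hΔ hY x0 ξ φ ψ h1 h2 h3 h4).sub (lim_compact hS hK x0 ξ φ ψ)
  have := le_of_tendsto_of_tendsto' l1 l2 (fun n => by
    have h := hineq (vv x0 ξ φ ψ n)
    have hW := Wt_pos n
    rw [← sub_div, mul_div_assoc', div_le_div_iff_of_pos_right hW]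
    exact h)
  linarith

end

end Pool.Agent.Colloc
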