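import Pool.Agent.H0.Colloc.Mul
import Mathlib

set_option autoImplicit false
open MeasureTheory Filter Topology Set
open scoped ENNReal ComplexConjugate

namespace Pool.Agent.Colloc

def PC (f : C1 → ℂ) : Prop :=
  ∀ x : ℝ, (∃ l : ℂ, Tendsto (fun s : ℝ => f (↑s : AddCircle (1:ℝ))) (𝓝[<] x) (𝓝 l)) ∧
      (∃ r : ℂ, Tendsto (fun s : ℝ => f (↑s : AddCircle (1:ℝ))) (𝓝[>] x) (𝓝 r))

lemma ev_coe {x : ℝ} {p : C1 → Prop} (h : ∀ᶠ s in 𝓝 x, p ((s : ℝ) : C1)) : ∀ᶠ t in 𝓝 (x : C1), p t := by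
  have : 𝓝 (x : C1) = map (fun s : ℝ => (s : C1)) (𝓝 x) := QuotientAddGroup.nhds_eq _ x
  rw [this, eventually_map]
  exact h

lemma ev_punct_coe {x : ℝ} {p : C1 → Prop} (h : ∀ᶠ s in 𝓝[≠] x, p ((s : ℝ) : C1)) :
    ∀ᶠ t in 𝓝[≠] (x : C1), p t := by
  rw [eventually_nhdsWithin_iff] at h ⊢
  apply ev_coe
  filter_upwards [h] with s hs hne
  exact hs (fun h => hne (by rw [h]; rfl))

lemma coe_tendsto_punct (x : ℝ) : Tendsto (fun s : ℝ => (s : C1)) (𝓝[≠] x) (𝓝[≠] (x : C1)) := by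
  rw [tendsto_nhdsWithin_iff]
  constructor
  · exact ((AddCircle.continuous_mk' 1).tendsto x).mono_left nhdsWithin_le_nhds
  · have h1 : ∀ᶠ s in 𝓝[≠] x, s ∈ Ioo (x - 1) (x + 1) :=
      nhdsWithin_le_nhds (Ioo_mem_nhds (by linarith) (by linarith))
    filter_upwards [h1, self_mem_nhdsWithin] with s hs hne h
    apply hne
    have h2 : ((s : ℝ) : C1) = ((x : ℝ) : C1) := h
    rw [AddCircle.coe_eq_coe_iff_of_mem_Ico (a := min s x) (p := 1)] at h2
    · exact h2
    · constructor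
      · exact min_le_left _ _
      · rcases min_cases s x with h | h <;> linarith [hs.1, hs.2]
    · constructor
      · exact min_le_right _ _
      · rcases min_cases s x with h | h <;> linarith [hs.1, hs.2]

lemma coe_tendsto_left (x : ℝ) : Tendsto (fun s : ℝ => (s : C1)) (𝓝[<] x) (𝓝[≠] (x : C1)) :=
  (coe_tendsto_punct x).mono_left (nhdsWithin_mono x (fun _ h => ne_of_lt h))

lemma coe_tendsto_right (x : ℝ) : Tendsto (fun s : ℝ => (s : C1)) (𝓝[>] x) (𝓝[≠] (x : C1)) :=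
  (coe_tendsto_punct x).mono_left (nhdsWithin_mono x (fun _ h => ne_of_gt h))

lemma ev_punct_of_sides {x : ℝ} {p : C1 → Prop} (h1 : ∀ᶠ s in 𝓝[<] x, p ((s : ℝ) : C1))
    (h2 : ∀ᶠ s in 𝓝[>] x, p ((s : ℝ) : C1)) : ∀ᶠ t in 𝓝[≠] (x : C1), p t := by
  apply ev_punct_coe
  rw [← nhdsLT_sup_nhdsGT]
  exact eventually_sup.mpr ⟨h1, h2⟩

lemma uniform_off_finite {Φ : ℝ → C1 → Prop} (hanti : ∀ ε ε' t, ε' ≤ ε → Φ ε t → Φ ε' t)
    (h : ∀ x : C1, ∃ ε > 0, ∀ᶠ t in 𝓝[≠] x, Φ ε t) :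
    ∃ ε > 0, ∃ F : Set C1, F.Finite ∧ ∀ t ∉ F, Φ ε t := by
  have key : ∃ ε > 0, ∃ F : Set C1, F.Finite ∧ ∀ t ∈ (univ : Set C1), t ∉ F → Φ ε t := by
    refine IsCompact.induction_on (p := fun s : Set C1 => ∃ ε > 0, ∃ F : Set C1, F.Finite ∧ ∀ t ∈ s, t ∉ F → Φ ε t)
      isCompact_univ ?_ ?_ ?_ ?_
    · exact ⟨1, one_pos, ∅, finite_empty, fun t ht => absurd ht (notMem_empty t)⟩
    · rintro s t hst ⟨ε, hε, F, hF, h⟩
      exact ⟨ε, hε, F, hF, fun u hu => h u (hst hu)⟩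
    · rintro s t ⟨ε, hε, F, hF, h⟩ ⟨ε', hε', F', hF', h'⟩
      refine ⟨min ε ε', lt_min hε hε', F ∪ F', hF.union hF', ?_⟩
      rintro u (hu | hu) hn
      · exact hanti _ _ _ (min_le_left _ _) (h u hu (fun h => hn (Or.inl h)))
      · exact hanti _ _ _ (min_le_right _ _) (h' u hu (fun h => hn (Or.inr h)))
    · intro x _
      obtain ⟨ε, hε, hx⟩ := h x
      rw [eventually_nhdsWithin_iff] at hx
      refine ⟨_, mem_nhdsWithin_of_mem_nhds hx, ε, hε, {x}, finite_singleton x, ?_⟩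
      intro t ht htx
      exact ht htx
  obtain ⟨ε, hε, F, hF, h⟩ := key
  exact ⟨ε, hε, F, hF, fun t ht => h t (mem_univ t) ht⟩

lemma PC.bdd {f : C1 → ℂ} (hf : PC f) : ∃ C : ℝ, 0 ≤ C ∧ ∀ t, ‖f t‖ ≤ C := by
  have key : ∃ C : ℝ, ∀ t ∈ (univ : Set C1), ‖f t‖ ≤ C := by
    refine IsCompact.induction_on (p := fun s : Set C1 => ∃ C : ℝ, ∀ t ∈ s, ‖f t‖ ≤ C)
      isCompact_univ ?_ ?_ ?_ ?_
    · exact ⟨0, fun t ht => absurd ht (notMem_empty t)⟩
    · rintro s t hst ⟨C, h⟩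
      exact ⟨C, fun u hu => h u (hst hu)⟩
    · rintro s t ⟨C, h⟩ ⟨C', h'⟩
      refine ⟨max C C', ?_⟩
      rintro u (hu | hu)
      · exact (h u hu).trans (le_max_left _ _)
      · exact (h' u hu).trans (le_max_right _ _)
    · intro x _
      obtain ⟨x, rfl⟩ := QuotientAddGroup.mk_surjective x
      obtain ⟨⟨l, hl⟩, r, hr⟩ := hf x
      have h1 : ∀ᶠ t in 𝓝[≠] (x : C1), ‖f t‖ ≤ max (‖l‖ + 1) (‖r‖ + 1) := by
        apply ev_punct_of_sides
        · filter_upwards [hl.norm.eventually_lt_const (show ‖l‖ < ‖l‖ + 1 by linarith)] with s hs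
          exact hs.le.trans (le_max_left _ _)
        · filter_upwards [hr.norm.eventually_lt_const (show ‖r‖ < ‖r‖ + 1 by linarith)] with s hs
          exact hs.le.trans (le_max_right _ _)
      rw [eventually_nhdsWithin_iff] at h1
      refine ⟨_, mem_nhdsWithin_of_mem_nhds h1, max (max (‖l‖ + 1) (‖r‖ + 1)) ‖f x‖, ?_⟩
      intro t ht
      by_cases htx : t = (x : C1)
      · subst htx; exact le_max_right _ _
      · exact (ht htx).trans (le_max_left _ _)
  obtain ⟨C, h⟩ := key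
  exact ⟨max C 0, le_max_right _ _, fun t => (h t (mem_univ t)).trans (le_max_left _ _)⟩

lemma PC.approx {f : C1 → ℂ} (hf : PC f) {ε : ℝ} (hε : 0 < ε) :
    ∃ g : C1 → ℂ, Measurable g ∧ ∀ t, dist (f t) (g t) ≤ ε := by
  classical
  have key : ∃ s' : Set C1, MeasurableSet s' ∧ (univ : Set C1) ⊆ s' ∧ ∃ g : C1 → ℂ, Measurable g ∧ ∀ t ∈ s', dist (f t) (g t) ≤ ε := by
    refine IsCompact.induction_on (p := fun s : Set C1 => ∃ s' : Set C1, MeasurableSet s' ∧ s ⊆ s' ∧
        ∃ g : C1 → ℂ, Measurable g ∧ ∀ t ∈ s', dist (f t) (g t) ≤ ε)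
      isCompact_univ ?_ ?_ ?_ ?_
    · exact ⟨∅, MeasurableSet.empty, subset_rfl, 0, measurable_const, fun t ht => absurd ht (notMem_empty t)⟩
    · rintro s t hst ⟨s', h1, h2, h3⟩
      exact ⟨s', h1, hst.trans h2, h3⟩
    · rintro s t ⟨s', h1, h2, g, hg, h3⟩ ⟨t', h1', h2', g', hg', h3'⟩
      refine ⟨s' ∪ t', h1.union h1', union_subset_union h2 h2', s'.piecewise g g', hg.piecewise h1 hg', ?_⟩
      intro u hu
      by_cases hus : u ∈ s'
      · rw [piecewise_eq_of_mem _ _ _ hus]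
        exact h3 u hus
      · rw [piecewise_eq_of_notMem _ _ _ hus]
        exact h3' u (hu.resolve_left hus)
    · intro x _
      obtain ⟨x, rfl⟩ := QuotientAddGroup.mk_surjective x
      obtain ⟨⟨l, hl⟩, r, hr⟩ := hf x
      have hl' : ∀ᶠ s in 𝓝[<] x, dist (f ((s : ℝ) : C1)) l ≤ ε := by
        filter_upwards [hl (Metric.closedBall_mem_nhds l hε)] with s hs using hs
      have hr' : ∀ᶠ s in 𝓝[>] x, dist (f ((s : ℝ) : C1)) r ≤ ε := by
        filter_upwards [hr (Metric.closedBall_mem_nhds r hε)] with s hs using hs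
      obtain ⟨a, ha, hal⟩ := (mem_nhdsLT_iff_exists_Ioo_subset).mp hl'
      obtain ⟨b, hb, hbr⟩ := (mem_nhdsGT_iff_exists_Ioo_subset).mp hr'
      have ha' : a < x := ha
      have hb' : x < b := hb
      have hop : IsOpenMap (fun s : ℝ => (s : C1)) := QuotientAddGroup.isOpenMap_coe
      refine ⟨(fun s : ℝ => (s : C1)) '' Ioo a b, mem_nhdsWithin_of_mem_nhds
          ((hop _ isOpen_Ioo).mem_nhds ⟨x, ⟨ha', hb'⟩, rfl⟩),
        (fun s : ℝ => (s : C1)) '' Ioo a b, (hop _ isOpen_Ioo).measurableSet, subset_rfl,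
        ((fun s : ℝ => (s : C1)) '' Ioo a x).piecewise (fun _ => l)
          (((fun s : ℝ => (s : C1)) '' Ioo x b).piecewise (fun _ => r) (fun _ => f x)), ?_, ?_⟩
      · exact Measurable.piecewise (hop _ isOpen_Ioo).measurableSet measurable_const
          (Measurable.piecewise (hop _ isOpen_Ioo).measurableSet measurable_const measurable_const)
      · rintro t ⟨s, hs, rfl⟩
        by_cases h1 : ((s : ℝ) : C1) ∈ (fun s : ℝ => (s : C1)) '' Ioo a x
        · rw [piecewise_eq_of_mem _ _ _ h1]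
          obtain ⟨s', hs', h⟩ := h1
          have h : ((s' : ℝ) : C1) = ((s : ℝ) : C1) := h
          have := hal hs'
          change dist _ _ ≤ ε at this
          change dist (f ((s : ℝ) : C1)) l ≤ ε
          rw [← h]; exact this
        · rw [piecewise_eq_of_notMem _ _ _ h1]
          by_cases h2 : ((s : ℝ) : C1) ∈ (fun s : ℝ => (s : C1)) '' Ioo x b
          · rw [piecewise_eq_of_mem _ _ _ h2]
            obtain ⟨s', hs', h⟩ := h2
            have h : ((s' : ℝ) : C1) = ((s : ℝ) : C1) := h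
            have := hbr hs'
            change dist _ _ ≤ ε at this
            change dist (f ((s : ℝ) : C1)) r ≤ ε
            rw [← h]; exact this
          · rw [piecewise_eq_of_notMem _ _ _ h2]
            have : s = x := by
              rcases lt_trichotomy s x with h | h | h
              · exact absurd ⟨s, ⟨hs.1, h⟩, rfl⟩ h1
              · exact h
              · exact absurd ⟨s, ⟨h, hs.2⟩, rfl⟩ h2
            subst this
            simp [hε.le]
  obtain ⟨s', _, h2, g, hg, h3⟩ := key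
  exact ⟨g, hg, fun t => h3 t (h2 (mem_univ t))⟩

lemma PC.measurable {f : C1 → ℂ} (hf : PC f) : Measurable f := by
  choose g hg hd using fun n : ℕ => hf.approx (ε := 1 / ((n : ℝ) + 1)) (by positivity)
  apply measurable_of_tendsto_metrizable hg
  rw [tendsto_pi_nhds]
  intro t
  rw [tendsto_iff_dist_tendsto_zero]
  apply squeeze_zero (fun n => dist_nonneg) (fun n => ?_) tendsto_one_div_add_atTop_nhds_zero_nat
  rw [dist_comm]
  exact hd n t

lemma finite_null {F : Set C1} (hF : F.Finite) : mu F = 0 := by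
  have : (𝓝[≠] (0 : C1)).NeBot := (coe_tendsto_punct 0).neBot
  have : NullSingletonClass mu := Measure.IsAddHaarMeasure.nullSingletonClass mu
  exact hF.measure_zero mu

lemma ae_of_off_finite {p : C1 → Prop} {F : Set C1} (hF : F.Finite) (h : ∀ t ∉ F, p t) :
    ∀ᵐ t ∂mu, p t := by
  have := measure_eq_zero_iff_ae_notMem.mp (finite_null hF)
  filter_upwards [this] with t ht using h t ht

end Pool.Agent.Colloc
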