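import Pool.Agent.H0.Colloc.Reg

set_option autoImplicit false
open MeasureTheory Filter Topology Set
open scoped ENNReal ComplexConjugate InnerProductSpace

namespace Pool.Agent.Colloc

lemma half_plane (z1 z2 z3 : ℂ) (h : ∀ μ ν : ℝ, 0 ≤ μ → μ ≤ 1 → 0 ≤ ν → ν ≤ 1 →
    (z1 * (μ : ℂ) + z2 * (1 - (μ : ℂ))) * (ν : ℂ) + z3 * (1 - (ν : ℂ)) ≠ 0) :
    ∃ κ : ℂ, 0 < (κ * z1).re ∧ 0 < (κ * z2).re ∧ 0 < (κ * z3).re := by
  have hK : (0 : ℂ) ∉ convexHull ℝ ({z3, z1, z2} : Set ℂ) := by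
    intro h0
    rw [convexHull_insert (by simp), mem_convexJoin] at h0
    obtain ⟨x, hx, y, hy, h0⟩ := h0
    rw [mem_singleton_iff] at hx
    subst hx
    rw [convexHull_pair] at hy
    obtain ⟨a, b, ha, hb, hab, rfl⟩ := hy
    obtain ⟨a', b', ha', hb', hab', h0⟩ := h0
    apply h a b' ha (by linarith) hb' (by linarith)
    have e1 : (1 : ℂ) - (a : ℂ) = (b : ℂ) := by rw [show b = 1 - a by linarith]; push_cast; ring
    have e2 : (1 : ℂ) - (b' : ℂ) = (a' : ℂ) := by rw [show a' = 1 - b' by linarith]; push_cast; ring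
    rw [e1, e2, ← h0]
    simp only [Complex.real_smul]
    ring
  obtain ⟨f, u, hf0, hf⟩ := geometric_hahn_banach_point_closed (convex_convexHull ℝ _)
    (((Set.toFinite ({z3, z1, z2} : Set ℂ)).isCompact_convexHull ℝ).isClosed) hK
  rw [map_zero] at hf0
  have hrep : ∀ z : ℂ, f z = (((f 1 : ℝ) - (f Complex.I : ℝ) * Complex.I : ℂ) * z).re := by
    intro z
    have : z = z.re • (1 : ℂ) + z.im • Complex.I := by
      simp [Complex.re_add_im]
    conv_lhs => rw [this]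
    rw [map_add, map_smul, map_smul]
    simp
    ring
  refine ⟨((f 1 : ℝ) - (f Complex.I : ℝ) * Complex.I : ℂ), ?_, ?_, ?_⟩
  · rw [← hrep]; exact hf0.trans (hf _ (subset_convexHull _ _ (by simp)))
  · rw [← hrep]; exact hf0.trans (hf _ (subset_convexHull _ _ (by simp)))
  · rw [← hrep]; exact hf0.trans (hf _ (subset_convexHull _ _ (by simp)))

/-- condition (3) -/
def Cond3 (c d : C1 → ℂ) : Prop :=
  ∀ x : ℝ, ∀ cp cm dp dm : ℂ,
    Tendsto (fun s : ℝ => c (↑s : AddCircle (1:ℝ))) (𝓝[>] x) (𝓝 cp) →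
    Tendsto (fun s : ℝ => c (↑s : AddCircle (1:ℝ))) (𝓝[<] x) (𝓝 cm) →
    Tendsto (fun s : ℝ => d (↑s : AddCircle (1:ℝ))) (𝓝[>] x) (𝓝 dp) →
    Tendsto (fun s : ℝ => d (↑s : AddCircle (1:ℝ))) (𝓝[<] x) (𝓝 dm) →
    ∀ μ ν : ℝ, 0 ≤ μ → μ ≤ 1 → 0 ≤ ν → ν ≤ 1 →
      (cp * dm * (μ : ℂ) + cm * dp * (1 - (μ : ℂ))) * (ν : ℂ) + dp * dm * (1 - (ν : ℂ)) ≠ 0

lemma local_kappa {c d : C1 → ℂ} (hc : PC c) (hd : PC d) (h3 : Cond3 c d) (x : C1) :
    ∃ κ : ℂ, 0 < κ.re ∧ ∃ δ > 0, ∀ᶠ s in 𝓝[≠] x, δ ≤ (κ * c s * conj (d s)).re := by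
  obtain ⟨x, rfl⟩ := QuotientAddGroup.mk_surjective x
  obtain ⟨⟨cm, hcm⟩, cp, hcp⟩ := hc x
  obtain ⟨⟨dm, hdm⟩, dp, hdp⟩ := hd x
  have h := h3 x cp cm dp dm hcp hcm hdp hdm
  have hd0 := h 0 0 le_rfl zero_le_one le_rfl zero_le_one
  simp only [Complex.ofReal_zero, mul_zero, sub_zero, mul_one, zero_add] at hd0
  have hdp0 : dp ≠ 0 := left_ne_zero_of_mul hd0
  have hdm0 : dm ≠ 0 := right_ne_zero_of_mul hd0
  obtain ⟨κ, h1, h2, h3'⟩ := half_plane (cp / dp) (cm / dm) 1 (by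
    intro μ ν a1 a2 a3 a4 h0
    apply h μ ν a1 a2 a3 a4
    have : (cp * dm * (μ : ℂ) + cm * dp * (1 - (μ : ℂ))) * (ν : ℂ) + dp * dm * (1 - (ν : ℂ)) =
      dp * dm * ((cp / dp * (μ : ℂ) + cm / dm * (1 - (μ : ℂ))) * (ν : ℂ) + 1 * (1 - (ν : ℂ))) := by
      field_simp
    rw [this, h0, mul_zero])
  have hpos : ∀ c d : ℂ, d ≠ 0 → 0 < (κ * (c / d)).re → 0 < (κ * c * conj d).re := by
    intro c d hd hpos
    have : κ * c * conj d = ((Complex.normSq d : ℝ) : ℂ) * (κ * (c / d)) := by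
      rw [← Complex.mul_conj]
      field_simp
    rw [this, Complex.re_ofReal_mul]
    exact mul_pos (Complex.normSq_pos.mpr hd) hpos
  have hp := hpos _ _ hdp0 h1
  have hm := hpos _ _ hdm0 h2
  refine ⟨κ, by simpa using h3', min ((κ * cp * conj dp).re / 2) ((κ * cm * conj dm).re / 2), by positivity, ?_⟩
  apply ev_punct_of_sides
  · have ht : Tendsto (fun s : ℝ => (κ * c (s : C1) * conj (d (s : C1))).re) (𝓝[<] x) (𝓝 (κ * cm * conj dm).re) :=
      (Complex.continuous_re.tendsto _).comp ((hcm.const_mul κ).mul ((Complex.continuous_conj.tendsto _).comp hdm))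
    filter_upwards [ht.eventually_const_lt (show (κ * cm * conj dm).re / 2 < _ by linarith)] with s hs
    exact (min_le_right _ _).trans hs.le
  · have ht : Tendsto (fun s : ℝ => (κ * c (s : C1) * conj (d (s : C1))).re) (𝓝[>] x) (𝓝 (κ * cp * conj dp).re) :=
      (Complex.continuous_re.tendsto _).comp ((hcp.const_mul κ).mul ((Complex.continuous_conj.tendsto _).comp hdp))
    filter_upwards [ht.eventually_const_lt (show (κ * cp * conj dp).re / 2 < _ by linarith)] with s hs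
    exact (min_le_left _ _).trans hs.le

lemma exists_k {c d : C1 → ℂ} (hc : PC c) (hd : PC d) (h3 : Cond3 c d) :
    ∃ k : C(C1, ℂ), (∀ t, 0 < (k t).re) ∧ ∃ ε > 0, ∃ F : Set C1, F.Finite ∧
      ∀ t ∉ F, ε ≤ (k t).re ∧ ε ≤ (k t * c t * conj (d t)).re := by
  let T : C1 → Set ℂ := fun x => {κ | 0 < κ.re ∧ ∃ δ > 0, ∀ᶠ s in 𝓝[≠] x, δ ≤ (κ * c s * conj (d s)).re}
  have hconv : ∀ x, Convex ℝ (T x) := by
    rintro x κ₁ ⟨h1, δ₁, hδ₁, e1⟩ κ₂ ⟨h2, δ₂, hδ₂, e2⟩ a b ha hb hab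
    refine ⟨?_, min δ₁ δ₂, lt_min hδ₁ hδ₂, ?_⟩
    · simp only [Complex.add_re, Complex.real_smul, Complex.re_ofReal_mul]
      rcases ha.eq_or_lt with rfl | ha'
      · have : b = 1 := by linarith
        subst this; simpa using h2
      · have := mul_pos ha' h1
        have := mul_nonneg hb h2.le
        linarith
    · filter_upwards [e1, e2] with s h1 h2
      have : ((a • κ₁ + b • κ₂) * c s * conj (d s)).re = a * (κ₁ * c s * conj (d s)).re + b * (κ₂ * c s * conj (d s)).re := by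
        simp only [Complex.real_smul]
        rw [← Complex.re_ofReal_mul, ← Complex.re_ofReal_mul, ← Complex.add_re]
        congr 1
        ring
      rw [this]
      have h1' := mul_le_mul_of_nonneg_left ((min_le_left δ₁ δ₂).trans h1) ha
      have h2' := mul_le_mul_of_nonneg_left ((min_le_right δ₁ δ₂).trans h2) hb
      have : min δ₁ δ₂ = a * min δ₁ δ₂ + b * min δ₁ δ₂ := by rw [← add_mul, hab, one_mul]
      linarith
  have hloc : ∀ x, ∃ κ, ∀ᶠ y in 𝓝 x, κ ∈ T y := by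
    intro x
    obtain ⟨κ, h1, δ, hδ, h2⟩ := local_kappa hc hd h3 x
    refine ⟨κ, ?_⟩
    rw [eventually_nhdsWithin_iff] at h2
    have h2' := eventually_eventually_nhds.mpr h2
    filter_upwards [h2'] with y hy
    refine ⟨h1, δ, hδ, ?_⟩
    by_cases hyx : y = x
    · subst hyx
      exact eventually_nhdsWithin_iff.mpr hy
    · have hne : ∀ᶠ s in 𝓝 y, s ≠ x := isOpen_ne.mem_nhds hyx
      apply nhdsWithin_le_nhds
      filter_upwards [hy, hne] with s hs hsx using hs hsx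
  obtain ⟨k, hk⟩ := exists_continuous_forall_mem_convex_of_local_const hconv hloc
  obtain ⟨Cc, hCc0, hCc⟩ := hc.bdd
  obtain ⟨Cd, hCd0, hCd⟩ := hd.bdd
  refine ⟨k, fun t => (hk t).1, ?_⟩
  apply uniform_off_finite (Φ := fun ε t => ε ≤ (k t).re ∧ ε ≤ (k t * c t * conj (d t)).re)
  · rintro ε ε' t h ⟨h1, h2⟩
    exact ⟨h.trans h1, h.trans h2⟩
  · intro x
    obtain ⟨h1, δ, hδ, h2⟩ := hk x
    refine ⟨min ((k x).re / 2) (δ / 2), by positivity, ?_⟩
    have e1 : ∀ᶠ t in 𝓝 x, (k x).re / 2 < (k t).re :=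
      ((Complex.continuous_re.comp k.continuous).tendsto x).eventually_const_lt (by simp; linarith)
    have e2 : ∀ᶠ t in 𝓝 x, ‖k t - k x‖ < δ / 2 / (Cc * Cd + 1) := by
      have := (k.continuous.tendsto x)
      rw [Metric.tendsto_nhds] at this
      have h := this (δ / 2 / (Cc * Cd + 1)) (by positivity)
      simpa [dist_eq_norm] using h
    filter_upwards [h2, nhdsWithin_le_nhds e1, nhdsWithin_le_nhds e2] with t a1 a2 a3
    refine ⟨(min_le_left _ _).trans a2.le, (min_le_right _ _).trans ?_⟩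
    have e : k t * c t * conj (d t) = k x * c t * conj (d t) + (k t - k x) * c t * conj (d t) := by ring
    rw [e, Complex.add_re]
    have b1 : -(δ / 2) ≤ ((k t - k x) * c t * conj (d t)).re := by
      have b2 := Complex.abs_re_le_norm ((k t - k x) * c t * conj (d t))
      have b3 : ‖(k t - k x) * c t * conj (d t)‖ ≤ δ / 2 := by
        rw [norm_mul, norm_mul, RCLike.norm_conj, mul_assoc]
        have b4 : ‖c t‖ * ‖d t‖ ≤ Cc * Cd + 1 := by
          have := mul_le_mul (hCc t) (hCd t) (norm_nonneg _) hCc0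
          linarith
        calc ‖k t - k x‖ * (‖c t‖ * ‖d t‖) ≤ δ / 2 / (Cc * Cd + 1) * (Cc * Cd + 1) :=
              mul_le_mul a3.le b4 (by positivity) (by positivity)
          _ = δ / 2 := by field_simp
      have := neg_abs_le ((k t - k x) * c t * conj (d t)).re
      linarith
    linarith

lemma re_mul_conj_self (z : ℂ) : (z * conj z).re = ‖z‖ ^ 2 := by
  rw [Complex.mul_conj, Complex.ofReal_re, Complex.normSq_eq_norm_sq]

/-- the pointwise inequality -/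
lemma ptwise {ε C : ℝ} (hε : 0 < ε) (hC : 0 < C) : ∃ η > 0, ∀ k c d f g : ℂ, ε ≤ k.re →
    ε ≤ (k * c * conj d).re → ‖k‖ ≤ C → ‖c‖ ≤ C → ‖d‖ ≤ C →
    η * ‖f + g‖ ^ 2 ≤ ((c / (conj k * d + k * c) * f + d / (conj k * d + k * c) * g) * conj (f + g)).re
      - (k⁻¹ * f * conj g).re := by
  set B : ℝ := C ^ 2 / ε with hB
  set e : ℝ := ε / (4 * C ^ 4) with he
  set M : ℝ := 2 / ε + (2 * B ^ 2 + 1) / e with hM
  have hBpos : 0 < B := by positivity
  have hepos : 0 < e := by positivity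
  have hMpos : 0 < M := by positivity
  refine ⟨ε ^ 2 / ((2 + 8 * C ^ 2) * M * C ^ 2), by positivity, ?_⟩
  intro k c d f g hk hkc nk nc nd
  set w : ℂ := conj k * d + k * c with hw
  have hk0 : k ≠ 0 := by rintro rfl; simp at hk; linarith
  have hkc0 : conj k ≠ 0 := by simpa using hk0
  have hnk : ε ≤ ‖k‖ := hk.trans ((le_abs_self _).trans (Complex.abs_re_le_norm k))
  -- w
  have hwd : (w * conj d).re = k.re * ‖d‖ ^ 2 + (k * c * conj d).re := by
    rw [hw]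
    have : (conj k * d + k * c) * conj d = conj k * (d * conj d) + k * c * conj d := by ring
    rw [this, Complex.add_re, Complex.mul_conj, Complex.re_mul_ofReal, Complex.conj_re, Complex.normSq_eq_norm_sq]
  have hwd' : k.re * ‖d‖ ^ 2 + ε ≤ (w * conj d).re := by rw [hwd]; linarith
  have hkd : 0 ≤ k.re * ‖d‖ ^ 2 := mul_nonneg (by linarith) (by positivity)
  have hwdn : ε ≤ ‖w‖ * ‖d‖ := by
    have h1 := Complex.re_le_norm (w * conj d)
    rw [norm_mul, RCLike.norm_conj] at h1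
    linarith
  have hw0 : w ≠ 0 := by
    rintro h
    rw [h, norm_zero, zero_mul] at hwdn
    linarith
  have hwpos : 0 < ‖w‖ := norm_pos_iff.mpr hw0
  have hwle : ‖w‖ ≤ 2 * C ^ 2 := by
    calc ‖w‖ ≤ ‖conj k * d‖ + ‖k * c‖ := norm_add_le _ _
      _ = ‖k‖ * ‖d‖ + ‖k‖ * ‖c‖ := by rw [norm_mul, norm_mul, RCLike.norm_conj]
      _ ≤ C * C + C * C := by gcongr
      _ = 2 * C ^ 2 := by ring
  have hwge : ε / C ≤ ‖w‖ := by
    rw [div_le_iff₀ hC]
    exact hwdn.trans (by gcongr)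
  set Δ : ℂ := d / w with hΔ
  set Z : ℂ := k * g - conj k * f with hZ
  have hΔre : k.re * ‖Δ‖ ^ 2 + e ≤ Δ.re := by
    have h1 : Δ.re = (w * conj d).re / ‖w‖ ^ 2 := by
      have : Δ = (conj (w * conj d)) / ((‖w‖ ^ 2 : ℝ) : ℂ) := by
        rw [hΔ, ← Complex.normSq_eq_norm_sq, ← Complex.mul_conj]
        simp only [map_mul, Complex.conj_conj]
        have : conj w ≠ 0 := by simpa using hw0
        field_simp
      rw [this, Complex.div_ofReal_re, Complex.conj_re]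
    have h2 : ‖Δ‖ ^ 2 = ‖d‖ ^ 2 / ‖w‖ ^ 2 := by rw [hΔ, norm_div, div_pow]
    rw [h1, h2, ← mul_div_assoc]
    have h3 : e ≤ ε / ‖w‖ ^ 2 := by
      rw [he]
      apply div_le_div_of_nonneg_left hε.le (by positivity)
      calc ‖w‖ ^ 2 ≤ (2 * C ^ 2) ^ 2 := by gcongr
        _ = 4 * C ^ 4 := by ring
    calc k.re * ‖d‖ ^ 2 / ‖w‖ ^ 2 + e ≤ k.re * ‖d‖ ^ 2 / ‖w‖ ^ 2 + ε / ‖w‖ ^ 2 := by linarith
      _ = (k.re * ‖d‖ ^ 2 + ε) / ‖w‖ ^ 2 := by ring
      _ ≤ (w * conj d).re / ‖w‖ ^ 2 := by gcongr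
  have hΔn : ‖Δ‖ ≤ B := by
    rw [hΔ, norm_div, hB, div_le_div_iff₀ hwpos hε]
    calc ‖d‖ * ε ≤ C * ε := by gcongr
      _ = C ^ 2 * (ε / C) := by field_simp
      _ ≤ C ^ 2 * ‖w‖ := by gcongr
  -- identity
  have hsum : k * (c / w) + conj k * Δ = 1 := by
    rw [hΔ]
    field_simp
    rw [hw]; ring
  have hA : c / w * f + Δ * g = (f + Δ * Z) / k := by
    rw [eq_div_iff hk0, hZ]
    linear_combination f * hsum
  have h2re : k + conj k = ((2 * k.re : ℝ) : ℂ) := Complex.add_conj k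
  have hBb : f + g = (Z + ((2 * k.re : ℝ) : ℂ) * f) / k := by
    rw [eq_div_iff hk0, ← h2re, hZ]; ring
  have hnum : (c / w * f + Δ * g) * conj (f + g) - k⁻¹ * f * conj g =
      ((2 * k.re : ℝ) * (f * conj f) - k * (f * conj f) + Δ * (Z * conj Z) + ((2 * k.re : ℝ) : ℂ) * (Δ * Z * conj f)) /
        ((‖k‖ ^ 2 : ℝ) : ℂ) := by
    have hg : conj k * conj g = conj Z + k * conj f := by
      rw [hZ]; simp only [map_sub, map_mul, Complex.conj_conj]; ring
    rw [hA]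
    conv_lhs => rw [hBb]
    rw [← Complex.normSq_eq_norm_sq, ← Complex.mul_conj, map_div₀, map_add, map_mul, Complex.conj_ofReal]
    have hg' : k⁻¹ * f * conj g = f * (conj Z + k * conj f) / (k * conj k) := by
      rw [← hg]; field_simp
    rw [hg']
    field_simp
    ring
  rw [← Complex.sub_re, hnum, Complex.div_ofReal_re]
  set E : ℝ := ((2 * k.re : ℝ) * (f * conj f) - k * (f * conj f) + Δ * (Z * conj Z) + ((2 * k.re : ℝ) : ℂ) * (Δ * Z * conj f)).re with hE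
  have hEeq : E = k.re * ‖f‖ ^ 2 + Δ.re * ‖Z‖ ^ 2 + 2 * k.re * (Δ * Z * conj f).re := by
    rw [hE]
    simp only [Complex.add_re, Complex.sub_re, Complex.re_ofReal_mul, Complex.mul_conj, Complex.re_mul_ofReal,
      Complex.ofReal_re, Complex.normSq_eq_norm_sq]
    ring
  set x := ‖f‖
  set z := ‖Z‖
  set y := ‖Δ‖ * ‖Z‖ with hy
  have hcross : -(y * x) ≤ (Δ * Z * conj f).re := by
    have h1 := Complex.abs_re_le_norm (Δ * Z * conj f)
    rw [norm_mul, norm_mul, RCLike.norm_conj] at h1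
    have := neg_abs_le (Δ * Z * conj f).re
    linarith
  have hkpos : 0 < k.re := by linarith
  have hElow : ε * (x - y) ^ 2 + e * z ^ 2 ≤ E := by
    rw [hEeq]
    have h1 : (k.re * ‖Δ‖ ^ 2 + e) * z ^ 2 ≤ Δ.re * z ^ 2 := by gcongr
    have h2 : 2 * k.re * (-(y * x)) ≤ 2 * k.re * (Δ * Z * conj f).re := by gcongr
    have h3 : ε * (x - y) ^ 2 ≤ k.re * (x - y) ^ 2 := by gcongr
    have h4 : (k.re * ‖Δ‖ ^ 2 + e) * z ^ 2 = k.re * y ^ 2 + e * z ^ 2 := by rw [hy]; ring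
    nlinarith
  have hyz : y ≤ B * z := by rw [hy]; gcongr
  have hy0 : 0 ≤ y := by positivity
  have hx2 : x ^ 2 ≤ 2 * (x - y) ^ 2 + 2 * B ^ 2 * z ^ 2 := by
    have h1 : y ^ 2 ≤ (B * z) ^ 2 := by gcongr
    nlinarith [sq_nonneg (x - 2 * y)]
  have hsumle : x ^ 2 + z ^ 2 ≤ M * E := by
    have h1 : 2 * (x - y) ^ 2 ≤ (2 / ε) * E := by
      have : (2 / ε) * (ε * (x - y) ^ 2) ≤ (2 / ε) * E := by
        apply mul_le_mul_of_nonneg_left _ (by positivity)
        have : 0 ≤ e * z ^ 2 := by positivity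
        linarith
      have e1 : (2 / ε) * (ε * (x - y) ^ 2) = 2 * (x - y) ^ 2 := by field_simp
      linarith
    have h2 : (2 * B ^ 2 + 1) * z ^ 2 ≤ ((2 * B ^ 2 + 1) / e) * E := by
      have : ((2 * B ^ 2 + 1) / e) * (e * z ^ 2) ≤ ((2 * B ^ 2 + 1) / e) * E := by
        apply mul_le_mul_of_nonneg_left _ (by positivity)
        have : 0 ≤ ε * (x - y) ^ 2 := by positivity
        linarith
      have e1 : ((2 * B ^ 2 + 1) / e) * (e * z ^ 2) = (2 * B ^ 2 + 1) * z ^ 2 := by field_simp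
      linarith
    rw [hM, add_mul]
    have e3 : 2 * B ^ 2 * z ^ 2 + z ^ 2 = (2 * B ^ 2 + 1) * z ^ 2 := by ring
    linarith
  have hE0 : 0 ≤ E := by
    have : 0 ≤ ε * (x - y) ^ 2 + e * z ^ 2 := by positivity
    linarith
  have hu : ‖f + g‖ ^ 2 ≤ (2 + 8 * C ^ 2) / ε ^ 2 * (x ^ 2 + z ^ 2) := by
    have h1 : ‖f + g‖ ≤ (z + 2 * C * x) / ε := by
      rw [hBb, norm_div]
      have h2 : ‖Z + ((2 * k.re : ℝ) : ℂ) * f‖ ≤ z + 2 * C * x := by
        calc ‖Z + ((2 * k.re : ℝ) : ℂ) * f‖ ≤ ‖Z‖ + ‖((2 * k.re : ℝ) : ℂ) * f‖ := norm_add_le _ _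
          _ = z + |2 * k.re| * x := by rw [norm_mul, Complex.norm_real, Real.norm_eq_abs]
          _ ≤ z + 2 * C * x := by
            have : |2 * k.re| ≤ 2 * C := by
              rw [abs_mul, abs_two]
              have := (Complex.abs_re_le_norm k).trans nk
              linarith
            gcongr
      exact div_le_div₀ (by positivity) h2 hε hnk
    calc ‖f + g‖ ^ 2 ≤ ((z + 2 * C * x) / ε) ^ 2 := by gcongr
      _ = (z + 2 * C * x) ^ 2 / ε ^ 2 := by rw [div_pow]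
      _ ≤ ((2 + 8 * C ^ 2) * (x ^ 2 + z ^ 2)) / ε ^ 2 := by
        gcongr
        nlinarith [sq_nonneg (z - 2 * C * x), sq_nonneg x, sq_nonneg z, sq_nonneg (C * z)]
      _ = _ := by ring
  have hfin : ‖f + g‖ ^ 2 ≤ (2 + 8 * C ^ 2) / ε ^ 2 * (M * E) := hu.trans (by gcongr)
  rw [div_mul_eq_mul_div, div_le_div_iff₀ (by positivity) (by positivity)]
  have hk2 : ‖k‖ ^ 2 ≤ C ^ 2 := by gcongr
  calc ε ^ 2 * ‖f + g‖ ^ 2 * ‖k‖ ^ 2 ≤ ε ^ 2 * ((2 + 8 * C ^ 2) / ε ^ 2 * (M * E)) * C ^ 2 := by gcongr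
    _ = E * ((2 + 8 * C ^ 2) * M * C ^ 2) := by field_simp

lemma inner_re_eq (x y : H) : (⟪x, y⟫_ℂ).re = ∫ t, (x t * conj (y t)).re ∂mu := by
  rw [← inner_conj_symm, Complex.conj_re, inner_eq]
  have hi : Integrable (fun t => conj (y t) * x t) mu := by
    have := L2.integrable_inner (𝕜 := ℂ) y x
    refine this.congr (Eventually.of_forall fun t => ?_)
    simp [RCLike.inner_apply, mul_comm]
  have := integral_re hi
  simp only [RCLike.re_eq_complex_re] at this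
  rw [← this]
  apply integral_congr_ae
  filter_upwards with t
  rw [mul_comm]

lemma inner_re_int (x y : H) : Integrable (fun t => (x t * conj (y t)).re) mu := by
  have hi : Integrable (fun t => conj (y t) * x t) mu := by
    have := L2.integrable_inner (𝕜 := ℂ) y x
    refine this.congr (Eventually.of_forall fun t => ?_)
    simp [RCLike.inner_apply, mul_comm]
  have := hi.re
  refine this.congr (Eventually.of_forall fun t => ?_)
  simp [mul_comm]

lemma norm_sq_eq (x : H) : ‖x‖ ^ 2 = ∫ t, ‖x t‖ ^ 2 ∂mu := by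
  have h1 : ‖x‖ ^ 2 = (⟪x, x⟫_ℂ).re := by
    rw [inner_self_eq_norm_sq_to_K]
    norm_cast
  rw [h1, inner_re_eq]
  apply integral_congr_ae
  filter_upwards with t
  exact re_mul_conj_self _

lemma norm_sq_int (x : H) : Integrable (fun t => ‖x t‖ ^ 2) mu := by
  refine (inner_re_int x x).congr (Eventually.of_forall fun t => ?_)
  exact re_mul_conj_self _

section
variable {S : H →L[ℂ] H} (hS : ∀ n : ℤ, S (fourierLp (T := (1:ℝ)) 2 n) =
        (if 0 ≤ n then (1:ℂ) else -1) • fourierLp (T := (1:ℝ)) 2 n)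
include hS

/-- The conclusion of strong ellipticity -/
def SE (X : H →L[ℂ] H) : Prop := ∃ D K : H →L[ℂ] H, IsSelfAdjoint D ∧ IsCompactOperator K ∧
  (∃ c : ℝ, 0 < c ∧ ∀ x : H, c * ‖x‖ ^ 2 ≤ (inner ℂ (D x) x).re) ∧
  (1/2 : ℂ) • (X + ContinuousLinearMap.adjoint X) = D + K

lemma suff {c d : C1 → ℂ} (k : C(C1, ℂ)) (hkpos : ∀ t, 0 < (k t).re) {ε C : ℝ} (hε : 0 < ε) (hC : 0 < C)
    (hk : ∀ᵐ t ∂mu, ε ≤ (k t).re ∧ ε ≤ (k t * c t * conj (d t)).re)
    (hkC : ∀ t, ‖k t‖ ≤ C) (hcC : ∀ t, ‖c t‖ ≤ C) (hdC : ∀ t, ‖d t‖ ≤ C)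
    (X : H →L[ℂ] H)
    (hX : ∀ u : H, (X u : C1 → ℂ) =ᵐ[mu] fun t => c t / (conj (k t) * d t + k t * c t) * (PP S u) t +
      d t / (conj (k t) * d t + k t * c t) * (QQ S u) t) : SE X := by
  obtain ⟨η, hη, hpt⟩ := ptwise (ε := ε) (C := C) hε hC
  have hk0 : ∀ t, k t ≠ 0 := by
    intro t h
    have := hkpos t
    rw [h] at this
    simp at this
  let ki : C(C1, ℂ) := ⟨fun t => (k t)⁻¹, k.continuous.inv₀ hk0⟩
  let A : H →L[ℂ] H := (QQ S).comp ((Mc ki).comp (PP S))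
  have hAadj : ContinuousLinearMap.adjoint A = (PP S).comp ((ContinuousLinearMap.adjoint (Mc ki)).comp (QQ S)) := by
    change ContinuousLinearMap.adjoint ((QQ S).comp ((Mc ki).comp (PP S))) = _
    rw [ContinuousLinearMap.adjoint_comp, ContinuousLinearMap.adjoint_comp, PP_adj hS, QQ_adj hS]
    rfl
  let kis : C(C1, ℂ) := ⟨fun t => conj (ki t), Complex.continuous_conj.comp ki.continuous⟩
  have hMadj : ContinuousLinearMap.adjoint (Mc ki) = Mc kis := by
    have h1 : IsMul (fun x => conj (ki x)) (ContinuousLinearMap.adjoint (Mc ki)) :=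
      (Mc_isMul ki).adjoint (C := ‖ki‖) ki.continuous.aestronglyMeasurable
        (Eventually.of_forall fun t => ki.norm_coe_le_norm t)
    exact h1.unique (Mc_isMul kis)
  have hAc : IsCompactOperator A := hankel hS ki
  have hAc' : IsCompactOperator (ContinuousLinearMap.adjoint A) := by
    rw [hAadj, hMadj]
    exact hankel' hS kis
  refine ⟨(1/2 : ℂ) • (X + ContinuousLinearMap.adjoint X) - (1/2 : ℂ) • (A + ContinuousLinearMap.adjoint A),
    (1/2 : ℂ) • (A + ContinuousLinearMap.adjoint A), ?_, ?_, ?_, by abel⟩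
  · rw [ContinuousLinearMap.isSelfAdjoint_iff']
    simp only [map_sub, map_smulₛₗ, map_add, ContinuousLinearMap.adjoint_adjoint]
    have : (starRingEnd ℂ) (1/2) = 1/2 := by simp [Complex.conj_ofNat]
    rw [this]
    congr 1
    · rw [add_comm]
    · rw [add_comm]
  · exact (hAc.add hAc').smul (1/2 : ℂ)
  · refine ⟨η, hη, fun u => ?_⟩
    have hre : (inner ℂ (((1/2 : ℂ) • (X + ContinuousLinearMap.adjoint X) - (1/2 : ℂ) • (A + ContinuousLinearMap.adjoint A)) u) u).re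
        = (⟪X u, u⟫_ℂ).re - (⟪A u, u⟫_ℂ).re := by
      have hgen : ∀ Y : H →L[ℂ] H, (⟪((1/2 : ℂ) • (Y + ContinuousLinearMap.adjoint Y)) u, u⟫_ℂ).re = (⟪Y u, u⟫_ℂ).re := by
        intro Y
        rw [_root_.smul_apply, _root_.add_apply, inner_smul_left, inner_add_left, ContinuousLinearMap.adjoint_inner_left]
        have h1 : (⟪u, Y u⟫_ℂ).re = (⟪Y u, u⟫_ℂ).re := by rw [← inner_conj_symm, Complex.conj_re]
        have h2 : (starRingEnd ℂ) (1/2) = ((1/2 : ℝ) : ℂ) := by simp [Complex.conj_ofNat]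
        rw [h2, Complex.re_ofReal_mul, Complex.add_re, h1]
        ring
      rw [_root_.sub_apply, inner_sub_left, Complex.sub_re, hgen, hgen]
    rw [hre]
    have hA : (⟪A u, u⟫_ℂ).re = ∫ t, ((k t)⁻¹ * (PP S u) t * conj ((QQ S u) t)).re ∂mu := by
      change (⟪(QQ S) ((Mc ki) (PP S u)), u⟫_ℂ).re = _
      have h1 : ⟪(QQ S) ((Mc ki) (PP S u)), u⟫_ℂ = ⟪(Mc ki) (PP S u), QQ S u⟫_ℂ := by
        conv_lhs => rw [← QQ_adj hS]
        rw [ContinuousLinearMap.adjoint_inner_left]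
      rw [h1, inner_re_eq]
      apply integral_congr_ae
      filter_upwards [Mc_isMul ki (PP S u)] with t ht
      rw [ht]
      rfl
    have hAint : Integrable (fun t => ((k t)⁻¹ * (PP S u) t * conj ((QQ S u) t)).re) mu := by
      refine (inner_re_int ((Mc ki) (PP S u)) (QQ S u)).congr ?_
      filter_upwards [Mc_isMul ki (PP S u)] with t ht
      rw [ht]
      rfl
    have hu : u = PP S u + QQ S u := by
      have := congrArg (fun B : H →L[ℂ] H => B u) (PP_add_QQ S)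
      simpa using this.symm
    rw [norm_sq_eq, inner_re_eq, hA, ← integral_sub (inner_re_int _ _) hAint, ← integral_const_mul]
    apply integral_mono_ae ((norm_sq_int u).const_mul η) ((inner_re_int _ _).sub hAint)
    have hu' : (u : C1 → ℂ) =ᵐ[mu] fun t => (PP S u) t + (QQ S u) t := by
      have h1 := Lp.coeFn_add (PP S u) (QQ S u)
      rw [← hu] at h1
      exact h1
    filter_upwards [hX u, hk, hu'] with t h1 h2 h3
    change η * ‖(u : C1 → ℂ) t‖ ^ 2 ≤ ((X u : C1 → ℂ) t * conj ((u : C1 → ℂ) t)).re -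
      ((k t)⁻¹ * (PP S u) t * conj ((QQ S u) t)).re
    rw [h1, h3]
    exact hpt (k t) (c t) (d t) _ _ h2.1 h2.2 (hkC t) (hcC t) (hdC t)

end

end Pool.Agent.Colloc
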