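import Pool.Agent.H0.Colloc.ZLem
import Pool.Agent.H0.Colloc.Suff

set_option autoImplicit false
open MeasureTheory Filter Topology Set
open scoped ENNReal ComplexConjugate Real InnerProductSpace

namespace Pool.Agent.Colloc

noncomputable def par (x0 y : ℝ) : C1 := ((x0 + y : ℝ) : C1)

lemma mp (x0 : ℝ) : MeasurePreserving (par x0) (volume.restrict (Ioo 0 1)) mu := by
  have h1 := AddCircle.measurePreserving_mk 1 x0
  have h2 : MeasurePreserving (fun y : ℝ => x0 + y) (volume.restrict (Ioc 0 1)) (volume.restrict (Ioc x0 (x0 + 1))) := by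
    have h := (measurePreserving_add_left volume x0).restrict_preimage (s := Ioc x0 (x0 + 1)) measurableSet_Ioc
    have e : (fun y : ℝ => x0 + y) ⁻¹' Ioc x0 (x0 + 1) = Ioc 0 1 := by
      ext y; simp
    rw [e] at h
    exact h
  have h3 := h1.comp h2
  have e1 : (volume : Measure C1) = mu := by
    rw [AddCircle.volume_eq_smul_haarAddCircle]; simp
  rw [e1] at h3
  have e2 : volume.restrict (Ioo (0:ℝ) 1) = volume.restrict (Ioc (0:ℝ) 1) := Measure.restrict_congr_set Ioo_ae_eq_Ioc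
  rw [e2]
  exact h3

lemma integral_par {E : Type*} [NormedAddCommGroup E] [NormedSpace ℝ E] (x0 : ℝ) {Φ : C1 → E}
    (hΦ : AEStronglyMeasurable Φ mu) : ∫ t, Φ t ∂mu = ∫ y in Ioo (0:ℝ) 1, Φ (par x0 y) := by
  have h := (mp x0).map_eq
  rw [← h] at hΦ ⊢
  rw [integral_map (mp x0).measurable.aemeasurable hΦ]

lemma ae_par (x0 : ℝ) {p : C1 → Prop} (h : ∀ᵐ t ∂mu, p t) : ∀ᵐ y ∂(volume.restrict (Ioo (0:ℝ) 1)), p (par x0 y) :=
  (mp x0).quasiMeasurePreserving.ae h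

noncomputable def zf (x0 : ℝ) (t : C1) : ℂ := fourier 1 (t - (x0 : C1))

lemma zf_cont (x0 : ℝ) : Continuous (zf x0) := (fourier 1).continuous.comp (continuous_id.sub continuous_const)

lemma fourier_par (x0 y : ℝ) (n : ℤ) : fourier n (par x0 y) = fourier n (x0 : C1) * ez y ^ n := by
  unfold par ez
  rw [fourier_coe_apply, fourier_coe_apply, ← Complex.exp_int_mul, ← Complex.exp_add]
  congr 1
  push_cast
  ring

lemma zf_par (x0 y : ℝ) : zf x0 (par x0 y) = ez y := by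
  unfold zf par ez
  have : ((x0 + y : ℝ) : C1) - (x0 : C1) = ((y : ℝ) : C1) := by
    rw [← AddCircle.coe_sub]; congr 1; ring
  rw [this, fourier_coe_apply]
  congr 1
  push_cast
  ring

noncomputable def sn (ξ : ℝ) (n : ℕ) : ℂ := ((-1/2 + ep n : ℝ) : ℂ) + (ξ : ℂ) * Complex.I

lemma sn_re (ξ : ℝ) (n : ℕ) : (sn ξ n).re = -1/2 + ep n := by simp [sn]
lemma sn_im (ξ : ℝ) (n : ℕ) : (sn ξ n).im = ξ := by simp [sn]

lemma sn_re_gt (ξ : ℝ) (n : ℕ) : -1 < (sn ξ n).re := by rw [sn_re]; linarith [ep_pos n]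
lemma sn_re_le (ξ : ℝ) (n : ℕ) : (sn ξ n).re ≤ 0 := by rw [sn_re]; linarith [ep_le n]

noncomputable def Ff (x0 ξ : ℝ) (n : ℕ) (t : C1) : ℂ := (1 - zf x0 t) ^ (sn ξ n)
noncomputable def Gf (x0 ξ : ℝ) (n : ℕ) (t : C1) : ℂ := conj (zf x0 t) * (1 - conj (zf x0 t)) ^ (sn ξ n)

noncomputable def Af (ξ : ℝ) (n : ℕ) (y : ℝ) : ℂ := Complex.exp (sn ξ n * ((π * y - π / 2 : ℝ) : ℂ) * Complex.I)
noncomputable def Bf (ξ : ℝ) (n : ℕ) (y : ℝ) : ℂ := conj (ez y) * Complex.exp (-(sn ξ n * ((π * y - π / 2 : ℝ) : ℂ) * Complex.I))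

lemma Ff_par (x0 ξ : ℝ) (n : ℕ) {y : ℝ} (hy : y ∈ Ioo (0:ℝ) 1) :
    Ff x0 ξ n (par x0 y) = (sg2 y : ℂ) ^ (sn ξ n) * Af ξ n y := by
  unfold Ff Af
  rw [zf_par, one_sub_ez_cpow hy]

lemma Gf_par (x0 ξ : ℝ) (n : ℕ) {y : ℝ} (hy : y ∈ Ioo (0:ℝ) 1) :
    Gf x0 ξ n (par x0 y) = (sg2 y : ℂ) ^ (sn ξ n) * Bf ξ n y := by
  unfold Gf Bf
  rw [zf_par, one_sub_conj_ez_cpow hy]
  ring

lemma norm_sg_sq (ξ : ℝ) (n : ℕ) {y : ℝ} (hy : y ∈ Ioo (0:ℝ) 1) : ‖(sg2 y : ℂ) ^ (sn ξ n)‖ ^ 2 = wt n y := by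
  rw [Complex.norm_cpow_eq_rpow_re_of_pos (sg2_pos hy), sn_re, ← Real.rpow_natCast, ← Real.rpow_mul (sg2_pos hy).le]
  unfold wt
  congr 1
  push_cast; ring

lemma norm_Af (ξ : ℝ) (n : ℕ) {y : ℝ} (hy : y ∈ Ioo (0:ℝ) 1) : ‖Af ξ n y‖ ≤ Real.exp (π * |ξ|) := by
  unfold Af
  rw [Complex.norm_exp]
  apply Real.exp_le_exp.mpr
  have : (sn ξ n * ((π * y - π / 2 : ℝ) : ℂ) * Complex.I).re = -(ξ * (π * y - π / 2)) := by
    rw [Complex.mul_re, Complex.re_mul_ofReal, Complex.im_mul_ofReal, sn_im]; simp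
  rw [this]
  calc -(ξ * (π * y - π / 2)) ≤ |ξ * (π * y - π / 2)| := neg_le_abs _
    _ = |ξ| * |π * y - π / 2| := abs_mul _ _
    _ ≤ |ξ| * π := by
      gcongr
      rw [abs_le]
      constructor <;> nlinarith [Real.pi_pos, hy.1, hy.2]
    _ = π * |ξ| := by ring

lemma norm_Bf (ξ : ℝ) (n : ℕ) {y : ℝ} (hy : y ∈ Ioo (0:ℝ) 1) : ‖Bf ξ n y‖ ≤ Real.exp (π * |ξ|) := by
  unfold Bf
  rw [norm_mul, RCLike.norm_conj, norm_ez, one_mul, Complex.norm_exp]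
  apply Real.exp_le_exp.mpr
  have : (-(sn ξ n * ((π * y - π / 2 : ℝ) : ℂ) * Complex.I)).re = ξ * (π * y - π / 2) := by
    rw [Complex.neg_re, Complex.mul_re, Complex.re_mul_ofReal, Complex.im_mul_ofReal, sn_im]; simp
  rw [this]
  calc ξ * (π * y - π / 2) ≤ |ξ * (π * y - π / 2)| := le_abs_self _
    _ = |ξ| * |π * y - π / 2| := abs_mul _ _
    _ ≤ |ξ| * π := by
      gcongr
      rw [abs_le]
      constructor <;> nlinarith [Real.pi_pos, hy.1, hy.2]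
    _ = π * |ξ| := by ring

lemma Ff_meas (x0 ξ : ℝ) (n : ℕ) : Measurable (Ff x0 ξ n) :=
  (measurable_const.sub (zf_cont x0).measurable).pow_const _

lemma Gf_meas (x0 ξ : ℝ) (n : ℕ) : Measurable (Gf x0 ξ n) := by
  have h : Measurable fun t => conj (zf x0 t) := (Complex.continuous_conj.comp (zf_cont x0)).measurable
  exact h.mul ((measurable_const.sub h).pow_const _)

lemma integrable_par (x0 : ℝ) {Φ : C1 → ℝ} (hΦ : AEStronglyMeasurable Φ mu)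
    (h : IntegrableOn (fun y => Φ (par x0 y)) (Ioo 0 1)) : Integrable Φ mu := by
  have := (mp x0).integrable_comp (g := Φ) hΦ
  exact this.mp h

lemma memLp_of_bound (x0 : ℝ) (n : ℕ) {Φ : C1 → ℂ} (hΦ : Measurable Φ) {C : ℝ}
    (h : ∀ y ∈ Ioo (0:ℝ) 1, ‖Φ (par x0 y)‖ ^ 2 ≤ C * wt n y) : MemLp Φ 2 mu := by
  rw [memLp_two_iff_integrable_sq_norm hΦ.aestronglyMeasurable]
  apply integrable_par x0 (hΦ.norm.pow_const 2).aestronglyMeasurable
  refine ((wt_int n).const_mul C).mono' ?_ ?_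
  · exact (((hΦ.comp (mp x0).measurable).norm).pow_const 2).aestronglyMeasurable
  · filter_upwards [self_mem_ae_restrict measurableSet_Ioo] with y hy
    rw [Real.norm_eq_abs, abs_of_nonneg (by positivity)]
    exact h y hy

lemma Ff_memLp (x0 ξ : ℝ) (n : ℕ) : MemLp (Ff x0 ξ n) 2 mu := by
  apply memLp_of_bound x0 n (Ff_meas x0 ξ n) (C := Real.exp (π * |ξ|) ^ 2)
  intro y hy
  rw [Ff_par x0 ξ n hy, norm_mul, mul_pow, norm_sg_sq ξ n hy, mul_comm]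
  have := norm_Af ξ n hy
  have := wt_nonneg n hy
  gcongr

lemma Gf_memLp (x0 ξ : ℝ) (n : ℕ) : MemLp (Gf x0 ξ n) 2 mu := by
  apply memLp_of_bound x0 n (Gf_meas x0 ξ n) (C := Real.exp (π * |ξ|) ^ 2)
  intro y hy
  rw [Gf_par x0 ξ n hy, norm_mul, mul_pow, norm_sg_sq ξ n hy, mul_comm]
  have := norm_Bf ξ n hy
  have := wt_nonneg n hy
  gcongr

noncomputable def FF (x0 ξ : ℝ) (n : ℕ) : H := (Ff_memLp x0 ξ n).toLp _
noncomputable def GG (x0 ξ : ℝ) (n : ℕ) : H := (Gf_memLp x0 ξ n).toLp _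

lemma inner_FF (x0 ξ : ℝ) (n : ℕ) {m : ℤ} (hm : m < 0) : ⟪(fourierLp (T := (1:ℝ)) 2 m : H), FF x0 ξ n⟫_ℂ = 0 := by
  rw [inner_eq]
  have h1 : ∫ t, conj ((fourierLp (T := (1:ℝ)) 2 m : H) t) * (FF x0 ξ n) t ∂mu = ∫ t, conj (fourier m t) * Ff x0 ξ n t ∂mu := by
    apply integral_congr_ae
    filter_upwards [coeFn_fourierLp (T := (1:ℝ)) 2 m, (Ff_memLp x0 ξ n).coeFn_toLp] with t h1 h2
    rw [h1]
    congr 1
  rw [h1, integral_par x0]
  · have h2 : ∫ y in Ioo (0:ℝ) 1, conj (fourier m (par x0 y)) * Ff x0 ξ n (par x0 y) =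
        ∫ y in Ioo (0:ℝ) 1, conj (fourier m (x0 : C1)) * (ez y ^ ((-m - 1).toNat + 1) * (1 - ez y) ^ (sn ξ n)) := by
      apply setIntegral_congr_fun measurableSet_Ioo
      intro y hy
      simp only
      rw [fourier_par, Ff, zf_par, map_mul, mul_assoc]
      congr 2
      have e1 : conj (ez y ^ m) = ez y ^ (-m) := by
        have : conj (ez y) = (ez y)⁻¹ := by
          rw [Complex.inv_def, Complex.normSq_eq_norm_sq, norm_ez]; simp
        rw [map_zpow₀, this, inv_zpow, zpow_neg]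
      rw [e1]
      have e2 : -m = (((-m - 1).toNat + 1 : ℕ) : ℤ) := by
        push_cast
        rw [Int.toNat_of_nonneg (by omega)]; ring
      conv_lhs => rw [e2]
      rw [zpow_natCast]
    rw [h2, integral_const_mul, ZL _ (sn_re_gt ξ n) (sn_re_le ξ n), mul_zero]
  · exact ((Complex.continuous_conj.comp (fourier m).continuous).measurable.mul (Ff_meas x0 ξ n)).aestronglyMeasurable

lemma inner_GG (x0 ξ : ℝ) (n : ℕ) {m : ℤ} (hm : 0 ≤ m) : ⟪(fourierLp (T := (1:ℝ)) 2 m : H), GG x0 ξ n⟫_ℂ = 0 := by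
  rw [inner_eq]
  have h1 : ∫ t, conj ((fourierLp (T := (1:ℝ)) 2 m : H) t) * (GG x0 ξ n) t ∂mu = ∫ t, conj (fourier m t) * Gf x0 ξ n t ∂mu := by
    apply integral_congr_ae
    filter_upwards [coeFn_fourierLp (T := (1:ℝ)) 2 m, (Gf_memLp x0 ξ n).coeFn_toLp] with t h1 h2
    rw [h1]
    congr 1
  rw [h1, integral_par x0]
  · have h2 : ∫ y in Ioo (0:ℝ) 1, conj (fourier m (par x0 y)) * Gf x0 ξ n (par x0 y) =
        ∫ y in Ioo (0:ℝ) 1, conj (fourier m (x0 : C1)) * conj (ez y ^ (m.toNat + 1) * (1 - ez y) ^ (conj (sn ξ n))) := by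
      apply setIntegral_congr_fun measurableSet_Ioo
      intro y hy
      simp only
      rw [fourier_par, Gf, zf_par, map_mul, mul_assoc]
      congr 1
      have e2 : m = ((m.toNat : ℕ) : ℤ) := (Int.toNat_of_nonneg hm).symm
      conv_lhs => rw [e2]
      rw [zpow_natCast, map_mul, map_pow, map_pow, pow_succ, mul_assoc]
      congr 2
      have hslit : (1 - ez y).arg ≠ π := by
        rw [one_sub_ez, Complex.arg_real_mul _ (sg2_pos hy), Complex.arg_exp_mul_I, toIocMod_eq_self (by exact Real.two_pi_pos) |>.mpr]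
        · have := mul_lt_mul_of_pos_left hy.2 Real.pi_pos
          intro h
          linarith [Real.pi_pos]
        · constructor
          · have := mul_pos Real.pi_pos hy.1
            linarith [Real.pi_pos]
          · have := mul_lt_mul_of_pos_left hy.2 Real.pi_pos
            linarith [Real.pi_pos]
      have h3 := Complex.conj_cpow (1 - ez y) (sn ξ n) hslit
      rw [map_sub, map_one] at h3
      exact h3
    rw [h2, integral_const_mul, integral_conj, ZL _ (by rw [Complex.conj_re]; exact sn_re_gt ξ n) (by rw [Complex.conj_re]; exact sn_re_le ξ n),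
      map_zero, mul_zero]
  · exact ((Complex.continuous_conj.comp (fourier m).continuous).measurable.mul (Gf_meas x0 ξ n)).aestronglyMeasurable

section
variable {S : H →L[ℂ] H} (hS : ∀ n : ℤ, S (fourierLp (T := (1:ℝ)) 2 n) =
        (if 0 ≤ n then (1:ℂ) else -1) • fourierLp (T := (1:ℝ)) 2 n)
include hS

lemma S_FF (x0 ξ : ℝ) (n : ℕ) : S (FF x0 ξ n) = FF x0 ξ n := by
  apply ext_inner_basis
  intro m
  conv_lhs => rw [← S_adj hS]
  rw [ContinuousLinearMap.adjoint_inner_right, hS, inner_smul_left]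
  by_cases hm : 0 ≤ m
  · simp [hm]
  · rw [inner_FF x0 ξ n (not_le.mp hm), mul_zero]

lemma S_GG (x0 ξ : ℝ) (n : ℕ) : S (GG x0 ξ n) = - GG x0 ξ n := by
  apply ext_inner_basis
  intro m
  conv_lhs => rw [← S_adj hS]
  rw [ContinuousLinearMap.adjoint_inner_right, hS, inner_smul_left, inner_neg_right]
  by_cases hm : 0 ≤ m
  · rw [inner_GG x0 ξ n hm, mul_zero, neg_zero]
  · simp [hm]

lemma PP_FF (x0 ξ : ℝ) (n : ℕ) : PP S (FF x0 ξ n) = FF x0 ξ n := by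
  unfold PP
  rw [_root_.smul_apply, _root_.add_apply, S_FF hS, one_apply_eq_self, ← two_smul ℂ, smul_smul]; norm_num

lemma QQ_FF (x0 ξ : ℝ) (n : ℕ) : QQ S (FF x0 ξ n) = 0 := by
  unfold QQ
  rw [_root_.smul_apply, _root_.sub_apply, S_FF hS, one_apply_eq_self, sub_self, smul_zero]

lemma PP_GG (x0 ξ : ℝ) (n : ℕ) : PP S (GG x0 ξ n) = 0 := by
  unfold PP
  rw [_root_.smul_apply, _root_.add_apply, S_GG hS, one_apply_eq_self, add_neg_cancel, smul_zero]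

lemma QQ_GG (x0 ξ : ℝ) (n : ℕ) : QQ S (GG x0 ξ n) = GG x0 ξ n := by
  unfold QQ
  rw [_root_.smul_apply, _root_.sub_apply, S_GG hS, one_apply_eq_self, sub_neg_eq_add, ← two_smul ℂ, smul_smul]; norm_num

end

noncomputable def vv (x0 ξ : ℝ) (φ ψ : ℂ) (n : ℕ) : H := φ • FF x0 ξ n + ψ • GG x0 ξ n

noncomputable def vl (ξ : ℝ) (φ ψ : ℂ) (n : ℕ) (y : ℝ) : ℂ := φ * Af ξ n y + ψ * Bf ξ n y

lemma vv_ae (x0 ξ : ℝ) (φ ψ : ℂ) (n : ℕ) : (vv x0 ξ φ ψ n : C1 → ℂ) =ᵐ[mu] fun t => φ * Ff x0 ξ n t + ψ * Gf x0 ξ n t := by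
  filter_upwards [Lp.coeFn_add (φ • FF x0 ξ n) (ψ • GG x0 ξ n), Lp.coeFn_smul φ (FF x0 ξ n), Lp.coeFn_smul ψ (GG x0 ξ n),
    (Ff_memLp x0 ξ n).coeFn_toLp, (Gf_memLp x0 ξ n).coeFn_toLp] with t h1 h2 h3 h4 h5
  rw [vv, h1, Pi.add_apply, h2, h3, Pi.smul_apply, Pi.smul_apply, smul_eq_mul, smul_eq_mul]
  congr 2

lemma norm_vl (ξ : ℝ) (φ ψ : ℂ) (n : ℕ) {y : ℝ} (hy : y ∈ Ioo (0:ℝ) 1) :
    ‖vl ξ φ ψ n y‖ ≤ (‖φ‖ + ‖ψ‖) * Real.exp (π * |ξ|) := by
  unfold vl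
  calc ‖φ * Af ξ n y + ψ * Bf ξ n y‖ ≤ ‖φ‖ * ‖Af ξ n y‖ + ‖ψ‖ * ‖Bf ξ n y‖ := by
        rw [← norm_mul, ← norm_mul]; exact norm_add_le _ _
    _ ≤ ‖φ‖ * Real.exp (π * |ξ|) + ‖ψ‖ * Real.exp (π * |ξ|) := by
        gcongr
        · exact norm_Af ξ n hy
        · exact norm_Bf ξ n hy
    _ = _ := by ring

end Pool.Agent.Colloc
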