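import Pool.Agent.H0.Colloc.Conc

set_option autoImplicit false
open MeasureTheory Filter Topology Set
open scoped ENNReal ComplexConjugate Real

namespace Pool.Agent.Colloc

/-- `e^{2πiy}` -/
noncomputable def ez (y : ℝ) : ℂ := Complex.exp (2 * π * Complex.I * y)

lemma ez_cont : Continuous ez := by unfold ez; fun_prop

lemma norm_ez (y : ℝ) : ‖ez y‖ = 1 := by
  unfold ez
  have : (2 * π * Complex.I * y : ℂ) = ((2 * π * y : ℝ) : ℂ) * Complex.I := by push_cast; ring
  rw [this, Complex.norm_exp_ofReal_mul_I]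

lemma one_sub_ez (y : ℝ) : 1 - ez y = (sg2 y : ℂ) * Complex.exp (((π * y - π / 2 : ℝ) : ℂ) * Complex.I) := by
  unfold ez sg2
  rw [Complex.exp_mul_I, ← Complex.ofReal_cos, ← Complex.ofReal_sin, Real.cos_sub_pi_div_two, Real.sin_sub_pi_div_two]
  have : (2 * π * Complex.I * y : ℂ) = ((2 * (π * y) : ℝ) : ℂ) * Complex.I := by push_cast; ring
  rw [this, Complex.exp_mul_I, ← Complex.ofReal_cos, ← Complex.ofReal_sin, Real.cos_two_mul, Real.sin_two_mul]
  apply Complex.ext
  · simp only [Complex.sub_re, Complex.one_re, Complex.add_re, Complex.ofReal_re, Complex.mul_re, Complex.I_re,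
      Complex.I_im, Complex.ofReal_im, Complex.mul_im, Complex.add_im]
    have := Real.sin_sq_add_cos_sq (π * y)
    nlinarith
  · simp only [Complex.sub_im, Complex.one_im, Complex.add_re, Complex.ofReal_re, Complex.mul_re, Complex.I_re,
      Complex.I_im, Complex.ofReal_im, Complex.mul_im, Complex.add_im]
    ring

lemma norm_one_sub_ez {y : ℝ} (hy : y ∈ Ioo (0:ℝ) 1) : ‖1 - ez y‖ = sg2 y := by
  rw [one_sub_ez, norm_mul, Complex.norm_exp_ofReal_mul_I, mul_one, Complex.norm_real, Real.norm_eq_abs,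
    abs_of_pos (sg2_pos hy)]

lemma cpow_polar {r θ : ℝ} (hr : 0 < r) (h1 : -π < θ) (h2 : θ ≤ π) (s : ℂ) :
    ((r : ℂ) * Complex.exp ((θ : ℂ) * Complex.I)) ^ s = (r : ℂ) ^ s * Complex.exp (s * θ * Complex.I) := by
  have hr0 : (r : ℂ) ≠ 0 := by exact_mod_cast hr.ne'
  rw [Complex.cpow_def_of_ne_zero (mul_ne_zero hr0 (Complex.exp_ne_zero _)), Complex.cpow_def_of_ne_zero hr0,
    Complex.log_ofReal_mul hr (Complex.exp_ne_zero _), Complex.log_exp (by simpa using h1) (by simpa using h2),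
    ← Complex.exp_add]
  congr 1
  rw [Complex.ofReal_log hr.le]
  ring

lemma one_sub_ez_cpow {y : ℝ} (hy : y ∈ Ioo (0:ℝ) 1) (s : ℂ) :
    (1 - ez y) ^ s = (sg2 y : ℂ) ^ s * Complex.exp (s * ((π * y - π / 2 : ℝ) : ℂ) * Complex.I) := by
  rw [one_sub_ez]
  apply cpow_polar (sg2_pos hy)
  · have := mul_pos Real.pi_pos hy.1
    linarith [Real.pi_pos]
  · have := mul_lt_mul_of_pos_left hy.2 Real.pi_pos
    linarith [Real.pi_pos]

lemma one_sub_conj_ez_cpow {y : ℝ} (hy : y ∈ Ioo (0:ℝ) 1) (s : ℂ) :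
    (1 - conj (ez y)) ^ s = (sg2 y : ℂ) ^ s * Complex.exp (-(s * ((π * y - π / 2 : ℝ) : ℂ) * Complex.I)) := by
  have h : 1 - conj (ez y) = (sg2 y : ℂ) * Complex.exp (((-(π * y - π / 2) : ℝ) : ℂ) * Complex.I) := by
    have := congrArg conj (one_sub_ez y)
    rw [map_sub, map_one, map_mul, Complex.conj_ofReal, ← Complex.exp_conj, map_mul, Complex.conj_ofReal, Complex.conj_I] at this
    rw [this]
    congr 2
    push_cast; ring
  rw [h, cpow_polar (sg2_pos hy)]
  · congr 2
    push_cast; ring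
  · have := mul_lt_mul_of_pos_left hy.2 Real.pi_pos
    linarith [Real.pi_pos]
  · have := mul_pos Real.pi_pos hy.1
    linarith [Real.pi_pos]

lemma norm_cpow_bound (z s : ℂ) : ‖z ^ s‖ ≤ ‖z‖ ^ s.re * Real.exp (π * |s.im|) := by
  refine (Complex.norm_cpow_le z s).trans ?_
  rw [div_eq_mul_inv, ← Real.exp_neg]
  apply mul_le_mul_of_nonneg_left _ (Real.rpow_nonneg (norm_nonneg _) _)
  apply Real.exp_le_exp.mpr
  calc -(z.arg * s.im) ≤ |z.arg * s.im| := neg_le_abs _
    _ = |z.arg| * |s.im| := abs_mul _ _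
    _ ≤ π * |s.im| := by gcongr; exact Complex.abs_arg_le_pi z

lemma circle_zero (m : ℕ) (s : ℂ) {r : ℝ} (hr0 : 0 ≤ r) (hr1 : r < 1) :
    ∫ y in (0:ℝ)..1, ez y ^ (m + 1) * (1 - r * ez y) ^ s = 0 := by
  have hslit : ∀ z : ℂ, ‖z‖ ≤ 1 → 1 - (r : ℂ) * z ∈ Complex.slitPlane := by
    intro z hz
    left
    rw [Complex.sub_re, Complex.one_re, Complex.re_ofReal_mul]
    have h1 : z.re ≤ 1 := (Complex.re_le_norm z).trans hz
    have : r * z.re ≤ r := by nlinarith
    linarith
  have h := Complex.circleIntegral_eq_zero_of_differentiable_on_off_countable (R := 1) (c := 0) zero_le_one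
    (f := fun z => z ^ m * (1 - (r : ℂ) * z) ^ s) (s := ∅) countable_empty ?_ ?_
  · rw [circleIntegral] at h
    have h2 : ∫ θ in (0:ℝ)..2 * π, deriv (circleMap 0 1) θ • ((circleMap 0 1 θ) ^ m * (1 - (r : ℂ) * circleMap 0 1 θ) ^ s) =
        (2 * π) • ∫ y in (0:ℝ)..1, deriv (circleMap 0 1) (2 * π * y) • ((circleMap 0 1 (2 * π * y)) ^ m * (1 - (r : ℂ) * circleMap 0 1 (2 * π * y)) ^ s) := by
      rw [intervalIntegral.smul_integral_comp_mul_left
        (fun θ => deriv (circleMap 0 1) θ • ((circleMap 0 1 θ) ^ m * (1 - (r : ℂ) * circleMap 0 1 θ) ^ s)) (2 * π)]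
      simp
    rw [h2] at h
    have h3 : ∫ y in (0:ℝ)..1, deriv (circleMap 0 1) (2 * π * y) • ((circleMap 0 1 (2 * π * y)) ^ m * (1 - (r : ℂ) * circleMap 0 1 (2 * π * y)) ^ s)
        = ∫ y in (0:ℝ)..1, Complex.I * (ez y ^ (m + 1) * (1 - r * ez y) ^ s) := by
      apply intervalIntegral.integral_congr
      intro y _
      have e : circleMap 0 1 (2 * π * y) = ez y := by
        simp only [circleMap, ez, Complex.ofReal_one, one_mul, zero_add]
        congr 1; push_cast; ring
      simp only [deriv_circleMap, e, smul_eq_mul]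
      ring
    rw [h3, intervalIntegral.integral_const_mul] at h
    have h4 := (smul_eq_zero.mp h).resolve_left (by positivity)
    exact (mul_eq_zero.mp h4).resolve_left Complex.I_ne_zero
  · apply ContinuousOn.mul (by fun_prop)
    apply ContinuousOn.cpow_const (by fun_prop)
    intro z hz
    exact hslit z (by simpa using hz)
  · intro z hz
    have hz' : ‖z‖ ≤ 1 := by
      have := hz.1
      rw [Metric.mem_ball, dist_zero_right] at this
      exact this.le
    apply DifferentiableAt.mul (by fun_prop)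
    exact DifferentiableAt.cpow_const (by fun_prop) (hslit z hz')

lemma ZL (m : ℕ) {s : ℂ} (hs : -1 < s.re) (hs0 : s.re ≤ 0) :
    ∫ y in Ioo (0:ℝ) 1, ez y ^ (m + 1) * (1 - ez y) ^ s = 0 := by
  let rj : ℕ → ℝ := fun j => 1 - 1 / ((j : ℝ) + 1)
  have hr0 : ∀ j, 0 ≤ rj j := by
    intro j
    have : 1 / ((j : ℝ) + 1) ≤ 1 := by
      rw [div_le_one (by positivity)]
      have : (0:ℝ) ≤ j := Nat.cast_nonneg j
      linarith
    simp only [rj]; linarith
  have hr1 : ∀ j, rj j < 1 := by
    intro j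
    have : 0 < 1 / ((j : ℝ) + 1) := by positivity
    simp only [rj]; linarith
  have hrt : Tendsto rj atTop (𝓝 1) := by
    have := (tendsto_const_nhds (x := (1:ℝ))).sub (tendsto_one_div_add_atTop_nhds_zero_nat (𝕜 := ℝ))
    rw [sub_zero] at this
    exact this
  have hlim : Tendsto (fun j => ∫ y in Ioo (0:ℝ) 1, ez y ^ (m + 1) * (1 - rj j * ez y) ^ s) atTop
      (𝓝 (∫ y in Ioo (0:ℝ) 1, ez y ^ (m + 1) * (1 - ez y) ^ s)) := by
    apply tendsto_integral_of_dominated_convergence (fun y => (2:ℝ) ^ (-s.re) * sg2 y ^ s.re * Real.exp (π * |s.im|))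
    · intro j
      apply Measurable.aestronglyMeasurable
      have h1 : Measurable fun y : ℝ => (1 - (rj j : ℂ) * ez y) := by
        exact (by have := ez_cont; fun_prop : Continuous fun y : ℝ => (1 - (rj j : ℂ) * ez y)).measurable
      exact (ez_cont.measurable.pow_const _).mul (h1.pow_const s)
    · exact ((sg2_rpow_int hs hs0).const_mul _).mul_const _
    · intro j
      filter_upwards [self_mem_ae_restrict measurableSet_Ioo] with y hy
      rw [norm_mul, norm_pow, norm_ez, one_pow, one_mul]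
      refine (norm_cpow_bound _ _).trans ?_
      apply mul_le_mul_of_nonneg_right _ (Real.exp_pos _).le
      have h1 : sg2 y / 2 ≤ ‖1 - (rj j : ℂ) * ez y‖ := by
        rw [← norm_one_sub_ez hy]
        have e1 : ‖1 - ez y‖ ≤ ‖1 - (rj j : ℂ) * ez y‖ + (1 - rj j) := by
          have : 1 - ez y = (1 - (rj j : ℂ) * ez y) + ((rj j - 1 : ℝ) : ℂ) * ez y := by push_cast; ring
          calc ‖1 - ez y‖ = ‖(1 - (rj j : ℂ) * ez y) + ((rj j - 1 : ℝ) : ℂ) * ez y‖ := by rw [← this]
            _ ≤ ‖1 - (rj j : ℂ) * ez y‖ + ‖((rj j - 1 : ℝ) : ℂ) * ez y‖ := norm_add_le _ _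
            _ = _ := by
              rw [norm_mul, norm_ez, Complex.norm_real, Real.norm_eq_abs, abs_of_neg (by linarith [hr1 j])]
              ring
        have e2 : 1 - rj j ≤ ‖1 - (rj j : ℂ) * ez y‖ := by
          have := norm_sub_norm_le (1 : ℂ) ((rj j : ℂ) * ez y)
          rw [norm_one, norm_mul, norm_ez, Complex.norm_real, Real.norm_eq_abs, abs_of_nonneg (hr0 j), mul_one] at this
          exact this
        linarith
      have h2 := Real.rpow_le_rpow_of_nonpos (by have := sg2_pos hy; positivity) h1 hs0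
      refine h2.trans (le_of_eq ?_)
      rw [Real.div_rpow (sg2_pos hy).le (by norm_num), Real.rpow_neg (by norm_num)]
      ring
    · filter_upwards [self_mem_ae_restrict measurableSet_Ioo] with y hy
      apply Tendsto.const_mul
      have hmem : 1 - ez y ∈ Complex.slitPlane := by
        rw [one_sub_ez]
        left
        rw [Complex.re_ofReal_mul, Complex.exp_ofReal_mul_I_re, Real.cos_sub_pi_div_two]
        have h1 := sg2_pos hy
        have h2 : 0 < Real.sin (π * y) := by unfold sg2 at h1; linarith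
        positivity
      have hc : ContinuousAt (fun z : ℂ => z ^ s) (1 - ez y) := continuousAt_cpow_const hmem
      have ht : Tendsto (fun j => 1 - (rj j : ℂ) * ez y) atTop (𝓝 (1 - ez y)) := by
        have h1 : Tendsto (fun j => (rj j : ℂ)) atTop (𝓝 ((1:ℝ) : ℂ)) := (Complex.continuous_ofReal.tendsto 1).comp hrt
        have := (tendsto_const_nhds (x := (1:ℂ))).sub (h1.mul_const (ez y))
        simpa using this
      exact hc.tendsto.comp ht
  have hz : ∀ j, ∫ y in Ioo (0:ℝ) 1, ez y ^ (m + 1) * (1 - rj j * ez y) ^ s = 0 := by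
    intro j
    rw [← integral_Ioc_eq_integral_Ioo, ← intervalIntegral.integral_of_le zero_le_one]
    exact circle_zero m s (hr0 j) (hr1 j)
  simp only [hz] at hlim
  exact (tendsto_nhds_unique hlim tendsto_const_nhds)

end Pool.Agent.Colloc
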